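import Pool.Agent.MP_35c637_nt.Total

/-! Choice of the parameters. -/

set_option autoImplicit false

namespace Pool.Agent.MP_35c637_nt

open Finset Real Filter

noncomputable section

theorem PI_le' {N : ℕ} {r b : ℝ} (h1 : log N ≤ r) (h2 : 1 + 2 * r ≤ exp b) (hb : 2 ≤ b) :
    PI N ≤ 6 * b := by
  have h0 := log_natCast_nonneg N
  have h3 : log (1 + 2 * log N) ≤ b := by
    rw [log_le_iff_le_exp (by linarith)]; linarith
  linarith [PI_le N]

theorem rpow_le_exp {y r b : ℝ} (hy : 0 < y) (h : log y * r ≤ b) : y ^ r ≤ exp b := by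
  rw [rpow_def_of_pos hy]; exact exp_le_exp.2 h

theorem smooth_par {a u v : ℝ} (ha : 0 < a) (ha1 : a ≤ 1 / 32) (hv : u = exp v) (v0 : 640 ≤ v)
    (E1 : v ≤ u / 4) (E3 : 192 * v ≤ exp (a * v)) (E4 : 100 * u ^ 2 ≤ exp (u / 2)) :
    ∃ y : ℕ, 1 ≤ y ∧ (y : ℝ) ^ (-(1 - a / 4)) ≤ exp (-(a * u / 2)) / exp u ∧
      2 * (HH y ((1 - a) * v / ((1 + a) * u)) * (1 + 1 / (1 / u))) ≤ exp u / u ∧
      HH y (1 / 4) ≤ exp (exp u / u) := by
  have u0 : 0 < u := by linarith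
  have y1 := Nat.le_ceil (exp ((1 + a) * u))
  have y2 := Nat.ceil_lt_add_one (exp_pos ((1 + a) * u)).le
  set y := ⌈exp ((1 + a) * u)⌉₊
  have e1 : 1 ≤ exp ((1 + a) * u) := one_le_exp (by positivity)
  have y0 : (0 : ℝ) < y := by linarith
  have y3 : (1 + a) * u ≤ log y := (le_log_iff_exp_le y0).2 y1
  have y4 : log y ≤ (1 + a) * u + 1 := by
    rw [log_le_iff_le_exp y0, exp_add]
    nlinarith [add_one_le_exp (1 : ℝ)]
  have au : a * u ≤ u / 32 := by nlinarith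
  have y5 : log y ≤ 2 * u := by nlinarith
  have hP : PI y ≤ 6 * (2 * v) := PI_le' y5 (by
    rw [two_mul v, exp_add, ← hv]; nlinarith) (by linarith)
  have P0 := PI_nonneg y
  have w1 : 100 * u * exp (u / 2) ≤ exp u / u := by
    rw [le_div_iff₀ u0]
    conv_rhs => rw [← add_halves u, exp_add]
    nlinarith [exp_pos (u / 2)]
  refine ⟨y, by exact_mod_cast (show (1 : ℝ) ≤ y by linarith), ?_, ?_, ?_⟩
  · rw [← exp_sub]
    refine rpow_le_exp y0 ?_
    have h1 := mul_le_mul_of_nonneg_right y3 (show 0 ≤ 1 - a / 4 by linarith)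
    have h2 : 0 ≤ a * u * (1 - a) := by have : 0 ≤ 1 - a := by linarith
                                        positivity
    nlinarith
  · set s := (1 - a) * v / ((1 + a) * u) with hs
    have s0 : 0 ≤ s := by have : 0 ≤ 1 - a := by linarith
                          positivity
    have s1 : (1 + a) * u * s = (1 - a) * v := by rw [hs]; field_simp
    have s2 : s ≤ 1 / 2 := by
      rw [hs, div_le_iff₀ (by positivity)]; nlinarith
    have h1 : (y : ℝ) ^ s ≤ exp (1 / 2 + (1 - a) * v) := rpow_le_exp y0 (by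
      nlinarith [mul_le_mul_of_nonneg_right y4 s0])
    have h2 : exp (1 / 2 : ℝ) ≤ 2 := by
      have h3 := add_one_le_exp (-(1 / 2) : ℝ)
      rw [exp_neg, le_inv_comm₀ (by norm_num) (exp_pos _)] at h3
      linarith
    have h3 : exp (a * v) * exp ((1 - a) * v) = u := by rw [← exp_add, hv]; congr 1; ring
    have h4 : HH y s ≤ exp (u / 2) := by
      refine exp_le_exp.2 ?_
      rw [exp_add] at h1
      have h5 := exp_pos ((1 - a) * v)
      calc 4 * (y : ℝ) ^ s * PI y ≤ 4 * (2 * exp ((1 - a) * v)) * (6 * (2 * v)) :=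
            mul_le_mul (by nlinarith) hP P0 (by positivity)
        _ = 192 * v * exp ((1 - a) * v) / 2 := by ring
        _ ≤ exp (a * v) * exp ((1 - a) * v) / 2 := by gcongr
        _ = u / 2 := by rw [h3]
    rw [one_div_one_div]
    have h5 := mul_le_mul h4 (show 1 + u ≤ 2 * u by linarith) (by linarith) (exp_pos _).le
    nlinarith [exp_pos (u / 2)]
  · refine exp_le_exp.2 ?_
    have h1 : (y : ℝ) ^ (1 / 4 : ℝ) ≤ exp (u / 2) := rpow_le_exp y0 (by linarith)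
    have h2 : 4 * (y : ℝ) ^ (1 / 4 : ℝ) * PI y ≤ 4 * exp (u / 2) * (6 * (2 * v)) :=
      mul_le_mul (by linarith) hP P0 (by positivity)
    nlinarith [exp_pos (u / 2)]

theorem xfacts {x : ℕ} {t u : ℝ} (ht : (x : ℝ) = exp t) (hu : t = exp u) (u1 : 641 ≤ u) :
    ((x + 1 : ℕ) : ℝ) ≤ exp (t + 1) ∧ log (x + 1 : ℕ) ≤ t + 1 ∧
      1 + log (x + 1 : ℕ) ≤ exp (2 * u) ∧ lg x ≤ exp (2 * u) ∧ PI (x + 1 + 1) ≤ 6 * (2 * u) := by
  have t1 : u + 1 ≤ t := hu ▸ add_one_le_exp u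
  have x1 : (1 : ℝ) ≤ x := ht ▸ one_le_exp (by linarith)
  have e1 : (2 : ℝ) ≤ exp 1 := by linarith [add_one_le_exp (1 : ℝ)]
  have e2 : (3 : ℝ) ≤ exp 2 := by linarith [add_one_le_exp (2 : ℝ)]
  have X1 : ((x + 1 : ℕ) : ℝ) ≤ exp (t + 1) := by
    rw [exp_add, ← ht]; push_cast; nlinarith
  have X2 : log (x + 1 : ℕ) ≤ t + 1 := (log_le_iff_le_exp (by positivity)).2 X1
  have tt : 10 * t ≤ exp (2 * u) := by rw [two_mul u, exp_add, ← hu]; nlinarith
  refine ⟨X1, X2, by linarith, ?_, PI_le' (r := t + 2) ?_ (by linarith) (by linarith)⟩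
  · have : log (2 * x) ≤ t + 1 := by
      rw [log_le_iff_le_exp (by positivity), exp_add, ← ht]; nlinarith
    rw [lg]; linarith
  · rw [log_le_iff_le_exp (by positivity), exp_add, ← ht]; push_cast; nlinarith

theorem core {f : ℕ → ℕ} (hf : Cls f) {x y : ℕ} {a t u w Λ z s ρ b c : ℝ} (ha : 0 < a)
    (ha1 : a ≤ 1 / 32) (ht : (x : ℝ) = exp t) (hu : t = exp u) (u1 : 641 ≤ u) (hw : t / u = w)
    (hz : a * b = 32000 * z) (f1 : 100 * u ≤ w) (f2 : 640 * w ≤ Λ)
    (f3 : 20 * w ≤ c) (f5 : 100 * Λ ≤ z) (f6 : 1000 * z ≤ b) (f7 : 32 * b ≤ t)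
    (s0 : 0 ≤ s) (s1 : s ≤ 1 / 2) (s2 : (14 * b - 3 / 2 * t) * s ≤ 17 * c - 3 / 2 * Λ)
    (ρ0 : 0 < ρ) (ρ1 : 64 * (t * ρ) ≤ z) (ρ2 : 4 * ρ ≤ 1) (y1 : 1 ≤ y)
    (y2 : (y : ℝ) ^ (-(1 - a / 4)) ≤ ρ / t) (y3 : 2 * (HH y s * (1 + 1 / (1 / u))) ≤ w)
    (y4 : HH y (1 / 4) ≤ exp w) :
    (((Icc 1 x).filter fun n => f n = f (n + 1)).card : ℝ) ≤ exp (t - (3 / 2 * Λ - 32 * c)) := by
  obtain ⟨X1, X2, X4, X5, X6⟩ := xfacts ht hu u1
  have u0 : 0 < u := by linarith
  have t0 : 0 < t := by linarith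
  have x0 : 0 < x := by exact_mod_cast (show (0 : ℝ) < x from ht ▸ exp_pos t)
  have e1 : (2 : ℝ) ≤ exp 1 := by linarith [add_one_le_exp (1 : ℝ)]
  have X0 : (0 : ℝ) < (x + 1 : ℕ) := by positivity
  have X3 := log_natCast_nonneg (x + 1)
  have y5 : log (x + 1 : ℕ) * (y : ℝ) ^ (-(1 - a / 4)) ≤ 2 * ρ := by
    calc _ ≤ (2 * t) * (ρ / t) := mul_le_mul (by linarith) y2 (by positivity) (by positivity)
      _ = _ := by field_simp
  obtain ⟨Q, q1, q4⟩ : ∃ Q : ℕ, exp (4 * Λ) ≤ Q ∧ (Q : ℝ) ≤ exp (4 * Λ + 1) := by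
    refine ⟨_, Nat.le_ceil _, (Nat.ceil_lt_add_one (exp_pos (4 * Λ)).le).le.trans ?_⟩
    have q3 : 1 ≤ exp (4 * Λ) := one_le_exp (by linarith)
    rw [exp_add]
    linarith [mul_le_mul_of_nonneg_left e1 (exp_pos (4 * Λ)).le]
  let pr : Par := ⟨exp (t - 2 * Λ), exp (2 * Λ), exp (t + z), exp (19 / 20 * t), exp (1 / 20 * t),
    exp (b / 4000), exp b, exp (2 * b), exp (4 / 5 * t), exp (t / 2 - 2 * b),
    exp (10 * Λ), exp (t / 2 - 6 * b)⟩
  have hpr : pr.Ok x := by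
    constructor
    iterate 9 exact one_le_exp (by linarith)
    iterate 4 (simp only [pr, ← exp_nat_mul, ← exp_add]; push_cast; exact exp_le_exp.2 (by linarith))
    · simp only [pr, ← exp_nat_mul]; push_cast at X1 ⊢
      exact X1.trans (exp_le_exp.2 (by linarith))
    iterate 2 (simp only [pr, ← exp_nat_mul, ← exp_add]; push_cast; exact exp_le_exp.2 (by linarith))
  have h := total hf y1 x0 hpr (s := s) (τ := 1 / u) (γ := a / 4) (κ := exp (-(2 * Λ)))
    (E := exp (3 * w)) (Q := Q) s0 s1 (by positivity) (by positivity) (by linarith) (exp_pos _)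
    (by exact_mod_cast (exp_pos _).trans_le q1)
    (by
      calc _ ≤ exp 7 * (exp (t + 1) / exp (19 / 20 * t)) ^ 6 * exp (t + 1) ^ 2 := by
            have : (8 : ℝ) ≤ exp 7 := by linarith [add_one_le_exp (7 : ℝ)]
            simp only [pr]; gcongr
        _ ≤ _ := by
            simp only [pr, ← exp_nat_mul, ← exp_add, ← exp_sub]; push_cast
            exact exp_le_exp.2 (by linarith))
    (by rw [ht]; exact exp_le_exp.2 (by linarith)) (by rw [mul_assoc]; linarith)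
    (by
      calc _ ≤ exp 3 * exp (4 * Λ + 1) ^ 3 := by
            have : (4 : ℝ) ≤ exp 3 := by linarith [add_one_le_exp (3 : ℝ)]
            gcongr
        _ ≤ _ := by
            simp only [pr, ← exp_nat_mul, ← exp_add]; push_cast
            exact exp_le_exp.2 (by linarith))
    (by
      calc (1 : ℝ) = exp (-(2 * Λ)) ^ 2 * exp (4 * Λ) := by
            rw [← exp_nat_mul, ← exp_add, ← exp_zero]; congr 1; push_cast; ring
        _ ≤ _ := by gcongr)
    (by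
      rw [ht]; simp only [pr, ← exp_nat_mul, ← exp_add]; push_cast
      exact exp_le_exp.2 (by linarith))
    (by
      have h1 : ((x + 1 : ℕ) : ℝ) ^ (1 / u) ≤ exp (2 * w) := rpow_le_exp X0 (by
        rw [mul_one_div, ← hw, ← mul_div_assoc]
        exact div_le_div_of_nonneg_right (by linarith) u0.le)
      calc _ ≤ exp (2 * w) * exp w := mul_le_mul h1 (exp_le_exp.2 y3) (exp_pos _).le (exp_pos _).le
        _ = _ := by rw [← exp_add]; congr 1; ring)
  obtain ⟨B, hB⟩ : ∃ B, B = exp (t - 3 / 2 * Λ + 20 * c) := ⟨_, rfl⟩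
  have k1 : pr.Z0 ≤ B := hB ▸ exp_le_exp.2 (by linarith)
  have k2 : 2 * ((x + 1 : ℕ) : ℝ) / pr.a0 ≤ B := by
    calc _ ≤ exp 1 * exp (t + 1) / exp (2 * Λ) := by simp only [pr]; gcongr
      _ ≤ _ := by rw [hB, ← exp_add, ← exp_sub]; exact exp_le_exp.2 (by linarith)
  have k3 : ((x + 1 : ℕ) : ℝ) ^ 2 / pr.T1 * (1 + log (x + 1 : ℕ)) ≤ B := by
    calc _ ≤ exp (t + 1) ^ 2 / exp (t + z) * exp (2 * u) := by simp only [pr]; gcongr
      _ ≤ _ := by
        rw [hB, ← exp_nat_mul, ← exp_sub, ← exp_add]; push_cast; exact exp_le_exp.2 (by linarith)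
  have k4 : ((x + 1 : ℕ) : ℝ) / pr.T2 * (pr.DB * (pr.T1 / pr.T2)) ≤ B := by
    calc _ ≤ exp (t + 1) / pr.T2 * (pr.DB * (pr.T1 / pr.T2)) := by simp only [pr]; gcongr
      _ ≤ _ := by simp only [hB, pr, ← exp_add, ← exp_sub]; exact exp_le_exp.2 (by linarith)
  have k5 : 2 * pr.T1 / pr.G ^ (a / 4) * ((1 + log (x + 1 : ℕ)) * exp (PI (x + 1 + 1) +
      (1 + log (x + 1 : ℕ)) * (4 * log (x + 1 : ℕ) * (y : ℝ) ^ (-(1 - a / 4))))) ≤ B := by
    have h1 : (1 + log (x + 1 : ℕ)) * (4 * log (x + 1 : ℕ) * (y : ℝ) ^ (-(1 - a / 4))) ≤ z / 4 := by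
      calc _ ≤ (2 * t) * (8 * ρ) := mul_le_mul (by linarith) (by rw [mul_assoc]; linarith)
            (by positivity) (by positivity)
        _ ≤ _ := by linarith
    have h2 : pr.G ^ (a / 4) = exp (2 * z) := by
      simp only [pr]; rw [← exp_mul]; congr 1; linarith
    rw [h2]
    calc _ ≤ exp 1 * exp (t + z) / exp (2 * z) * (exp (2 * u) * exp (6 * (2 * u) + z / 4)) := by
          simp only [pr]; gcongr
      _ ≤ _ := by simp only [hB, ← exp_add, ← exp_sub]; exact exp_le_exp.2 (by linarith)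
  have k6 : ((x + 1 : ℕ) : ℝ) * ((2 * (pr.R * pr.a0 ^ 3) / pr.V) ^ (1 / 4 : ℝ) *
      (HH y (1 / 4) * (1 + log (x + 1 : ℕ)))) ≤ B := by
    have := HH_pos y (1 / 4)
    calc _ ≤ exp (t + 1) * ((exp 1 * (pr.R * pr.a0 ^ 3) / pr.V) ^ (1 / 4 : ℝ) *
          (exp w * exp (2 * u))) := by simp only [pr]; gcongr
      _ ≤ _ := by
        simp only [hB, pr, ← exp_nat_mul, ← exp_add, ← exp_sub, ← exp_mul]; push_cast
        exact exp_le_exp.2 (by linarith)
  have k7 : lg x ^ 2 * (2 * x * (((pr.R * pr.a0 ^ 3 / (pr.Z0 / (pr.a0 ^ 3 * (pr.M0 * pr.V) *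
      (pr.N0 * pr.V)))) ^ s * exp (3 * w)) * ((pr.R * pr.a0 ^ 3 / pr.N0) ^ s * exp (3 * w)) *
      ((pr.R * pr.a0 ^ 3 / pr.D0) ^ s * exp (3 * w))) + 70 * lg x ^ 4 * x * exp (-(2 * Λ))) ≤
      B + 70 * B := by
    have l1 := one_le_lg x
    have h1 := mul_le_mul_of_nonneg_right (show 36 * Λ ≤ b by linarith) s0
    rw [ht, mul_add]
    refine add_le_add ?_ ?_
    · calc _ ≤ exp (2 * u) ^ 2 * (exp 1 * exp t * (((pr.R * pr.a0 ^ 3 / (pr.Z0 / (pr.a0 ^ 3 *
            (pr.M0 * pr.V) * (pr.N0 * pr.V)))) ^ s * exp (3 * w)) * ((pr.R * pr.a0 ^ 3 / pr.N0) ^ s *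
            exp (3 * w)) * ((pr.R * pr.a0 ^ 3 / pr.D0) ^ s * exp (3 * w)))) := by
            simp only [pr]; gcongr
        _ ≤ _ := by
          simp only [hB, pr, ← exp_nat_mul, ← exp_add, ← exp_sub, ← exp_mul]; push_cast
          exact exp_le_exp.2 (by linarith)
    · calc _ ≤ exp (2 * u) ^ 2 * (70 * exp (2 * u) ^ 4 * exp t * exp (-(2 * Λ))) := by gcongr
        _ = 70 * (exp (2 * u) ^ 6 * exp t * exp (-(2 * Λ))) := by ring
        _ ≤ _ := by
          simp only [hB, ← exp_nat_mul, ← exp_add]; push_cast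
          exact mul_le_mul_of_nonneg_left (exp_le_exp.2 (by linarith)) (by norm_num)
  have k8 : 80 * B ≤ exp (t - (3 / 2 * Λ - 32 * c)) := by
    have : (80 : ℝ) ≤ exp 79 := by linarith [add_one_le_exp (79 : ℝ)]
    calc 80 * B ≤ exp 79 * B := mul_le_mul_of_nonneg_right this (hB ▸ (exp_pos _).le)
      _ ≤ _ := by rw [hB, ← exp_add]; exact exp_le_exp.2 (by linarith)
  linarith

theorem final {f : ℕ → ℕ} (hf : Cls f) {x : ℕ} {a t u v : ℝ} (ha : 0 < a) (ha1 : a ≤ 1 / 32)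
    (ht : (x : ℝ) = exp t) (hu : t = exp u) (hv : u = exp v) (E1 : v ≤ a ^ 2 / 3200000 * u)
    (E2 : 20 ≤ a * v) (E3 : 192 * v ≤ exp (a * v)) (E4 : 100 * u ^ 2 ≤ exp (u / 2))
    (E5 : 64 ≤ a ^ 2 / 32000 * exp (a * u / 2)) :
    (((Icc 1 x).filter fun n => f n = f (n + 1)).card : ℝ) ≤
      x / exp ((3 / 2 - 32 * a) * t * v / u) := by
  have v0 : 640 ≤ v := by nlinarith
  have u1 : v + 1 ≤ u := hv ▸ add_one_le_exp v
  have u0 : 0 < u := by linarith
  have t0 : 0 < t := hu ▸ exp_pos u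
  have a2 : a ^ 2 ≤ a / 32 := by nlinarith
  have a4 : v ≤ u / 4 := by
    linarith [mul_le_mul_of_nonneg_right (show a ^ 2 / 3200000 ≤ 1 / 4 by linarith) u0.le]
  obtain ⟨y, y1, y2, y3, y4⟩ := smooth_par ha ha1 hv v0 a4 E3 E4
  rw [← hu] at y2 y3 y4
  have w0 : 0 < t / u := by positivity
  have Λ0 : 0 ≤ t / u * v := by positivity
  have a3 : 0 ≤ 1 - a := by linarith
  have ρ1 : 64 * exp (-(a * u / 2)) ≤ a ^ 2 / 32000 := by
    have h1 := mul_le_mul_of_nonneg_right E5 (exp_pos (-(a * u / 2))).le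
    rwa [mul_assoc, ← exp_add, add_neg_cancel, exp_zero, mul_one] at h1
  have e : (3 / 2 - 32 * a) * t * v / u = 3 / 2 * (t / u * v) - 32 * (a * (t / u * v)) := by
    field_simp
  rw [e, ht, ← exp_sub]
  refine core hf ha ha1 ht hu (by linarith) rfl (b := a * t) (z := a ^ 2 / 32000 * t) (by ring) ?_ ?_ ?_
    ?_ ?_ ?_ (by positivity) ?_ ?_ (exp_pos _) ?_ (by linarith) y1 y2 y3 y4
  · rw [le_div_iff₀ u0, hu]
    linarith [exp_le_exp.2 (show u / 2 ≤ u by linarith)]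
  · linarith [mul_le_mul_of_nonneg_left v0 w0.le]
  · linarith [mul_le_mul_of_nonneg_left E2 w0.le]
  · have h1 := mul_le_mul_of_nonneg_left E1 w0.le
    have e : t / u * (a ^ 2 / 3200000 * u) = a ^ 2 / 32000 * t / 100 := by field_simp; ring
    linarith
  · linarith [mul_le_mul_of_nonneg_right a2 t0.le, mul_pos ha t0]
  · linarith [mul_le_mul_of_nonneg_right ha1 t0.le]
  · rw [div_le_iff₀ (by positivity)]
    linarith [mul_pos ha u0, mul_pos ha (show 0 < v by linarith)]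
  · have e : (14 * (a * t) - 3 / 2 * t) * ((1 - a) * v / ((1 + a) * u)) =
        (14 * a - 3 / 2) * (1 - a) / (1 + a) * (t / u * v) := by field_simp
    rw [e, ← mul_assoc 17, ← sub_mul]
    refine mul_le_mul_of_nonneg_right ?_ Λ0
    rw [div_le_iff₀ (by positivity)]
    nlinarith
  · linarith [mul_le_mul_of_nonneg_left ρ1 t0.le]

theorem ev_pow (K : ℝ) {b : ℝ} (hb : 0 < b) (n : ℕ) : ∀ᶠ x : ℝ in atTop, K * x ^ n ≤ exp (b * x) := by
  filter_upwards [(tendsto_exp_mul_div_rpow_atTop n b hb).eventually_ge_atTop K,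
    eventually_gt_atTop 0] with x h1 h2
  rwa [rpow_natCast, le_div_iff₀ (by positivity)] at h1

theorem bound {f : ℕ → ℕ} (hf : Cls f) {ε : ℝ} (hε : 0 < ε) : ∃ x₀ : ℕ, ∀ x : ℕ, x₀ ≤ x →
    (((Icc 1 x).filter fun n => f n = f (n + 1)).card : ℝ) ≤
      x / exp ((3 / 2 - ε) * log x * log (log (log x)) / log (log x)) := by
  set a := min ε 1 / 32 with ha
  have a0 : 0 < a := by positivity
  have a1 : a ≤ 1 / 32 := by linarith [min_le_right ε 1]
  have a2 : 32 * a ≤ ε := by linarith [min_le_left ε 1]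
  have T1 : Tendsto (fun x : ℕ => log x) atTop atTop :=
    tendsto_log_atTop.comp tendsto_natCast_atTop_atTop
  have T2 := tendsto_log_atTop.comp T1
  have T3 := tendsto_log_atTop.comp T2
  refine eventually_atTop.1 ?_
  filter_upwards [eventually_gt_atTop 0, T1.eventually_gt_atTop 0, T2.eventually_gt_atTop 0,
    T3.eventually_gt_atTop 0, T3.eventually (ev_pow (3200000 / a ^ 2) one_pos 1),
    T3.eventually_ge_atTop (20 / a), T3.eventually (ev_pow 192 a0 1),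
    T2.eventually (ev_pow 100 (show (0 : ℝ) < 1 / 2 by norm_num) 2),
    T2.eventually (ev_pow (64 * 32000 / a ^ 2) (half_pos a0) 0)] with x h0 h1 h2 h3 h4 h5 h6 h7 h8
  simp only [Function.comp, pow_one, one_mul, pow_zero, mul_one] at h2 h3 h4 h5 h6 h7 h8
  rw [exp_log h2] at h4
  refine (final hf a0 a1 (exp_log (by exact_mod_cast h0)).symm (exp_log h1).symm (exp_log h2).symm
    ?_ ?_ h6 ?_ ?_).trans ?_
  · rwa [div_mul_eq_mul_div, div_le_iff₀ (by positivity), ← le_div_iff₀' (by norm_num),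
      mul_div_assoc, mul_comm] at h4
  · rwa [div_le_iff₀' a0] at h5
  · rwa [mul_comm (1 / 2 : ℝ), mul_one_div] at h7
  · rw [div_le_iff₀' (by positivity), div_mul_eq_mul_div] at h8
    linarith
  · refine div_le_div_of_nonneg_left (by positivity) (exp_pos _) (exp_le_exp.2 ?_)
    gcongr

end

end Pool.Agent.MP_35c637_nt
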