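import Mathlib.Topology.Sheaves.Presheaf
import Mathlib.Data.Int.Star
import Mathlib.Algebra.Order.Ring.Star
import Mathlib.FieldTheory.Finite.Basic
import Mathlib.Analysis.PSeries
import Mathlib.Algebra.Order.Star.Real
import Mathlib.Analysis.CStarAlgebra.Classes
import Mathlib.Analysis.Complex.ExponentialBounds
import Mathlib.Combinatorics.SimpleGraph.Basic
import Mathlib.RingTheory.PiTensorProduct
import Mathlib.NumberTheory.Primorial
import Mathlib.NumberTheory.EulerProduct.Basic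
import Mathlib.NumberTheory.Harmonic.Bounds
import Mathlib.RingTheory.SimpleRing.Principal
import Mathlib.Tactic.Algebra.Basic

-- ======== part 0: formerly Pool.Agent.MP_35c637_nt.Basic
section MrgPart0

/-! Elementary tools: smooth and rough parts, greedy divisors, counts in progressions. -/

set_option autoImplicit false

namespace Pool.Agent.MP_35c637_nt

open Finset

/-- the part of `k` made of primes below `y` -/
def sm (y k : ℕ) : ℕ := (k.primeFactorsList.filter (· < y)).prod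

/-- the part of `k` made of primes at least `y` -/
def ro (y k : ℕ) : ℕ := (k.primeFactorsList.filter (fun p => ¬ p < y)).prod

/-- the product of `p - 1` over the primes dividing `k` -/
def ph (k : ℕ) : ℕ := ∏ p ∈ k.primeFactors, (p - 1)

theorem sm_mul_ro (y : ℕ) {k : ℕ} (hk : k ≠ 0) : sm y k * ro y k = k := by
  unfold sm ro
  have h := (List.filter_append_perm (fun p => decide (p < y)) k.primeFactorsList).prod_eq
  have h2 := Nat.prod_primeFactorsList hk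
  simp only [decide_not]
  rw [List.prod_append] at h
  rw [h, h2]

theorem ro_pos (y k : ℕ) : 0 < ro y k := by
  unfold ro
  refine List.prod_pos fun p hp => ?_
  exact (Nat.prime_of_mem_primeFactorsList (List.mem_of_mem_filter hp)).pos

theorem sm_pos (y k : ℕ) : 0 < sm y k := by
  unfold sm
  refine List.prod_pos fun p hp => ?_
  exact (Nat.prime_of_mem_primeFactorsList (List.mem_of_mem_filter hp)).pos

theorem ro_mul (y : ℕ) {a b : ℕ} (ha : a ≠ 0) (hb : b ≠ 0) : ro y (a * b) = ro y a * ro y b := by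
  unfold ro
  rw [((Nat.perm_primeFactorsList_mul ha hb).filter _).prod_eq, List.filter_append,
    List.prod_append]

theorem ro_one (y : ℕ) : ro y 1 = 1 := by simp [ro]

theorem ro_dvd (y : ℕ) {k : ℕ} (hk : k ≠ 0) : ro y k ∣ k :=
  ⟨sm y k, by rw [mul_comm, sm_mul_ro y hk]⟩

theorem ro_le (y : ℕ) {k : ℕ} (hk : k ≠ 0) : ro y k ≤ k :=
  Nat.le_of_dvd (Nat.pos_of_ne_zero hk) (ro_dvd y hk)

theorem sm_le (y : ℕ) {k : ℕ} (hk : k ≠ 0) : sm y k ≤ k :=
  Nat.le_of_dvd (Nat.pos_of_ne_zero hk) ⟨ro y k, (sm_mul_ro y hk).symm⟩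

theorem sm_mem (y k : ℕ) : sm y k ∈ y.smoothNumbers := Nat.prod_mem_smoothNumbers k y

theorem ro_prod (y : ℕ) (T : Finset ℕ) (g : ℕ → ℕ) (hg : ∀ p ∈ T, g p ≠ 0) :
    ro y (∏ p ∈ T, g p) = ∏ p ∈ T, ro y (g p) := by
  induction T using Finset.induction_on with
  | empty => simp [ro_one]
  | insert a s ha ih =>
    rw [prod_insert ha, prod_insert ha, ro_mul y (hg a (mem_insert_self _ _))
      (prod_ne_zero_iff.2 fun p hp => hg p (mem_insert_of_mem hp)),
      ih fun p hp => hg p (mem_insert_of_mem hp)]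

theorem ro_dvd_ro (y : ℕ) {a b : ℕ} (hb : b ≠ 0) (h : a ∣ b) : ro y a ∣ ro y b := by
  obtain ⟨c, rfl⟩ := h
  rw [ro_mul y (left_ne_zero_of_mul hb) (right_ne_zero_of_mul hb)]
  exact dvd_mul_right _ _

theorem ph_pos (k : ℕ) : 0 < ph k :=
  prod_pos fun p hp => by have := (Nat.prime_of_mem_primeFactors hp).two_le; omega

theorem ph_mul {a b : ℕ} (h : a.Coprime b) : ph (a * b) = ph a * ph b := by
  unfold ph
  rw [h.primeFactors_mul, prod_union h.disjoint_primeFactors]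

theorem ph_prime {p : ℕ} (hp : p.Prime) : ph p = p - 1 := by
  unfold ph
  rw [hp.primeFactors, prod_singleton]

theorem ph_dvd {a b : ℕ} (hb : b ≠ 0) (h : a ∣ b) : ph a ∣ ph b :=
  prod_dvd_prod_of_subset _ _ _ (Nat.primeFactors_mono h hb)

theorem ph_le {k : ℕ} (hk : k ≠ 0) : ph k ≤ k := by
  refine le_trans (prod_le_prod' fun p _ => Nat.sub_le p 1) ?_
  exact Nat.le_of_dvd (Nat.pos_of_ne_zero hk) (Nat.prod_primeFactors_dvd k)

theorem le_two_ph_sq {d : ℕ} (hd : Squarefree d) : d ≤ 2 * ph d ^ 2 := by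
  have h1 : d = ∏ p ∈ d.primeFactors, p := (Nat.prod_primeFactors_of_squarefree hd).symm
  have h2 : ∀ p ∈ d.primeFactors, p ≤ (if p = 2 then 2 else 1) * (p - 1) ^ 2 := by
    intro p hp
    have := (Nat.prime_of_mem_primeFactors hp).two_le
    split_ifs with h
    · subst h; norm_num
    · obtain ⟨q, rfl⟩ : ∃ q, p = q + 3 := ⟨p - 3, by omega⟩
      have : q + 3 - 1 = q + 2 := by omega
      rw [this]; nlinarith
  calc d = ∏ p ∈ d.primeFactors, p := h1
    _ ≤ ∏ p ∈ d.primeFactors, (if p = 2 then 2 else 1) * (p - 1) ^ 2 := prod_le_prod' h2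
    _ = (∏ p ∈ d.primeFactors, if p = 2 then 2 else 1) * ph d ^ 2 := by
        rw [prod_mul_distrib, prod_pow]; rfl
    _ ≤ 2 * ph d ^ 2 := by
        refine Nat.mul_le_mul_right _ ?_
        rw [prod_ite_eq']
        split_ifs <;> omega

/-- The class of functions treated: multiplicative, `p - 1` at primes, between `0` and `n`. -/
structure Cls (f : ℕ → ℕ) : Prop where
  one : f 1 = 1
  mul : ∀ a b, a.Coprime b → f (a * b) = f a * f b
  prime : ∀ p, p.Prime → f p = p - 1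
  pos : ∀ n, 0 < n → 0 < f n
  lt : ∀ n, 1 < n → f n < n

theorem Cls.le {f : ℕ → ℕ} (hf : Cls f) {n : ℕ} (hn : 0 < n) : f n ≤ n := by
  rcases Nat.lt_or_ge 1 n with h | h
  · exact (hf.lt n h).le
  · obtain rfl : n = 1 := by omega
    rw [hf.one]

theorem Cls.sqfree {f : ℕ → ℕ} (hf : Cls f) {d : ℕ} (hd : Squarefree d) : f d = ph d := by
  have key : ∀ T : Finset ℕ, (∀ p ∈ T, p.Prime) → f (∏ p ∈ T, p) = ∏ p ∈ T, (p - 1) := by
    intro T
    induction T using Finset.induction_on with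
    | empty => intro _; simp [hf.one]
    | insert a s ha ih =>
      intro h
      have hpa := h a (mem_insert_self _ _)
      rw [prod_insert ha, prod_insert ha, hf.mul, hf.prime a hpa,
        ih fun p hp => h p (mem_insert_of_mem hp)]
      refine Nat.Coprime.prod_right fun p hp => ?_
      refine (Nat.coprime_primes hpa (h p (mem_insert_of_mem hp))).2 ?_
      rintro rfl
      exact ha hp
  have := key d.primeFactors fun p hp => Nat.prime_of_mem_primeFactors hp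
  rwa [Nat.prod_primeFactors_of_squarefree hd] at this

/-- a least divisor above `Z` -/
theorem exists_step {m : ℕ} {Z : ℝ} (hZ : 1 ≤ Z) (hm : Z < m) :
    ∃ p e : ℕ, p.Prime ∧ p * e ∣ m ∧ (e : ℝ) ≤ Z ∧ Z < (p * e : ℕ) := by
  classical
  have hex : ∃ d : ℕ, d ∣ m ∧ Z < (d : ℝ) := ⟨m, dvd_rfl, hm⟩
  obtain ⟨hd, hZd⟩ := Nat.find_spec hex
  have hmin := fun e (he : e < Nat.find hex) => Nat.find_min hex he
  set d := Nat.find hex with hdd
  have h1 : 1 < d := by exact_mod_cast hZ.trans_lt hZd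
  obtain ⟨p, hp, e, he⟩ := Nat.exists_prime_and_dvd (n := d) (by omega)
  refine ⟨p, e, hp, he ▸ hd, ?_, he ▸ hZd⟩
  have he0 : 0 < e := Nat.pos_of_ne_zero (by rintro rfl; omega)
  have hlt : e < d := by have := hp.two_le; nlinarith
  have := hmin e hlt
  push Not at this
  exact this ((Dvd.intro_left p he.symm).trans hd)

theorem exists_div {m : ℕ} {Z V : ℝ} (hZ : 1 ≤ Z) (hm : Z < m)
    (hV : ∀ p : ℕ, p.Prime → p ∣ m → (p : ℝ) ≤ V) : ∃ d : ℕ, d ∣ m ∧ Z < d ∧ (d : ℝ) ≤ Z * V := by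
  obtain ⟨p, e, hp, hd, he, hZ'⟩ := exists_step hZ hm
  refine ⟨p * e, hd, hZ', ?_⟩
  have := hV p hp ((dvd_mul_right p e).trans hd)
  push_cast
  rw [mul_comm]
  exact mul_le_mul he this (Nat.cast_nonneg _) (by linarith)

/-- submultiplicative pigeonhole over the divisors of a squarefree number -/
theorem pigeon {m : ℕ} (hm : Squarefree m) {U M : ℝ} (hU : 1 ≤ U) (hM : 1 ≤ M) (F : ℕ → ℝ)
    (F0 : ∀ d, 0 ≤ F d) (hF : ∀ a b, a.Coprime b → a * b ∣ m → F (a * b) ≤ F a * F b)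
    (hV : ∀ p : ℕ, p.Prime → p ∣ m → (p : ℝ) ≤ U) (hb : ∀ d : ℕ, d ∣ m → (d : ℝ) ≤ U → F d ≤ M)
    (t : ℕ) : ∀ d : ℕ, d ∣ m → (d : ℝ) ≤ U ^ t → F d ≤ M ^ (2 * t + 1) := by
  induction t with
  | zero => intro d hd h; simpa using hb d hd (by simpa using (by simpa using h : (d : ℝ) ≤ 1).trans hU)
  | succ t ih =>
    intro d hd h
    rcases le_or_gt (d : ℝ) U with h1 | h1
    · exact (hb d hd h1).trans (le_self_pow₀ hM (by omega))
    · obtain ⟨p, e, hp, ⟨c, hc⟩, he, hZ⟩ := exists_step hU h1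
      have hsq : Squarefree (p * e * c) := hc ▸ hm.squarefree_of_dvd hd
      have c1 : (p * e).Coprime c := Nat.coprime_of_squarefree_mul hsq
      have c2 : p.Coprime e := Nat.coprime_of_squarefree_mul (hsq.squarefree_of_dvd (dvd_mul_right _ _))
      have d1 : p * e * c ∣ m := hc ▸ hd
      have d2 : p * e ∣ m := (dvd_mul_right _ _).trans d1
      have d3 : c ∣ m := (dvd_mul_left _ _).trans d1
      have hc' : (c : ℝ) ≤ U ^ t := by
        have : ((p * e : ℕ) : ℝ) * c ≤ U * U ^ t := by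
          rw [← pow_succ', ← Nat.cast_mul, ← hc]; exact h
        by_contra hh
        push Not at hh
        have : U * U ^ t < ((p * e : ℕ) : ℝ) * c :=
          mul_lt_mul'' hZ hh (by linarith) (by positivity)
        linarith
      have k1 := hb p ((dvd_mul_right _ _).trans d2) (hV p hp ((dvd_mul_right _ _).trans d2))
      have k2 := hb e ((dvd_mul_left _ _).trans d2) he
      have k3 := ih c d3 hc'
      rw [hc]
      calc F (p * e * c) ≤ F (p * e) * F c := hF _ _ c1 d1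
        _ ≤ (F p * F e) * F c := mul_le_mul_of_nonneg_right (hF _ _ c2 d2) (F0 c)
        _ ≤ (M * M) * M ^ (2 * t + 1) :=
          mul_le_mul (mul_le_mul k1 k2 (F0 e) (by linarith)) k3 (F0 c) (by positivity)
        _ = M ^ (2 * (t + 1) + 1) := by ring

/-- numbers up to `X` in one class modulo `q` -/
theorem card_modEq (s : Finset ℕ) (X q : ℕ) (hs : ∀ n ∈ s, n ≤ X)
    (h : ∀ n ∈ s, ∀ n' ∈ s, n ≡ n' [MOD q]) : (s.card : ℝ) ≤ X / q + 1 := by
  have h1 : s.card ≤ (range (X / q + 1)).card := by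
    refine card_le_card_of_injOn (fun n => n / q) (fun n hn => ?_) fun n hn n' hn' e => ?_
    · have := Nat.div_le_div_right (c := q) (hs n hn)
      simp only [coe_range, Set.mem_Iio]; omega
    · have e1 : n % q = n' % q := h n hn n' hn'
      have e2 : n / q = n' / q := e
      rw [← Nat.div_add_mod n q, ← Nat.div_add_mod n' q, e1, e2]
  rw [card_range] at h1
  calc (s.card : ℝ) ≤ ((X / q + 1 : ℕ) : ℝ) := by exact_mod_cast h1
    _ ≤ X / q + 1 := by push_cast; linarith [Nat.cast_div_le (α := ℝ) (m := X) (n := q)]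

/-- positive multiples of `q` up to `X` -/
theorem card_dvd (s : Finset ℕ) (X q : ℕ) (hs : ∀ n ∈ s, 1 ≤ n ∧ n ≤ X ∧ q ∣ n) :
    (s.card : ℝ) ≤ X / q := by
  have h1 : s.card ≤ ((Ioc 0 X).filter (q ∣ ·)).card :=
    card_le_card fun n hn => by
      have := hs n hn
      simp only [mem_filter, mem_Ioc]; exact ⟨⟨by omega, this.2.1⟩, this.2.2⟩
  rw [Nat.Ioc_filter_dvd_card_eq_div] at h1
  calc (s.card : ℝ) ≤ ((X / q : ℕ) : ℝ) := by exact_mod_cast h1
    _ ≤ X / q := Nat.cast_div_le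

theorem sum_inj {α β : Type*} {s : Finset α} {t : Finset β} (e : α → β) {f : α → ℝ} {g : β → ℝ}
    (hinj : ∀ a ∈ s, ∀ a' ∈ s, e a = e a' → a = a') (hm : ∀ a ∈ s, e a ∈ t)
    (hle : ∀ a ∈ s, f a ≤ g (e a)) (g0 : ∀ b ∈ t, 0 ≤ g b) : ∑ a ∈ s, f a ≤ ∑ b ∈ t, g b := by
  classical
  calc ∑ a ∈ s, f a ≤ ∑ a ∈ s, g (e a) := sum_le_sum hle
    _ = ∑ b ∈ s.image e, g b := (sum_image hinj).symm
    _ ≤ ∑ b ∈ t, g b := sum_le_sum_of_subset_of_nonneg
        (fun b hb => by obtain ⟨a, ha, rfl⟩ := mem_image.1 hb; exact hm a ha) fun b hb _ => g0 b hb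

theorem harm (N : ℕ) : ∑ m ∈ Icc 1 N, (1 : ℝ) / m ≤ 1 + Real.log N := by
  refine le_trans (le_of_eq ?_) (harmonic_le_one_add_log N)
  simp [harmonic_eq_sum_Icc]

theorem harm' (s : Finset ℕ) (N : ℕ) (hs : s ⊆ Icc 1 N) :
    ∑ m ∈ s, (1 : ℝ) / m ≤ 1 + Real.log N :=
  (sum_le_sum_of_subset_of_nonneg hs fun _ _ _ => by positivity).trans (harm N)

end Pool.Agent.MP_35c637_nt

end MrgPart0

-- ======== part 1: formerly Pool.Agent.MP_35c637_nt.Rankin
section MrgPart1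

/-! Rankin type bounds. -/

set_option autoImplicit false

namespace Pool.Agent.MP_35c637_nt

open Finset

noncomputable section

/-- sum of reciprocals of the primes below `N` -/
def PI (N : ℕ) : ℝ := ∑ p ∈ N.primesBelow, (1 : ℝ) / p

theorem PI_nonneg (N : ℕ) : 0 ≤ PI N := sum_nonneg fun _ _ => by positivity

theorem PI_pow (J : ℕ) : PI (2 ^ (J + 1)) ≤ 4 * ∑ j ∈ Icc 1 J, (1 : ℝ) / j := by
  induction J with
  | zero => simp [PI]
  | succ J ih =>
    rw [sum_Icc_succ_top (by omega), mul_add]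
    set B := (2 ^ (J + 1 + 1) : ℕ).primesBelow.filter (fun p => 2 ^ (J + 1) ≤ p) with hB
    have hsplit : PI (2 ^ (J + 1 + 1)) = PI (2 ^ (J + 1)) + ∑ p ∈ B, (1 : ℝ) / p := by
      unfold PI
      rw [← sum_filter_add_sum_filter_not ((2 ^ (J + 1 + 1) : ℕ).primesBelow)
        (fun p => 2 ^ (J + 1) ≤ p), add_comm]
      congr 2
      ext p
      simp only [mem_filter, Nat.mem_primesBelow, not_le]
      constructor
      · rintro ⟨⟨_, h2⟩, h3⟩; exact ⟨h3, h2⟩
      · rintro ⟨h1, h2⟩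
        exact ⟨⟨h1.trans_le (Nat.pow_le_pow_right (by norm_num) (by omega)), h2⟩, h1⟩
    have hc : (J + 1) * B.card ≤ 2 * 2 ^ (J + 1 + 1) := by
      have h1 : (2 ^ (J + 1)) ^ B.card ≤ ∏ p ∈ B, p :=
        pow_card_le_prod B (fun p => p) _ fun p hp => (mem_filter.1 hp).2
      have h2 : ∏ p ∈ B, p ≤ primorial (2 ^ (J + 1 + 1)) := by
        unfold primorial
        refine prod_le_prod_of_subset_of_one_le' (fun p hp => ?_) fun p hp _ => ?_
        · have := Nat.mem_primesBelow.1 (mem_filter.1 hp).1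
          simp only [mem_filter, mem_range]
          exact ⟨by omega, this.2⟩
        · exact (mem_filter.1 hp).2.one_le
      have h3 := primorial_le_four_pow (2 ^ (J + 1 + 1))
      have h4 : 2 ^ ((J + 1) * B.card) ≤ 2 ^ (2 * 2 ^ (J + 1 + 1)) := by
        rw [pow_mul, pow_mul]
        exact h1.trans (h2.trans h3)
      exact (Nat.pow_le_pow_iff_right (by norm_num)).1 h4
    have h5 : ∑ p ∈ B, (1 : ℝ) / p ≤ B.card * (1 / 2 ^ (J + 1)) := by
      rw [← nsmul_eq_mul]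
      refine sum_le_card_nsmul _ _ _ fun p hp => ?_
      refine one_div_le_one_div_of_le (by positivity) ?_
      exact_mod_cast (mem_filter.1 hp).2
    have h6 : (B.card : ℝ) * (1 / 2 ^ (J + 1)) ≤ 4 * (1 / ((J + 1 : ℕ) : ℝ)) := by
      have : ((J + 1 : ℕ) : ℝ) * B.card ≤ 2 * 2 ^ (J + 1 + 1) := by exact_mod_cast hc
      rw [mul_one_div, mul_one_div, div_le_div_iff₀ (by positivity) (by positivity)]
      rw [pow_succ] at this
      linarith
    linarith

theorem natlog_le (N : ℕ) : (Nat.log 2 N : ℝ) ≤ 2 * Real.log N := by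
  rcases Nat.eq_zero_or_pos N with rfl | hN
  · simp
  have h1 : ((2 ^ Nat.log 2 N : ℕ) : ℝ) ≤ N := by exact_mod_cast Nat.pow_log_le_self 2 hN.ne'
  have h2 := Real.log_le_log (by positivity) h1
  push_cast at h2
  rw [Real.log_pow] at h2
  have := Real.log_two_gt_d9
  nlinarith [Nat.cast_nonneg (α := ℝ) (Nat.log 2 N)]

theorem PI_le (N : ℕ) : PI N ≤ 4 * (1 + Real.log (1 + 2 * Real.log N)) := by
  have h1 : PI N ≤ PI (2 ^ (Nat.log 2 N + 1)) := by
    refine sum_le_sum_of_subset_of_nonneg (fun p hp => ?_) fun _ _ _ => by positivity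
    rw [Nat.mem_primesBelow] at hp ⊢
    exact ⟨hp.1.trans (Nat.lt_pow_succ_log_self (by norm_num) N), hp.2⟩
  refine h1.trans ((PI_pow _).trans ?_)
  have h2 := harm (Nat.log 2 N)
  have h0 := Real.log_natCast_nonneg N
  have h3 : Real.log (Nat.log 2 N) ≤ Real.log (1 + 2 * Real.log N) := by
    rcases Nat.eq_zero_or_pos (Nat.log 2 N) with h | h
    · rw [h]; simp only [Nat.cast_zero, Real.log_zero]; exact Real.log_nonneg (by linarith)
    · exact Real.log_le_log (by exact_mod_cast h) (by linarith [natlog_le N])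
  linarith

/-- the bound for the Euler product over smooth numbers -/
def HH (y : ℕ) (s : ℝ) : ℝ := Real.exp (4 * (y : ℝ) ^ s * PI y)

theorem HH_pos (y : ℕ) (s : ℝ) : 0 < HH y s := Real.exp_pos _

theorem smooth_sum (y : ℕ) {s : ℝ} (s0 : 0 ≤ s) (s1 : s ≤ 1 / 2) (t : Finset ℕ)
    (ht : ∀ d ∈ t, d ∈ y.smoothNumbers) : ∑ d ∈ t, (d : ℝ) ^ (s - 1) ≤ HH y s := by
  let f : ℕ →* ℝ :=
    { toFun := fun d => (d : ℝ) ^ (s - 1)
      map_one' := by simp
      map_mul' := fun a b => by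
        push_cast; exact Real.mul_rpow (Nat.cast_nonneg _) (Nat.cast_nonneg _) }
  have hp : ∀ p : ℕ, p.Prime → (p : ℝ) ^ (s - 1) ≤ 3 / 4 := by
    intro p hp
    have h2 : (2 : ℝ) ≤ p := by exact_mod_cast hp.two_le
    have h3 : (p : ℝ) ^ (s - 1) ≤ (p : ℝ) ^ (-(1 / 2) : ℝ) :=
      Real.rpow_le_rpow_of_exponent_le (by linarith) (by linarith)
    have h4 : (p : ℝ) ^ (-(1 / 2) : ℝ) ≤ (2 : ℝ) ^ (-(1 / 2) : ℝ) :=
      Real.rpow_le_rpow_of_nonpos (by norm_num) h2 (by norm_num)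
    have h5 : (2 : ℝ) ^ (-(1 / 2) : ℝ) ≤ 3 / 4 := by
      have e : ((2 : ℝ) ^ (-(1 / 2) : ℝ)) ^ 2 = 1 / 2 := by
        rw [← Real.rpow_natCast, ← Real.rpow_mul (by norm_num)]; norm_num
      nlinarith [Real.rpow_pos_of_pos (show (0 : ℝ) < 2 by norm_num) (-(1 / 2) : ℝ)]
    linarith
  have hs := (EulerProduct.summable_and_hasSum_smoothNumbers_prod_primesBelow_geometric (f := f)
    (fun {p} h => by
      have : (0 : ℝ) ≤ (p : ℝ) ^ (s - 1) := by positivity
      show ‖(p : ℝ) ^ (s - 1)‖ < 1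
      rw [Real.norm_of_nonneg this]; linarith [hp p h]) y).2
  have h1 : ∑ d ∈ t, (d : ℝ) ^ (s - 1) ≤ ∏ p ∈ y.primesBelow, (1 - f p)⁻¹ := by
    have h2 := sum_le_hasSum (t.subtype (· ∈ y.smoothNumbers))
      (fun d _ => by show (0 : ℝ) ≤ ((d : ℕ) : ℝ) ^ (s - 1); positivity) hs
    rwa [show ∑ d ∈ t.subtype (· ∈ y.smoothNumbers), f d = ∑ d ∈ t, (d : ℝ) ^ (s - 1) from
      sum_subtype_of_mem (fun d : ℕ => (d : ℝ) ^ (s - 1)) ht] at h2
  refine h1.trans ?_
  unfold HH PI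
  rw [mul_sum, Real.exp_sum]
  refine prod_le_prod (fun p hp' => ?_) fun p hp' => ?_
  · have := hp p (Nat.mem_primesBelow.1 hp').2
    exact inv_nonneg.2 (by show 0 ≤ 1 - (p : ℝ) ^ (s - 1); linarith)
  · obtain ⟨hlt, hpp⟩ := Nat.mem_primesBelow.1 hp'
    have h3 := hp p hpp
    have p0 : (0 : ℝ) < p := by exact_mod_cast hpp.pos
    have h4 : (p : ℝ) ^ (s - 1) ≤ (y : ℝ) ^ s * (1 / p) := by
      rw [Real.rpow_sub_one p0.ne', mul_one_div]
      exact div_le_div_of_nonneg_right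
        (Real.rpow_le_rpow p0.le (by exact_mod_cast hlt.le) s0) p0.le
    show (1 - (p : ℝ) ^ (s - 1))⁻¹ ≤ _
    have h5 : (0 : ℝ) ≤ (p : ℝ) ^ (s - 1) := by positivity
    set u := (p : ℝ) ^ (s - 1)
    have h6 : (1 - u)⁻¹ ≤ 4 * u + 1 := by
      rw [inv_le_iff_one_le_mul₀ (by linarith)]; nlinarith
    refine h6.trans ((Real.add_one_le_exp _).trans (Real.exp_le_exp.2 ?_))
    linarith

theorem sm_sum (y X : ℕ) {s σ : ℝ} (s0 : 0 ≤ s) (s1 : s ≤ 1 / 2) (hσ : 1 ≤ σ) :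
    ∑ k ∈ Icc 1 X, (sm y k : ℝ) ^ s * (k : ℝ) ^ (-σ) ≤
      HH y s * ∑ r ∈ Icc 1 X, (r : ℝ) ^ (-σ) := by
  classical
  set t := (Icc 1 X).filter (· ∈ y.smoothNumbers) with ht
  have h1 : ∑ k ∈ Icc 1 X, (sm y k : ℝ) ^ s * (k : ℝ) ^ (-σ) ≤
      ∑ z ∈ t ×ˢ Icc 1 X, (z.1 : ℝ) ^ (s - 1) * (z.2 : ℝ) ^ (-σ) := by
    refine sum_inj (fun k => (sm y k, ro y k)) (fun k hk k' hk' e => ?_)
      (fun k hk => ?_) (fun k hk => ?_) fun _ _ => by positivity
    · have h1 := (mem_Icc.1 hk).1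
      have h2 := (mem_Icc.1 hk').1
      rw [← sm_mul_ro y (show k ≠ 0 by omega), ← sm_mul_ro y (show k' ≠ 0 by omega),
        (Prod.mk.inj e).1, (Prod.mk.inj e).2]
    · obtain ⟨h1, h2⟩ := mem_Icc.1 hk
      have k0 : k ≠ 0 := by omega
      simp only [ht, mem_product, mem_filter, mem_Icc]
      exact ⟨⟨⟨sm_pos y k, (sm_le y k0).trans h2⟩, sm_mem y k⟩, ro_pos y k, (ro_le y k0).trans h2⟩
    · obtain ⟨h1, h2⟩ := mem_Icc.1 hk
      have k0 : k ≠ 0 := by omega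
      have e : (k : ℝ) = sm y k * ro y k := by exact_mod_cast (sm_mul_ro y k0).symm
      have a1 : (1 : ℝ) ≤ sm y k := by exact_mod_cast sm_pos y k
      conv_lhs => rw [e]
      rw [Real.mul_rpow (by positivity) (by positivity), ← mul_assoc,
        ← Real.rpow_add (by linarith)]
      exact mul_le_mul_of_nonneg_right
        (Real.rpow_le_rpow_of_exponent_le a1 (by linarith)) (by positivity)
  refine h1.trans ?_
  rw [sum_product' (f := fun (a b : ℕ) => (a : ℝ) ^ (s - 1) * (b : ℝ) ^ (-σ)), ← sum_mul_sum]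
  exact mul_le_mul_of_nonneg_right (smooth_sum y s0 s1 t fun d hd => (mem_filter.1 hd).2)
    (sum_nonneg fun _ _ => by positivity)

theorem zeta_le (X : ℕ) {τ : ℝ} (hτ : 0 < τ) :
    ∑ r ∈ Icc 1 X, (r : ℝ) ^ (-(1 + τ)) ≤ 1 + 1 / τ := by
  have key : ∀ n : ℕ, ∑ r ∈ Icc 1 (n + 1), (r : ℝ) ^ (-(1 + τ)) ≤
      1 + (1 - ((n + 1 : ℕ) : ℝ) ^ (-τ)) / τ := by
    intro n
    induction n with
    | zero => simp
    | succ n ih =>
      rw [sum_Icc_succ_top (by omega)]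
      set a : ℝ := ((n + 1 : ℕ) : ℝ) with ha
      set b : ℝ := ((n + 1 + 1 : ℕ) : ℝ) with hb
      have a0 : 0 < a := by positivity
      have b0 : 0 < b := by positivity
      have hab : b = a + 1 := by rw [ha, hb]; push_cast; ring
      have h1 : b ^ (-τ) * (1 + τ / b) ≤ a ^ (-τ) := by
        have h2 : Real.log a ≤ Real.log b - 1 / b := by
          have := Real.log_le_sub_one_of_pos (div_pos a0 b0)
          rw [Real.log_div a0.ne' b0.ne'] at this
          have e : a / b - 1 = -(1 / b) := by field_simp; linarith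
          linarith
        rw [Real.rpow_def_of_pos a0, Real.rpow_def_of_pos b0]
        calc Real.exp (Real.log b * -τ) * (1 + τ / b)
            ≤ Real.exp (Real.log b * -τ) * Real.exp (τ / b) :=
              mul_le_mul_of_nonneg_left (by linarith [Real.add_one_le_exp (τ / b)])
                (Real.exp_pos _).le
          _ ≤ _ := by
              rw [← Real.exp_add]
              refine Real.exp_le_exp.2 ?_
              have := mul_le_mul_of_nonneg_left h2 hτ.le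
              have e : τ / b = τ * (1 / b) := by ring
              nlinarith
      have h3 : b ^ (-(1 + τ)) = b ^ (-τ) / b := by
        rw [show -(1 + τ) = -τ - 1 by ring, Real.rpow_sub_one b0.ne']
      have h4 : b ^ (-τ) / b ≤ (a ^ (-τ) - b ^ (-τ)) / τ := by
        rw [le_div_iff₀ hτ]
        have e : b ^ (-τ) / b * τ = b ^ (-τ) * (τ / b) := by ring
        linarith
      have e : (1 - b ^ (-τ)) / τ = (1 - a ^ (-τ)) / τ + (a ^ (-τ) - b ^ (-τ)) / τ := by ring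
      linarith
  rcases X with _ | n
  · simp only [zero_lt_one, Icc_eq_empty_of_lt, sum_empty]; positivity
  · refine (key n).trans ?_
    have : (0 : ℝ) ≤ ((n + 1 : ℕ) : ℝ) ^ (-τ) := by positivity
    have := div_le_div_of_nonneg_right (show 1 - ((n + 1 : ℕ) : ℝ) ^ (-τ) ≤ 1 by linarith) hτ.le
    linarith

theorem sqfree_sum (X : ℕ) (t : Finset ℕ) (ht : ∀ k ∈ t, Squarefree k ∧ k ≤ X) (g : ℕ → ℝ)
    (g0 : ∀ p, 0 ≤ g p) :
    ∑ k ∈ t, ∏ p ∈ k.primeFactors, g p ≤ Real.exp (∑ p ∈ (X + 1).primesBelow, g p) := by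
  have h1 : ∑ k ∈ t, ∏ p ∈ k.primeFactors, g p ≤
      ∑ T ∈ (X + 1).primesBelow.powerset, ∏ p ∈ T, g p := by
    refine sum_inj (fun k => k.primeFactors) (fun k hk k' hk' e => ?_)
      (fun k hk => ?_) (fun k hk => le_rfl) fun _ _ => prod_nonneg fun p _ => g0 p
    · rw [← Nat.prod_primeFactors_of_squarefree (ht k hk).1,
        ← Nat.prod_primeFactors_of_squarefree (ht k' hk').1]
      exact congrArg (fun T : Finset ℕ => ∏ p ∈ T, p) e
    · rw [mem_powerset]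
      intro p hp
      rw [Nat.mem_primesBelow]
      exact ⟨Nat.lt_succ_of_le ((Nat.le_of_mem_primeFactors hp).trans (ht k hk).2),
        Nat.prime_of_mem_primeFactors hp⟩
  refine h1.trans ?_
  rw [← prod_one_add, Real.exp_sum]
  exact prod_le_prod (fun p _ => by linarith [g0 p]) fun p _ => by
    linarith [Real.add_one_le_exp (g p)]

theorem prime_shift (X : ℕ) (t : Finset ℕ) (ht : ∀ p ∈ t, p.Prime ∧ p ≤ X) (g h : ℕ → ℝ)
    (h0 : ∀ k, 0 ≤ h k) (hg : ∀ p ∈ t, g p ≤ h (p - 1)) :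
    ∑ p ∈ t, g p ≤ ∑ k ∈ Icc 1 X, h k := by
  refine sum_inj (fun p => p - 1) (fun p hp p' hp' e => ?_)
    (fun p hp => ?_) hg fun _ _ => h0 _
  · have h1 := (ht p hp).1.two_le
    have h2 := (ht p' hp').1.two_le
    have e' : p - 1 = p' - 1 := e
    omega
  · have h1 := (ht p hp).1.two_le
    have h2 := (ht p hp).2
    simp only [mem_Icc]
    omega

/-- squarefree numbers at least `Z` whose shifted prime product has rough part at most `Y` -/
def AA (y X : ℕ) (Y Z : ℝ) : Finset ℕ :=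
  (Icc 1 X).filter fun k => Squarefree k ∧ Z ≤ k ∧ (ro y (ph k) : ℝ) ≤ Y

theorem rankin (y X : ℕ) {Y Z s τ : ℝ} (hY : 0 ≤ Y) (hZ : 0 < Z) (s0 : 0 ≤ s) (s1 : s ≤ 1 / 2) (hτ : 0 < τ) :
    ∑ k ∈ AA y X Y Z, (1 : ℝ) / k ≤
      (Y / Z) ^ s * (X : ℝ) ^ τ * Real.exp (2 * (HH y s * (1 + 1 / τ))) := by
  set g : ℕ → ℝ := fun p => 2 * ((sm y (p - 1) : ℝ) ^ s * (p : ℝ) ^ (-(1 + τ))) with hg
  have h1 : ∀ k ∈ AA y X Y Z, (1 : ℝ) / k ≤
      (Y / Z) ^ s * (X : ℝ) ^ τ * ∏ p ∈ k.primeFactors, g p := by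
    intro k hk
    obtain ⟨hk1, hsq, hZk, hr⟩ := mem_filter.1 hk
    obtain ⟨k1, kX⟩ := mem_Icc.1 hk1
    have k0 : (0 : ℝ) < k := by exact_mod_cast k1
    have e1 : (k : ℝ) = ∏ p ∈ k.primeFactors, (p : ℝ) := by
      rw [← Nat.cast_prod, Nat.prod_primeFactors_of_squarefree hsq]
    have e2 : ro y (ph k) = ∏ p ∈ k.primeFactors, ro y (p - 1) :=
      ro_prod y _ _ fun p hp => by have := (Nat.prime_of_mem_primeFactors hp).two_le; omega
    set S : ℝ := ∏ p ∈ k.primeFactors, (2 * (sm y (p - 1) : ℝ)) with hS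
    have S0 : 0 ≤ S := prod_nonneg fun _ _ => by positivity
    have h2 : (k : ℝ) ≤ S * ro y (ph k) := by
      rw [e2, Nat.cast_prod, hS, ← prod_mul_distrib]
      conv_lhs => rw [e1]
      refine prod_le_prod (fun _ _ => by positivity) fun p hp => ?_
      have h2 := (Nat.prime_of_mem_primeFactors hp).two_le
      have h3 := sm_mul_ro y (show p - 1 ≠ 0 by omega)
      have h4 : p ≤ 2 * (sm y (p - 1) * ro y (p - 1)) := by omega
      rw [mul_assoc]
      exact_mod_cast h4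
    have h3 : 1 ≤ Y / Z * S := by
      rw [div_mul_eq_mul_div, le_div_iff₀ hZ]
      nlinarith [mul_le_mul_of_nonneg_left hr S0]
    have h4 : 1 ≤ (Y / Z) ^ s * ∏ p ∈ k.primeFactors, (2 * (sm y (p - 1) : ℝ) ^ s) := by
      have h5 := Real.one_le_rpow h3 s0
      rw [Real.mul_rpow (by positivity) S0, hS,
        ← Real.finsetProd_rpow _ _ (fun _ _ => by positivity)] at h5
      refine h5.trans (mul_le_mul_of_nonneg_left
        (prod_le_prod (fun _ _ => by positivity) fun p _ => ?_) (by positivity))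
      rw [Real.mul_rpow (by norm_num) (by positivity)]
      refine mul_le_mul_of_nonneg_right ?_ (by positivity)
      simpa using Real.rpow_le_rpow_of_exponent_le (show (1 : ℝ) ≤ 2 by norm_num)
        (show s ≤ 1 by linarith)
    have h5 : (1 : ℝ) / k ≤ (X : ℝ) ^ τ * ∏ p ∈ k.primeFactors, (p : ℝ) ^ (-(1 + τ)) := by
      rw [Real.finsetProd_rpow _ _ (fun _ _ => by positivity), ← e1]
      have e3 : (1 : ℝ) / k = (k : ℝ) ^ τ * (k : ℝ) ^ (-(1 + τ)) := by
        rw [← Real.rpow_add k0, show τ + -(1 + τ) = -1 by ring, Real.rpow_neg_one, one_div]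
      rw [e3]
      exact mul_le_mul_of_nonneg_right
        (Real.rpow_le_rpow k0.le (by exact_mod_cast kX) hτ.le) (by positivity)
    have e4 : ∏ p ∈ k.primeFactors, g p = (∏ p ∈ k.primeFactors, (2 * (sm y (p - 1) : ℝ) ^ s)) *
        ∏ p ∈ k.primeFactors, (p : ℝ) ^ (-(1 + τ)) := by
      rw [← prod_mul_distrib]
      exact prod_congr rfl fun p _ => by rw [hg]; ring
    rw [e4]
    calc (1 : ℝ) / k = 1 * (1 / k) := by ring
      _ ≤ ((Y / Z) ^ s * ∏ p ∈ k.primeFactors, (2 * (sm y (p - 1) : ℝ) ^ s)) *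
          ((X : ℝ) ^ τ * ∏ p ∈ k.primeFactors, (p : ℝ) ^ (-(1 + τ))) :=
        mul_le_mul h4 h5 (by positivity) (by linarith)
      _ = _ := by ring
  refine (sum_le_sum h1).trans ?_
  rw [← mul_sum]
  refine mul_le_mul_of_nonneg_left ?_ (by positivity)
  refine (sqfree_sum X _ (fun k hk => ⟨(mem_filter.1 hk).2.1, (mem_Icc.1 (mem_filter.1 hk).1).2⟩) g
    fun p => by positivity).trans (Real.exp_le_exp.2 ?_)
  have h6 := prime_shift X (X + 1).primesBelow
    (fun p hp => ⟨(Nat.mem_primesBelow.1 hp).2, Nat.le_of_lt_succ (Nat.mem_primesBelow.1 hp).1⟩)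
    g (fun k => 2 * ((sm y k : ℝ) ^ s * (k : ℝ) ^ (-(1 + τ)))) (fun _ => by positivity)
    fun p hp => by
      have h2 := (Nat.mem_primesBelow.1 hp).2.two_le
      refine mul_le_mul_of_nonneg_left (mul_le_mul_of_nonneg_left ?_ (by positivity)) (by norm_num)
      exact Real.rpow_le_rpow_of_nonpos (by exact_mod_cast (show 0 < p - 1 by omega))
        (by exact_mod_cast Nat.sub_le p 1) (by linarith)
  refine h6.trans ?_
  rw [← mul_sum]
  refine mul_le_mul_of_nonneg_left ((sm_sum y X s0 s1 (by linarith)).trans ?_) (by norm_num)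
  exact mul_le_mul_of_nonneg_left (zeta_le X hτ) (HH_pos y s).le

theorem big_prime (y X : ℕ) {Y V s : ℝ} (hY : 0 ≤ Y) (hV : 0 < V) (s0 : 0 ≤ s) (s1 : s ≤ 1 / 2)
    (t : Finset ℕ) (ht : ∀ p ∈ t, p.Prime ∧ p ≤ X ∧ V < p ∧ (ro y (p - 1) : ℝ) ≤ Y) :
    ∑ p ∈ t, (1 : ℝ) / p ≤ (2 * Y / V) ^ s * (HH y s * (1 + Real.log X)) := by
  have h1 := prime_shift X t (fun p hp => ⟨(ht p hp).1, (ht p hp).2.1⟩) (fun p => (1 : ℝ) / p)
    (fun k => (2 * Y / V) ^ s * ((sm y k : ℝ) ^ s * (k : ℝ) ^ (-(1 : ℝ)))) (fun _ => by positivity)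
    fun p hp => by
      obtain ⟨hp, -, hVp, hr⟩ := ht p hp
      have h2 := hp.two_le
      have h3 := sm_mul_ro y (show p - 1 ≠ 0 by omega)
      have h4 : p ≤ 2 * (sm y (p - 1) * ro y (p - 1)) := by omega
      have h5 : (p : ℝ) ≤ 2 * (sm y (p - 1) * ro y (p - 1)) := by exact_mod_cast h4
      have h6 : 1 ≤ 2 * Y / V * sm y (p - 1) := by
        rw [div_mul_eq_mul_div, le_div_iff₀ hV]
        nlinarith [mul_le_mul_of_nonneg_left hr (Nat.cast_nonneg (α := ℝ) (sm y (p - 1)))]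
      have h7 := Real.one_le_rpow h6 s0
      rw [Real.mul_rpow (by positivity) (by positivity)] at h7
      have h8 : (1 : ℝ) / p ≤ ((p - 1 : ℕ) : ℝ) ^ (-(1 : ℝ)) := by
        rw [Real.rpow_neg_one, ← one_div]
        exact one_div_le_one_div_of_le (by exact_mod_cast (show 0 < p - 1 by omega))
          (by exact_mod_cast Nat.sub_le p 1)
      calc (1 : ℝ) / p = 1 * (1 / p) := by ring
        _ ≤ _ := mul_le_mul h7 h8 (by positivity) (by linarith)
        _ = _ := by ring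
  refine h1.trans ?_
  rw [← mul_sum]
  refine mul_le_mul_of_nonneg_left ((sm_sum y X s0 s1 le_rfl).trans ?_) (by positivity)
  refine mul_le_mul_of_nonneg_left (le_trans (le_of_eq ?_) (harm X)) (HH_pos y s).le
  exact sum_congr rfl fun r _ => by rw [Real.rpow_neg_one, one_div]

theorem div_sum_list {y : ℕ} (hy : 1 ≤ y) {b : ℝ} (hb : 0 ≤ b) (l : List ℕ)
    (hl : ∀ p ∈ l, p.Prime ∧ y ≤ p) :
    ∑ e ∈ l.prod.divisors, (e : ℝ) ^ (-b) ≤ (1 + (y : ℝ) ^ (-b)) ^ l.length ∧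
      2 ^ l.length ≤ l.prod := by
  induction l with
  | nil => simp
  | cons q l ih =>
    obtain ⟨h1, h2⟩ := ih fun p hp => hl p (List.mem_cons_of_mem _ hp)
    obtain ⟨hq, hyq⟩ := hl q List.mem_cons_self
    rw [List.prod_cons, List.length_cons]
    refine ⟨?_, by rw [pow_succ']; exact Nat.mul_le_mul hq.two_le h2⟩
    have hsub : (q * l.prod).divisors ⊆ l.prod.divisors ∪ l.prod.divisors.image (q * ·) := by
      intro e he
      obtain ⟨hd, h0⟩ := Nat.mem_divisors.1 he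
      have l0 : l.prod ≠ 0 := right_ne_zero_of_mul h0
      by_cases hqe : q ∣ e
      · obtain ⟨c, rfl⟩ := hqe
        exact mem_union_right _ (mem_image.2 ⟨c, Nat.mem_divisors.2
          ⟨Nat.dvd_of_mul_dvd_mul_left hq.pos hd, l0⟩, rfl⟩)
      · exact mem_union_left _ (Nat.mem_divisors.2
          ⟨((Nat.Prime.coprime_iff_not_dvd hq).2 hqe).symm.dvd_of_dvd_mul_left hd, l0⟩)
    have h3 : ∑ e ∈ l.prod.divisors.image (q * ·), (e : ℝ) ^ (-b) =
        (q : ℝ) ^ (-b) * ∑ e ∈ l.prod.divisors, (e : ℝ) ^ (-b) := by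
      rw [sum_image fun a _ c _ h => Nat.eq_of_mul_eq_mul_left hq.pos h, mul_sum]
      exact sum_congr rfl fun e _ => by
        push_cast; exact Real.mul_rpow (by positivity) (by positivity)
    have h4 : (q : ℝ) ^ (-b) ≤ (y : ℝ) ^ (-b) :=
      Real.rpow_le_rpow_of_nonpos (by exact_mod_cast hy) (by exact_mod_cast hyq) (by linarith)
    have h5 : 0 ≤ ∑ e ∈ l.prod.divisors, (e : ℝ) ^ (-b) := sum_nonneg fun _ _ => by positivity
    calc ∑ e ∈ (q * l.prod).divisors, (e : ℝ) ^ (-b)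
        ≤ ∑ e ∈ l.prod.divisors ∪ l.prod.divisors.image (q * ·), (e : ℝ) ^ (-b) :=
          sum_le_sum_of_subset_of_nonneg hsub fun _ _ _ => by positivity
      _ ≤ ∑ e ∈ l.prod.divisors, (e : ℝ) ^ (-b) +
          ∑ e ∈ l.prod.divisors.image (q * ·), (e : ℝ) ^ (-b) := by
          rw [← sum_union_inter]
          exact le_add_of_nonneg_right (sum_nonneg fun _ _ => by positivity)
      _ ≤ (1 + (y : ℝ) ^ (-b)) * ∑ e ∈ l.prod.divisors, (e : ℝ) ^ (-b) := by
          rw [h3]; nlinarith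
      _ ≤ (1 + (y : ℝ) ^ (-b)) * (1 + (y : ℝ) ^ (-b)) ^ l.length :=
          mul_le_mul_of_nonneg_left h1 (by positivity)
      _ = _ := by ring

theorem div_sum {y X j : ℕ} (hy : 1 ≤ y) {b : ℝ} (hb : 0 ≤ b) (hX : ro y j ≤ X)
    (h : 2 * Real.log X * (y : ℝ) ^ (-b) ≤ 1) :
    ∑ e ∈ (ro y j).divisors.erase 1, (e : ℝ) ^ (-b) ≤ 4 * Real.log X * (y : ℝ) ^ (-b) := by
  obtain ⟨h1, h2⟩ := div_sum_list hy hb (j.primeFactorsList.filter (fun p => ¬ p < y))
    fun p hp => by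
      obtain ⟨h1, h2⟩ := List.mem_filter.1 hp
      exact ⟨Nat.prime_of_mem_primeFactorsList h1, by simpa using h2⟩
  set n := (j.primeFactorsList.filter (fun p => ¬ p < y)).length
  change ∑ e ∈ (ro y j).divisors, (e : ℝ) ^ (-b) ≤ _ at h1
  change _ ≤ ro y j at h2
  have h3 : (n : ℝ) ≤ 2 * Real.log X := by
    refine le_trans ?_ (natlog_le X)
    exact_mod_cast Nat.le_log_of_pow_le (by norm_num) (h2.trans hX)
  rw [← add_sum_erase _ _ (Nat.one_mem_divisors.2 (ro_pos y j).ne')] at h1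
  simp only [Nat.cast_one, Real.one_rpow] at h1
  have u0 : 0 ≤ (y : ℝ) ^ (-b) := by positivity
  set u := (y : ℝ) ^ (-b)
  have h4 : (1 + u) ^ n ≤ Real.exp (n * u) := by
    rw [Real.exp_nat_mul]
    exact pow_le_pow_left₀ (by positivity) (by linarith [Real.add_one_le_exp u]) n
  have h5 : (n : ℝ) * u ≤ 2 * Real.log X * u := mul_le_mul_of_nonneg_right h3 u0
  have h6 := Real.abs_exp_sub_one_le (x := n * u) (by
    rw [abs_of_nonneg (by positivity)]; linarith)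
  rw [abs_of_nonneg (show 0 ≤ (n : ℝ) * u by positivity)] at h6
  have := le_abs_self (Real.exp (n * u) - 1)
  linarith

theorem gcd_prod_le (M : ℕ) (hM : 0 < M) (T : Finset ℕ) (g : ℕ → ℕ) :
    Nat.gcd M (∏ p ∈ T, g p) ≤ ∏ p ∈ T, Nat.gcd M (g p) := by
  induction T using Finset.induction_on with
  | empty => simp
  | insert a s ha ih =>
    rw [prod_insert ha, prod_insert ha]
    refine le_trans (Nat.le_of_dvd ?_ (Nat.gcd_mul_right_dvd_mul_gcd M _ _))
      (Nat.mul_le_mul_left _ ih)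
    exact Nat.mul_pos (Nat.gcd_pos_of_pos_left _ hM) (Nat.gcd_pos_of_pos_left _ hM)

theorem gcd_sum {y X j : ℕ} (hy : 1 ≤ y) {γ : ℝ} (g0 : 0 ≤ γ) (g1 : γ ≤ 1) (hX : ro y j ≤ X)
    (h : 2 * Real.log X * (y : ℝ) ^ (-(1 - γ)) ≤ 1) (t : Finset ℕ)
    (ht : ∀ k ∈ t, Squarefree k ∧ k ≤ X) :
    ∑ k ∈ t, (Nat.gcd (ro y j) (ph k) : ℝ) ^ γ / k ≤
      Real.exp (PI (X + 1) + (1 + Real.log X) * (4 * Real.log X * (y : ℝ) ^ (-(1 - γ)))) := by
  set M := ro y j with hM
  have M0 : 0 < M := ro_pos y j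
  have h1 : ∀ k ∈ t, (Nat.gcd M (ph k) : ℝ) ^ γ / k ≤
      ∏ p ∈ k.primeFactors, ((Nat.gcd M (p - 1) : ℝ) ^ γ / p) := by
    intro k hk
    rw [prod_div_distrib, ← Nat.cast_prod, Nat.prod_primeFactors_of_squarefree (ht k hk).1,
      Real.finsetProd_rpow _ _ (fun _ _ => by positivity)]
    refine div_le_div_of_nonneg_right (Real.rpow_le_rpow (by positivity) ?_ g0) (by positivity)
    exact_mod_cast gcd_prod_le M M0 _ _
  refine (sum_le_sum h1).trans ((sqfree_sum X t ht _ fun p => by positivity).trans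
    (Real.exp_le_exp.2 ?_))
  have h2 : ∀ p ∈ (X + 1).primesBelow, (Nat.gcd M (p - 1) : ℝ) ^ γ / p ≤ 1 / p +
      ∑ e ∈ M.divisors.erase 1, if e ∣ p - 1 then (e : ℝ) ^ γ / p else 0 := by
    intro p _
    have h3 : 0 ≤ ∑ e ∈ M.divisors.erase 1, if e ∣ p - 1 then (e : ℝ) ^ γ / p else 0 :=
      sum_nonneg fun _ _ => by split_ifs <;> positivity
    by_cases hg : Nat.gcd M (p - 1) = 1
    · rw [hg]; simp only [Nat.cast_one, Real.one_rpow]; linarith
    · have h4 := single_le_sum (f := fun e => if e ∣ p - 1 then (e : ℝ) ^ γ / p else 0)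
        (fun _ _ => by split_ifs <;> positivity)
        (mem_erase.2 ⟨hg, Nat.mem_divisors.2 ⟨Nat.gcd_dvd_left M (p - 1), M0.ne'⟩⟩)
      simp only [Nat.gcd_dvd_right, if_true] at h4
      have : (0 : ℝ) ≤ 1 / p := by positivity
      linarith
  refine (sum_le_sum h2).trans ?_
  rw [sum_add_distrib, sum_comm]
  refine add_le_add le_rfl ?_
  refine le_trans ?_ (mul_le_mul_of_nonneg_left (div_sum hy (by linarith) hX h)
    (by linarith [Real.log_natCast_nonneg X]))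
  rw [mul_sum]
  refine sum_le_sum fun e he => ?_
  have e0 : 0 < e := Nat.pos_of_mem_divisors (mem_of_mem_erase he)
  have e0' : (0 : ℝ) < e := by exact_mod_cast e0
  rw [← sum_filter]
  have h5 : ∑ p ∈ (X + 1).primesBelow.filter (fun p => e ∣ p - 1), (e : ℝ) ^ γ / p ≤
      ∑ i ∈ Icc 1 X, (e : ℝ) ^ (-(1 - γ)) * (1 / i) := by
    refine sum_inj (fun p => (p - 1) / e) (fun p hp p' hp' hh => ?_) (fun p hp => ?_)
      (fun p hp => ?_) fun _ _ => by positivity
    · obtain ⟨a1, a2⟩ := mem_filter.1 hp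
      obtain ⟨b1, b2⟩ := mem_filter.1 hp'
      have := (Nat.mem_primesBelow.1 a1).2.two_le
      have := (Nat.mem_primesBelow.1 b1).2.two_le
      have := (Nat.div_left_inj a2 b2).1 hh
      omega
    · obtain ⟨a1, a2⟩ := mem_filter.1 hp
      obtain ⟨a3, a4⟩ := Nat.mem_primesBelow.1 a1
      have := a4.two_le
      have := Nat.div_le_self (p - 1) e
      exact mem_Icc.2 ⟨Nat.div_pos (Nat.le_of_dvd (by omega) a2) e0, by omega⟩
    · obtain ⟨a1, i, hi⟩ := mem_filter.1 hp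
      have := (Nat.mem_primesBelow.1 a1).2.two_le
      have i0 : 0 < i := Nat.pos_of_ne_zero (by rintro rfl; omega)
      rw [hi, Nat.mul_div_cancel_left _ e0, show -(1 - γ) = γ - 1 by ring,
        Real.rpow_sub_one e0'.ne', div_mul_div_comm, mul_one]
      refine div_le_div_of_nonneg_left (by positivity) (by positivity) ?_
      exact_mod_cast (show e * i ≤ p by omega)
  refine h5.trans ?_
  rw [← mul_sum, mul_comm]
  exact mul_le_mul_of_nonneg_right (harm X) (by positivity)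

end

end Pool.Agent.MP_35c637_nt

end MrgPart1

-- ======== part 2: formerly Pool.Agent.MP_35c637_nt.Cases
section MrgPart2

/-! Counts of the exceptional sets. -/

set_option autoImplicit false

namespace Pool.Agent.MP_35c637_nt

open Finset

noncomputable section

theorem card_cover {ι : Type*} (S : Finset ℕ) (I : Finset ι) (P : ι → ℕ → Prop) (c : ι → ℝ)
    (h : ∀ n ∈ S, ∃ i ∈ I, P i n)
    (hc : ∀ i ∈ I, ∀ T : Finset ℕ, (∀ n ∈ T, n ∈ S ∧ P i n) → (T.card : ℝ) ≤ c i) :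
    (S.card : ℝ) ≤ ∑ i ∈ I, c i := by
  classical
  have h1 : S ⊆ I.biUnion fun i => S.filter (P i) := fun n hn => by
    obtain ⟨i, hi, hP⟩ := h n hn
    exact mem_biUnion.2 ⟨i, hi, mem_filter.2 ⟨hn, hP⟩⟩
  have h2 := (card_le_card h1).trans card_biUnion_le
  calc (S.card : ℝ) ≤ ∑ i ∈ I, ((S.filter (P i)).card : ℝ) := by exact_mod_cast h2
    _ ≤ _ := sum_le_sum fun i hi => hc i hi _ fun n hn => mem_filter.1 hn

theorem sq_case (X : ℕ) {a0 : ℝ} (h0 : 0 < a0) (S : Finset ℕ)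
    (hS : ∀ N ∈ S, 1 ≤ N ∧ N ≤ X ∧ ∃ a : ℕ, a0 < a ∧ a ^ 2 ∣ N) : (S.card : ℝ) ≤ 2 * X / a0 := by
  have h1 := card_cover S (Ioo ⌊a0⌋₊ (X + 1)) (fun a N => a ^ 2 ∣ N)
    (fun a => X * ((a : ℝ) ^ 2)⁻¹) (fun N hN => ?_) fun a _ T hT => ?_
  · refine h1.trans ?_
    rw [← mul_sum]
    refine (mul_le_mul_of_nonneg_left (sum_Ioo_inv_sq_le _ _) (Nat.cast_nonneg _)).trans ?_
    rw [mul_div_assoc', mul_comm]
    exact div_le_div_of_nonneg_left (by positivity) h0 (Nat.lt_floor_add_one a0).le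
  · obtain ⟨a1, a2, a, a3, a4⟩ := hS N hN
    refine ⟨a, mem_Ioo.2 ⟨(Nat.floor_lt h0.le).2 a3, ?_⟩, a4⟩
    have := Nat.le_of_dvd a1 ((dvd_pow_self a two_ne_zero).trans a4)
    omega
  · have := card_dvd T X (a ^ 2) fun n hn => ⟨(hS n (hT n hn).1).1, (hS n (hT n hn).1).2.1, (hT n hn).2⟩
    simpa [div_eq_mul_inv] using this

theorem prime_case (y X : ℕ) {Y V s : ℝ} (hY : 0 ≤ Y) (hV : 0 < V) (s0 : 0 ≤ s) (s1 : s ≤ 1 / 2)
    (S : Finset ℕ) (hS : ∀ N ∈ S, 1 ≤ N ∧ N ≤ X ∧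
      ∃ p : ℕ, p.Prime ∧ p ∣ N ∧ V < p ∧ (ro y (p - 1) : ℝ) ≤ Y) :
    (S.card : ℝ) ≤ X * ((2 * Y / V) ^ s * (HH y s * (1 + Real.log X))) := by
  have h1 := card_cover S ((Icc 1 X).filter fun p : ℕ => p.Prime ∧ V < p ∧ (ro y (p - 1) : ℝ) ≤ Y)
    (fun p N => p ∣ N) (fun p => X * ((1 : ℝ) / p)) (fun N hN => ?_) fun p _ T hT => ?_
  · refine h1.trans ?_
    rw [← mul_sum]
    refine mul_le_mul_of_nonneg_left (big_prime y X hY hV s0 s1 _ fun p hp => ?_) (Nat.cast_nonneg _)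
    obtain ⟨a1, a2, a3, a4⟩ := mem_filter.1 hp
    exact ⟨a2, (mem_Icc.1 a1).2, a3, a4⟩
  · obtain ⟨a1, a2, p, a3, a4, a5, a6⟩ := hS N hN
    exact ⟨p, mem_filter.2 ⟨mem_Icc.2 ⟨a3.pos, (Nat.le_of_dvd a1 a4).trans a2⟩, a3, a5, a6⟩, a4⟩
  · have := card_dvd T X p fun n hn => ⟨(hS n (hT n hn).1).1, (hS n (hT n hn).1).2.1, (hT n hn).2⟩
    rwa [mul_one_div]

theorem Cls.lin {f : ℕ → ℕ} (hf : Cls f) {k P : ℕ} (hP : P.Prime) (hc : k.Coprime P) :
    (k : ℤ) * f (k * P) = f k * ((k * P : ℕ) - k) := by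
  rw [hf.mul k P hc, hf.prime P hP]
  push_cast [Nat.cast_sub hP.one_le]
  ring

theorem Cls.eq_one {f : ℕ → ℕ} (hf : Cls f) {k : ℕ} (hk : 0 < k) (h : k ∣ f k) : k = 1 := by
  by_contra h1
  have := hf.lt k (by omega)
  have := Nat.le_of_dvd (hf.pos k hk) h
  omega

theorem caseA {f : ℕ → ℕ} (hf : Cls f) (X : ℕ) {R : ℝ} (R0 : 0 ≤ R) (S : Finset ℕ)
    (hS : ∀ n ∈ S, 1 ≤ n ∧ n + 1 ≤ X ∧ f n = f (n + 1) ∧ ∃ k k' P P' : ℕ, P.Prime ∧ P'.Prime ∧
      n = k * P ∧ n + 1 = k' * P' ∧ k.Coprime P ∧ k'.Coprime P' ∧ (k : ℝ) * k' ≤ R) :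
    (S.card : ℝ) ≤ R * (1 + Real.log X) := by
  have h1 := card_cover S (Icc 1 X) (fun k n => ∃ k' P P' : ℕ, P.Prime ∧ P'.Prime ∧
      n = k * P ∧ n + 1 = k' * P' ∧ k.Coprime P ∧ k'.Coprime P' ∧ (k : ℝ) * k' ≤ R)
    (fun k => R * ((1 : ℝ) / k)) (fun n hn => ?_) fun k hk T hT => ?_
  · refine h1.trans ?_
    rw [← mul_sum]
    exact mul_le_mul_of_nonneg_left (harm X) R0
  · obtain ⟨a1, a2, -, k, a3⟩ := hS n hn
    refine ⟨k, ?_, a3⟩
    obtain ⟨k', P, P', -, -, a4, -⟩ := a3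
    have := Nat.le_of_dvd a1 (Dvd.intro _ a4.symm)
    exact mem_Icc.2 ⟨Nat.pos_of_ne_zero (by rintro rfl; omega), by omega⟩
  · have k0 : 0 < k := (mem_Icc.1 hk).1
    have k0' : (0 : ℝ) < k := by exact_mod_cast k0
    choose! t1 k' P P' e1 e2 e3 e4 e5 e6 e7 using hT
    have p0 : ∀ n ∈ T, 0 < k' n := fun n hn =>
      Nat.pos_of_ne_zero fun h => by have := e4 n hn; rw [h] at this; omega
    have h2 : T.card ≤ (Icc 1 ⌊R / k⌋₊).card := by
      refine card_le_card_of_injOn k' (fun n hn => ?_) fun n hn m hm e => ?_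
      · refine mem_coe.2 (mem_Icc.2 ⟨p0 n hn, Nat.le_floor ?_⟩)
        rw [le_div_iff₀' k0']; exact e7 n hn
      by_contra hne
      have key : ∀ n ∈ T, (k' n : ℤ) * (f k * (n - k)) = k * (f (k' n) * (n + 1 - k' n)) := by
        intro n hn
        have b1 := hf.lin (e1 n hn) (e5 n hn)
        have b2 := hf.lin (e2 n hn) (e6 n hn)
        rw [← e3 n hn] at b1
        rw [← e4 n hn, ← (hS n (t1 n hn)).2.2.1] at b2
        push_cast at b2
        rw [← b1, ← b2]; ring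
      have b1 := key n hn
      have b2 := key m hm
      rw [← e] at b2
      have b3 : (k' n : ℤ) * f k = k * f (k' n) := by
        have hne' : (n : ℤ) - m ≠ 0 := sub_ne_zero.2 (by exact_mod_cast hne)
        refine mul_right_cancel₀ hne' ?_
        linear_combination b1 - b2
      have b4 : k' n * f k = k * f (k' n) := by exact_mod_cast b3
      have hc : k.Coprime (k' n) := by
        have c1 : Nat.Coprime n (n + 1) := by simp
        exact (c1.of_dvd_left (Dvd.intro _ (e3 n hn).symm)).of_dvd_right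
          (Dvd.intro _ (e4 n hn).symm)
      have c2 : k = 1 := hf.eq_one k0 (hc.dvd_of_dvd_mul_left ⟨_, b4⟩)
      have c3 : k' n = 1 := hf.eq_one (p0 n hn) (hc.symm.dvd_of_dvd_mul_left ⟨_, b4.symm⟩)
      rw [c3, c2, hf.one] at b1
      push_cast at b1
      omega
    rw [Nat.card_Icc, add_tsub_cancel_right] at h2
    rw [mul_one_div]
    exact le_trans (by exact_mod_cast h2) (Nat.floor_le (by positivity))

theorem le_gcd_mul {a b c : ℕ} (ha : 0 < a) (h : a ∣ b * c) : a ≤ Nat.gcd a b * Nat.gcd a c := by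
  refine Nat.le_of_dvd (Nat.mul_pos (Nat.gcd_pos_of_pos_left _ ha) (Nat.gcd_pos_of_pos_left _ ha)) ?_
  exact (Nat.dvd_gcd dvd_rfl h).trans (Nat.gcd_mul_right_dvd_mul_gcd a b c)

theorem caseB {f : ℕ → ℕ} (hf : Cls f) (X : ℕ) {c : ℤ} (hc : c = 1 ∨ c = -1) {K D0 D1 : ℝ}
    (K0 : 0 ≤ K) (D00 : 0 ≤ D0) (D10 : 0 ≤ D1) (hK : 8 * K ^ 6 * X ^ 2 ≤ D0 ^ 3) (S : Finset ℕ)
    (hS : ∀ N ∈ S, 2 ≤ N ∧ N ≤ X ∧ ∃ k d P t : ℕ, P.Prime ∧ k.Coprime P ∧ (N : ℤ) = k * P + c ∧
      f (k * P) = f N ∧ 0 < k ∧ (k : ℝ) ≤ K ∧ N = d * t ∧ d.Coprime t ∧ Squarefree d ∧ D0 < d ∧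
      (d : ℝ) ≤ D1) : (S.card : ℝ) ≤ K * D1 := by
  choose! s1 s2 k d P t e1 e2 e3 e4 e5 e6 e7 e8 e9 e10 e11 using hS
  have h2 : S.card ≤ (Icc 1 ⌊K⌋₊ ×ˢ Icc 1 ⌊D1⌋₊).card := by
    refine card_le_card_of_injOn (fun N => (k N, d N)) (fun N hN => ?_) fun N hN M hM e => ?_
    · simp only [coe_product, coe_Icc, Set.mem_prod, Set.mem_Icc]
      exact ⟨⟨e5 N hN, Nat.le_floor (e6 N hN)⟩, Nat.pos_of_ne_zero (e9 N hN).ne_zero,
        Nat.le_floor (e11 N hN)⟩
    obtain ⟨ek, ed⟩ := Prod.mk.inj e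
    have key : ∀ N ∈ S, (k N : ℤ) * f N = f (k N) * (N - (c + k N)) ∧
        (ph (d N) : ℤ) ∣ f (k N) * (N - (c + k N)) := by
      intro N hN
      have b1 := hf.lin (e1 N hN) (e2 N hN)
      rw [e4 N hN] at b1
      have b2 : (k N : ℤ) * f N = f (k N) * (N - (c + k N)) := by
        rw [b1, e3 N hN]; push_cast; ring
      refine ⟨b2, b2 ▸ Dvd.dvd.mul_left ?_ _⟩
      have b3 : f N = ph (d N) * f (t N) := by
        conv_lhs => rw [e7 N hN]
        rw [hf.mul _ _ (e8 N hN), hf.sqfree (e9 N hN)]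
      rw [b3]; push_cast; exact dvd_mul_right _ _
    obtain ⟨b1, b2⟩ := key N hN
    obtain ⟨-, b3⟩ := key M hM
    rw [← ek, ← ed] at b3
    have n1 := e7 N hN
    have n2 := e7 M hM
    rw [← ed] at n2
    have k0 := e5 N hN
    have kK := e6 N hN
    have sq := e9 N hN
    have d0 := e10 N hN
    generalize k N = k at *
    generalize d N = d at *
    by_contra hne
    have fk0 := hf.pos k k0
    have fk1 := hf.le k0
    have b0 : c + k ≠ 0 := by
      intro h0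
      obtain rfl : k = 1 := by omega
      rw [h0, hf.one] at b1
      have := hf.lt N (s1 N hN)
      omega
    have g1 : Nat.gcd (ph d) d ≤ 2 * k ^ 2 := by
      have c1 : (Nat.gcd (ph d) d : ℤ) ∣ f k * (N - (c + k)) :=
        (Int.natCast_dvd_natCast.2 (Nat.gcd_dvd_left _ _)).trans b2
      have c2 : (Nat.gcd (ph d) d : ℤ) ∣ f k * N :=
        Dvd.dvd.mul_left (Int.natCast_dvd_natCast.2
          ((Nat.gcd_dvd_right _ _).trans (Dvd.intro _ n1.symm))) _
      have c3 : (Nat.gcd (ph d) d : ℤ) ∣ f k * (c + k) := by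
        have := dvd_sub c2 c1
        rwa [show (f k : ℤ) * N - f k * (N - (c + k)) = f k * (c + k) by ring] at this
      have c4 : 0 < c + k := by omega
      have c5 := Int.le_of_dvd (by positivity) c3
      have c6 : (f k : ℤ) * (c + k) ≤ k * (2 * k) :=
        mul_le_mul (by exact_mod_cast fk1) (by omega) c4.le (by positivity)
      have : (Nat.gcd (ph d) d : ℤ) ≤ 2 * k ^ 2 := by nlinarith
      exact_mod_cast this
    set Δ := ((t N : ℤ) - t M).natAbs with hΔ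
    have t0 : (t N : ℤ) - t M ≠ 0 := fun h => hne (by
      have : t N = t M := by omega
      rw [n1, n2, this])
    have Δ0 : 0 < Δ := Int.natAbs_pos.2 t0
    have g2 : ph d ∣ f k * (d * Δ) := by
      have c1 := dvd_sub b2 b3
      have c2 : (f k : ℤ) * (N - (c + k)) - f k * (M - (c + k)) = f k * (d * (t N - t M)) := by
        have z1 : (N : ℤ) = d * t N := by exact_mod_cast n1
        have z2 : (M : ℤ) = d * t M := by exact_mod_cast n2
        linear_combination (f k : ℤ) * z1 - (f k : ℤ) * z2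
      rw [c2] at c1
      have := Int.natAbs_dvd_natAbs.2 c1
      simpa [Int.natAbs_mul] using this
    have g3 : ph d ≤ k * (2 * k ^ 2 * Δ) := by
      refine (le_gcd_mul (ph_pos d) g2).trans (Nat.mul_le_mul
        ((Nat.gcd_le_right _ fk0).trans fk1) ?_)
      refine (Nat.le_of_dvd (Nat.mul_pos (Nat.gcd_pos_of_pos_left _ (ph_pos d))
        (Nat.gcd_pos_of_pos_left _ (ph_pos d))) (Nat.gcd_mul_right_dvd_mul_gcd _ _ _)).trans ?_
      exact Nat.mul_le_mul g1 (Nat.gcd_le_right _ Δ0)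
    have g4 : d * Δ ≤ X := by
      have a1 := s2 N hN
      have a2 := s2 M hM
      rcases le_total (t N) (t M) with h | h
      · have : Δ ≤ t M := by omega
        exact (Nat.mul_le_mul_left d this).trans (n2 ▸ a2)
      · have : Δ ≤ t N := by omega
        exact (Nat.mul_le_mul_left d this).trans (n1 ▸ a1)
    have g5 : d * ph d ≤ 2 * k ^ 3 * X := by
      calc d * ph d ≤ d * (k * (2 * k ^ 2 * Δ)) := Nat.mul_le_mul_left _ g3
        _ = 2 * k ^ 3 * (d * Δ) := by ring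
        _ ≤ _ := Nat.mul_le_mul_left _ g4
    have g6 : d ^ 3 ≤ 8 * k ^ 6 * X ^ 2 := by
      calc d ^ 3 = d ^ 2 * d := by ring
        _ ≤ d ^ 2 * (2 * ph d ^ 2) := Nat.mul_le_mul_left _ (le_two_ph_sq sq)
        _ = 2 * (d * ph d) ^ 2 := by ring
        _ ≤ 2 * (2 * k ^ 3 * X) ^ 2 := Nat.mul_le_mul_left _ (Nat.pow_le_pow_left g5 2)
        _ = _ := by ring
    have g7 : (d : ℝ) ^ 3 ≤ 8 * k ^ 6 * X ^ 2 := by exact_mod_cast g6
    have g8 : D0 ^ 3 < (d : ℝ) ^ 3 := pow_lt_pow_left₀ d0 D00 (by norm_num)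
    have g9 : 8 * (k : ℝ) ^ 6 * X ^ 2 ≤ 8 * K ^ 6 * X ^ 2 := by gcongr
    linarith
  rw [card_product, Nat.card_Icc, Nat.card_Icc, add_tsub_cancel_right, add_tsub_cancel_right] at h2
  calc (S.card : ℝ) ≤ (⌊K⌋₊ : ℝ) * ⌊D1⌋₊ := by exact_mod_cast h2
    _ ≤ K * D1 := mul_le_mul (Nat.floor_le K0) (Nat.floor_le D10) (by positivity) K0

theorem caseC {y : ℕ} (hy : 1 ≤ y) (x : ℕ) {γ T G : ℝ} (g0 : 0 ≤ γ) (g1 : γ ≤ 1) (G0 : 0 < G)
    (hT : (x : ℝ) ≤ T) (h : 2 * Real.log (x + 1 : ℕ) * (y : ℝ) ^ (-(1 - γ)) ≤ 1) (S : Finset ℕ)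
    (hS : ∀ n ∈ S, 1 ≤ n ∧ n ≤ x ∧ ∃ d d' : ℕ, Squarefree d ∧ Squarefree d' ∧ d ∣ n ∧ d' ∣ n + 1 ∧
      (d : ℝ) * d' ≤ T ∧ G ≤ Nat.gcd (ro y (ph d)) (ph d')) :
    (S.card : ℝ) ≤ 2 * T / G ^ γ * ((1 + Real.log (x + 1 : ℕ)) *
      Real.exp (PI (x + 1 + 1) + (1 + Real.log (x + 1 : ℕ)) *
        (4 * Real.log (x + 1 : ℕ) * (y : ℝ) ^ (-(1 - γ))))) := by
  have T0 : 0 ≤ T := (Nat.cast_nonneg x).trans hT
  set U := (Icc 1 (x + 1)).filter Squarefree with hU
  have h1 := card_cover S (U ×ˢ U) (fun z n => z.1 ∣ n ∧ z.2 ∣ n + 1 ∧ (z.1 : ℝ) * z.2 ≤ T ∧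
      G ≤ Nat.gcd (ro y (ph z.1)) (ph z.2))
    (fun z => 2 * T / G ^ γ * (1 / z.1 * ((Nat.gcd (ro y (ph z.1)) (ph z.2) : ℝ) ^ γ / z.2)))
    (fun n hn => ?_) fun z hz W hW => ?_
  · refine h1.trans ?_
    rw [← mul_sum, sum_product]
    refine mul_le_mul_of_nonneg_left ?_ (by positivity)
    refine le_trans (sum_le_sum fun d hd => ?_) ((sum_mul _ _ _).symm.le.trans
      (mul_le_mul_of_nonneg_right (harm' U (x + 1) (filter_subset _ _)) (Real.exp_pos _).le))
    dsimp only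
    rw [← mul_sum]
    obtain ⟨a1, a2⟩ := mem_Icc.1 (mem_filter.1 hd).1
    refine mul_le_mul_of_nonneg_left (gcd_sum hy g0 g1
      ((ro_le y (ph_pos d).ne').trans ((ph_le (by omega)).trans a2)) h U fun k hk => ?_)
      (by positivity)
    exact ⟨(mem_filter.1 hk).2, (mem_Icc.1 (mem_filter.1 hk).1).2⟩
  · obtain ⟨a1, a2, d, d', a3, a4, a5, a6, a7⟩ := hS n hn
    have := Nat.le_of_dvd a1 a5
    have := Nat.le_of_dvd (by omega) a6
    refine ⟨(d, d'), mem_product.2 ⟨mem_filter.2 ⟨mem_Icc.2 ⟨Nat.pos_of_ne_zero a3.ne_zero,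
      by omega⟩, a3⟩, mem_filter.2 ⟨mem_Icc.2 ⟨Nat.pos_of_ne_zero a4.ne_zero, by omega⟩, a4⟩⟩,
      a5, a6, a7⟩
  · rcases W.eq_empty_or_nonempty with rfl | ⟨m, hm⟩
    · rw [card_empty, Nat.cast_zero]; positivity
    obtain ⟨-, b1, b2, b3, b4⟩ := hW m hm
    obtain ⟨z1, z2⟩ := mem_product.1 hz
    have d0 : (0 : ℝ) < z.1 := by exact_mod_cast (mem_Icc.1 (mem_filter.1 z1).1).1
    have d0' : (0 : ℝ) < z.2 := by exact_mod_cast (mem_Icc.1 (mem_filter.1 z2).1).1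
    have hc : z.1.Coprime z.2 := by
      have c1 : Nat.Coprime m (m + 1) := by simp
      exact (c1.of_dvd_left b1).of_dvd_right b2
    have h2 := card_modEq W x (z.1 * z.2) (fun n hn => (hS n (hW n hn).1).2.1) fun n hn n' hn' => by
      rw [← Nat.modEq_and_modEq_iff_modEq_mul hc]
      refine ⟨(Nat.modEq_zero_iff_dvd.2 (hW n hn).2.1).trans
        (Nat.modEq_zero_iff_dvd.2 (hW n' hn').2.1).symm, Nat.ModEq.add_right_cancel' 1 ?_⟩
      exact (Nat.modEq_zero_iff_dvd.2 (hW n hn).2.2.1).trans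
        (Nat.modEq_zero_iff_dvd.2 (hW n' hn').2.2.1).symm
    push_cast at h2
    have h3 : (x : ℝ) / (z.1 * z.2) + 1 ≤ 2 * T / (z.1 * z.2) := by
      rw [div_add_one (by positivity)]
      exact div_le_div_of_nonneg_right (by linarith) (by positivity)
    have h4 : G ^ γ ≤ (Nat.gcd (ro y (ph z.1)) (ph z.2) : ℝ) ^ γ := Real.rpow_le_rpow G0.le b4 g0
    have h5 : 0 < G ^ γ := by positivity
    calc (W.card : ℝ) ≤ 2 * T / (z.1 * z.2) := h2.trans h3
      _ = 2 * T / G ^ γ * (1 / z.1 * (G ^ γ / z.2)) := by field_simp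
      _ ≤ _ := by gcongr

end

end Pool.Agent.MP_35c637_nt

end MrgPart2

-- ======== part 3: formerly Pool.Agent.MP_35c637_nt.LSieve
section MrgPart3

/-! An additive large sieve inequality with a logarithmic loss. -/

set_option autoImplicit false

namespace Pool.Agent.MP_35c637_nt

open Finset ComplexConjugate

noncomputable section

/-- the additive character -/
def ee (t : ℝ) : ℂ := Complex.exp (Complex.I * ((2 * Real.pi * t : ℝ) : ℂ))

theorem ee_add (s t : ℝ) : ee (s + t) = ee s * ee t := by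
  unfold ee; rw [← Complex.exp_add]; congr 1; push_cast; ring

theorem ee_zero : ee 0 = 1 := by simp [ee]

theorem ee_int (r : ℤ) : ee r = 1 := by
  unfold ee
  rw [← Complex.exp_int_mul_two_pi_mul_I r]; congr 1; push_cast; ring

theorem ee_nat (r : ℕ) : ee r = 1 := by exact_mod_cast ee_int r

theorem norm_ee (t : ℝ) : ‖ee t‖ = 1 := by
  unfold ee; rw [mul_comm]; exact Complex.norm_exp_ofReal_mul_I _

theorem conj_ee (t : ℝ) : conj (ee t) = ee (-t) := by
  unfold ee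
  rw [← Complex.exp_conj, map_mul, Complex.conj_I, Complex.conj_ofReal]; congr 1; push_cast; ring

theorem ee_nat_mul (n : ℕ) (t : ℝ) : ee (n * t) = ee t ^ n := by
  unfold ee; rw [← Complex.exp_nat_mul]; congr 1; push_cast; ring

theorem ee_sub_int (t : ℝ) (r : ℤ) : ee (t - r) = ee t := by
  rw [sub_eq_add_neg, ee_add, ← Int.cast_neg, ee_int, mul_one]

theorem ee_sub_one {t : ℝ} (ht : |t| ≤ 1 / 2) : 4 * |t| ≤ ‖ee t - 1‖ := by
  unfold ee
  rw [Complex.norm_exp_I_mul_ofReal_sub_one, show 2 * Real.pi * t / 2 = Real.pi * t by ring,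
    Real.norm_eq_abs, abs_mul, abs_two]
  have hp := Real.pi_pos
  have h := Real.mul_abs_le_abs_sin (x := Real.pi * t) (by
    rw [abs_mul, abs_of_pos hp]; nlinarith)
  rw [abs_mul, abs_of_pos hp, ← mul_assoc, div_mul_cancel₀ _ hp.ne'] at h
  linarith

theorem geo_le (A B : ℕ) (t : ℝ) (r : ℤ) (h0 : t - r ≠ 0) (ht : |t - r| ≤ 1 / 2) :
    ‖∑ n ∈ Ico A B, ee (n * t)‖ ≤ 1 / (2 * |t - r|) := by
  have p0 : 0 < |t - r| := abs_pos.2 h0
  rcases le_or_gt A B with hAB | hAB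
  · have h1 := geom_sum_Ico_mul (ee t) hAB
    have h2 : ‖∑ n ∈ Ico A B, ee t ^ n‖ * ‖ee t - 1‖ ≤ 2 := by
      rw [← norm_mul, h1]
      refine (norm_sub_le _ _).trans ?_
      rw [norm_pow, norm_pow, norm_ee]; norm_num
    have h3 := ee_sub_one ht
    rw [ee_sub_int] at h3
    simp_rw [ee_nat_mul]
    rw [le_div_iff₀ (by positivity)]
    nlinarith [mul_le_mul_of_nonneg_left h3 (norm_nonneg (∑ n ∈ Ico A B, ee t ^ n))]
  · rw [Ico_eq_empty_of_le hAB.le, sum_empty, norm_zero]; positivity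

theorem orth {d : ℕ} (hd : 0 < d) (k : ℤ) :
    ∑ h ∈ range d, ee (h * (k / d)) = if (d : ℤ) ∣ k then (d : ℂ) else 0 := by
  have d0 : (d : ℝ) ≠ 0 := by positivity
  split_ifs with hk
  · obtain ⟨c, rfl⟩ := hk
    have : ∀ h ∈ range d, ee (h * (((d * c : ℤ) : ℝ) / d)) = 1 := fun h _ => by
      rw [← ee_int (h * c)]; congr 1; push_cast; field_simp
    rw [sum_congr rfl this]; simp
  · simp_rw [ee_nat_mul]
    have h1 := geom_sum_mul (ee (k / d)) d
    rw [← ee_nat_mul, mul_div_cancel₀ _ d0, ee_int, sub_self] at h1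
    refine (mul_eq_zero.1 h1).resolve_right fun h2 => hk ?_
    have h3 := ee_sub_one (abs_sub_round ((k : ℝ) / d))
    rw [ee_sub_int, h2, norm_zero] at h3
    have h4 : (k : ℝ) / d - round ((k : ℝ) / d) = 0 :=
      abs_eq_zero.1 (le_antisymm (by linarith) (abs_nonneg _))
    refine ⟨round ((k : ℝ) / d), ?_⟩
    have : (k : ℝ) = d * round ((k : ℝ) / d) := by
      rw [← sub_eq_zero.1 h4]; field_simp
    exact_mod_cast this

variable {ι : Type*}

theorem spaced (J : Finset ι) (t : ι → ℝ) {K : ℕ} (hK : 1 ≤ K)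
    (h1 : ∀ j ∈ J, 1 / (K : ℝ) ≤ t j ∧ t j ≤ 1)
    (h2 : ∀ j ∈ J, ∀ l ∈ J, j ≠ l → 1 / (K : ℝ) ≤ |t j - t l|) :
    ∑ j ∈ J, 1 / (2 * t j) ≤ K / 2 * (1 + Real.log K) := by
  have K0 : (0 : ℝ) < K := by exact_mod_cast hK
  have h3 : ∀ j ∈ J, 1 ≤ K * t j := fun j hj => by
    have := (h1 j hj).1
    rwa [div_le_iff₀' K0] at this
  have h4 : ∑ j ∈ J, 1 / (2 * t j) ≤ ∑ k ∈ Icc 1 K, (K : ℝ) / 2 * (1 / k) := by
    refine sum_inj (fun j => ⌊K * t j⌋₊) (fun j hj l hl e => ?_) (fun j hj => ?_)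
      (fun j hj => ?_) fun _ _ => by positivity
    · by_contra hne
      have h5 := h2 j hj l hl hne
      rw [div_le_iff₀' K0, ← abs_of_pos K0, ← abs_mul, mul_sub] at h5
      have a1 := Nat.floor_le (show 0 ≤ K * t j by linarith [h3 j hj])
      have a2 := Nat.lt_floor_add_one (K * t j)
      have a3 := Nat.floor_le (show 0 ≤ K * t l by linarith [h3 l hl])
      have a4 := Nat.lt_floor_add_one (K * t l)
      have e' : ⌊K * t j⌋₊ = ⌊K * t l⌋₊ := e
      rw [e'] at a1 a2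
      have : |K * t j - K * t l| < 1 := abs_lt.2 ⟨by linarith, by linarith⟩
      linarith
    · refine mem_Icc.2 ⟨Nat.le_floor (by simpa using h3 j hj), Nat.floor_le_of_le ?_⟩
      nlinarith [(h1 j hj).2]
    · have a1 := Nat.floor_le (show 0 ≤ K * t j by linarith [h3 j hj])
      have a2 : (1 : ℝ) ≤ ⌊K * t j⌋₊ := by
        exact_mod_cast Nat.le_floor (show ((1 : ℕ) : ℝ) ≤ K * t j by simpa using h3 j hj)
      have t0 : 0 < t j := lt_of_lt_of_le (by positivity) (h1 j hj).1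
      rw [div_mul_div_comm, mul_one, div_le_div_iff₀ (by positivity) (by positivity)]
      nlinarith
  refine h4.trans ?_
  rw [← mul_sum]
  exact mul_le_mul_of_nonneg_left (harm K) (by positivity)

theorem row_sum [DecidableEq ι] (I : Finset ι) (θ : ι → ℝ) {K : ℕ} (hK : 1 ≤ K)
    (h : ∀ i ∈ I, ∀ j ∈ I, i ≠ j → ∀ r : ℤ, 1 / (K : ℝ) ≤ |θ i - θ j - r|) (N : ℕ) {i : ι}
    (hi : i ∈ I) :
    ∑ j ∈ I, ‖∑ n ∈ range N, ee (n * (θ i - θ j))‖ ≤ N + K * (1 + Real.log K) := by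
  have K0 : (0 : ℝ) < K := by exact_mod_cast hK
  rw [← add_sum_erase _ _ hi]
  refine add_le_add ?_ ?_
  · simp [ee_zero]
  set t : ι → ℝ := fun j => θ i - θ j - round (θ i - θ j) with ht
  have t1 : ∀ j ∈ I.erase i, 1 / (K : ℝ) ≤ |t j| := fun j hj =>
    h i hi j (mem_of_mem_erase hj) (ne_of_mem_erase hj).symm _
  have t2 : ∀ j, |t j| ≤ 1 / 2 := fun j => abs_sub_round _
  have t3 : ∀ j ∈ I.erase i, ∀ l ∈ I.erase i, j ≠ l → 1 / (K : ℝ) ≤ |t j - t l| := by
    intro j hj l hl hne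
    have := h l (mem_of_mem_erase hl) j (mem_of_mem_erase hj) hne.symm
      (round (θ i - θ j) - round (θ i - θ l))
    refine this.trans (le_of_eq ?_)
    congr 1
    simp only [ht]; push_cast; ring
  have h1 : ∑ j ∈ I.erase i, ‖∑ n ∈ range N, ee (n * (θ i - θ j))‖ ≤
      ∑ j ∈ I.erase i, 1 / (2 * |t j|) := by
    refine sum_le_sum fun j hj => ?_
    rw [range_eq_Ico]
    refine geo_le 0 N _ _ (fun h0 => ?_) (t2 j)
    have := t1 j hj
    rw [show t j = 0 from h0, abs_zero] at this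
    have : 0 < 1 / (K : ℝ) := by positivity
    linarith
  refine h1.trans ?_
  rw [← sum_filter_add_sum_filter_not _ (fun j => 0 ≤ t j)]
  have h2 := spaced ((I.erase i).filter fun j => 0 ≤ t j) (fun j => |t j|) hK
    (fun j hj => ⟨t1 j (mem_filter.1 hj).1, by linarith [t2 j]⟩) fun j hj l hl hne => by
      rw [abs_of_nonneg (mem_filter.1 hj).2, abs_of_nonneg (mem_filter.1 hl).2]
      exact t3 j (mem_filter.1 hj).1 l (mem_filter.1 hl).1 hne
  have h3 := spaced ((I.erase i).filter fun j => ¬ 0 ≤ t j) (fun j => |t j|) hK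
    (fun j hj => ⟨t1 j (mem_filter.1 hj).1, by linarith [t2 j]⟩) fun j hj l hl hne => by
      rw [abs_of_neg (not_le.1 (mem_filter.1 hj).2), abs_of_neg (not_le.1 (mem_filter.1 hl).2),
        show -t j - -t l = -(t j - t l) by ring, abs_neg]
      exact t3 j (mem_filter.1 hj).1 l (mem_filter.1 hl).1 hne
  linarith

theorem ls_dual [DecidableEq ι] (I : Finset ι) (θ : ι → ℝ) {K : ℕ} (hK : 1 ≤ K)
    (h : ∀ i ∈ I, ∀ j ∈ I, i ≠ j → ∀ r : ℤ, 1 / (K : ℝ) ≤ |θ i - θ j - r|) (N : ℕ) (b : ι → ℂ) :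
    ∑ n ∈ range N, ‖∑ i ∈ I, b i * ee (n * θ i)‖ ^ 2 ≤
      (N + K * (1 + Real.log K)) * ∑ i ∈ I, ‖b i‖ ^ 2 := by
  set D : ι → ι → ℂ := fun i j => ∑ n ∈ range N, ee (n * (θ i - θ j)) with hD
  have e : ((∑ n ∈ range N, ‖∑ i ∈ I, b i * ee (n * θ i)‖ ^ 2 : ℝ) : ℂ) =
      ∑ i ∈ I, ∑ j ∈ I, b i * conj (b j) * D i j := by
    push_cast
    simp_rw [← Complex.mul_conj', map_sum, sum_mul_sum, hD, mul_sum]
    rw [sum_comm]
    refine sum_congr rfl fun i _ => ?_
    rw [sum_comm]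
    refine sum_congr rfl fun j _ => sum_congr rfl fun n _ => ?_
    rw [map_mul, conj_ee, show (n : ℝ) * (θ i - θ j) = n * θ i + -(n * θ j) by ring, ee_add]
    ring
  have hs : ∀ i j, ‖D j i‖ = ‖D i j‖ := fun i j => by
    rw [← Complex.norm_conj, hD, map_sum]
    congr 1
    exact sum_congr rfl fun n _ => by rw [conj_ee]; congr 1; ring
  have h0 : 0 ≤ ∑ n ∈ range N, ‖∑ i ∈ I, b i * ee (n * θ i)‖ ^ 2 :=
    sum_nonneg fun _ _ => sq_nonneg _
  rw [← abs_of_nonneg h0, ← Real.norm_eq_abs, ← Complex.norm_real, e]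
  have h1 : ‖∑ i ∈ I, ∑ j ∈ I, b i * conj (b j) * D i j‖ ≤
      ∑ i ∈ I, ∑ j ∈ I, (‖b i‖ ^ 2 / 2 * ‖D i j‖ + ‖b j‖ ^ 2 / 2 * ‖D j i‖) := by
    refine (norm_sum_le _ _).trans (sum_le_sum fun i _ => (norm_sum_le _ _).trans
      (sum_le_sum fun j _ => ?_))
    rw [norm_mul, norm_mul, Complex.norm_conj, hs i j, ← add_mul]
    exact mul_le_mul_of_nonneg_right (by nlinarith [sq_nonneg (‖b i‖ - ‖b j‖)]) (norm_nonneg _)
  refine h1.trans ?_
  simp_rw [sum_add_distrib]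
  rw [sum_comm (f := fun i j => ‖b j‖ ^ 2 / 2 * ‖D j i‖), ← sum_add_distrib, mul_sum]
  refine sum_le_sum fun i hi => ?_
  rw [← mul_sum]
  have := mul_le_mul_of_nonneg_left (row_sum I θ hK h N hi) (sq_nonneg ‖b i‖)
  simp only [hD]
  linarith

theorem ls [DecidableEq ι] (I : Finset ι) (θ : ι → ℝ) {K : ℕ} (hK : 1 ≤ K)
    (h : ∀ i ∈ I, ∀ j ∈ I, i ≠ j → ∀ r : ℤ, 1 / (K : ℝ) ≤ |θ i - θ j - r|) (N : ℕ) (c : ℕ → ℂ) :
    ∑ i ∈ I, ‖∑ n ∈ range N, c n * ee (n * θ i)‖ ^ 2 ≤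
      (N + K * (1 + Real.log K)) * ∑ n ∈ range N, ‖c n‖ ^ 2 := by
  set B : ι → ℂ := fun i => ∑ n ∈ range N, c n * ee (n * θ i) with hB
  set T := ∑ i ∈ I, ‖B i‖ ^ 2 with hT
  have hT0 : 0 ≤ T := sum_nonneg fun _ _ => sq_nonneg _
  have e : (T : ℂ) = ∑ n ∈ range N, c n * ∑ i ∈ I, conj (B i) * ee (n * θ i) := by
    rw [hT]
    push_cast
    simp_rw [mul_sum]
    rw [sum_comm]
    refine sum_congr rfl fun i _ => ?_
    rw [← Complex.mul_conj']
    nth_rewrite 1 [hB]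
    rw [sum_mul]
    exact sum_congr rfl fun n _ => by ring
  have h1 : T ≤ ∑ n ∈ range N, ‖c n‖ * ‖∑ i ∈ I, conj (B i) * ee (n * θ i)‖ := by
    rw [← abs_of_nonneg hT0, ← Real.norm_eq_abs, ← Complex.norm_real, e]
    exact (norm_sum_le _ _).trans (le_of_eq (sum_congr rfl fun n _ => norm_mul _ _))
  have h2 := sum_mul_sq_le_sq_mul_sq (range N) (fun n => ‖c n‖)
    (fun n => ‖∑ i ∈ I, conj (B i) * ee (n * θ i)‖)
  have h3 := ls_dual I θ hK h N (fun i => conj (B i))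
  simp only [Complex.norm_conj] at h3
  have h4 : 0 ≤ ∑ n ∈ range N, ‖c n‖ ^ 2 := sum_nonneg fun _ _ => sq_nonneg _
  have h5 : T ^ 2 ≤ (∑ n ∈ range N, ‖c n‖ ^ 2) * ((N + K * (1 + Real.log K)) * T) :=
    (pow_le_pow_left₀ hT0 h1 2).trans (h2.trans (mul_le_mul_of_nonneg_left h3 h4))
  have h6 : 0 ≤ ((N : ℝ) + K * (1 + Real.log K)) * ∑ n ∈ range N, ‖c n‖ ^ 2 := by
    have := Real.log_natCast_nonneg K; positivity
  rcases hT0.eq_or_lt with h7 | h7
  · rw [← h7]; exact h6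
  · refine le_of_mul_le_mul_right ?_ h7
    nlinarith

/-- reduced fractions `b / q` with `0 ≤ b < q ≤ Q`, as pairs `(q, b)` -/
def Far (Q : ℕ) : Finset (ℕ × ℕ) :=
  (Icc 1 Q ×ˢ range Q).filter fun z => z.2 < z.1 ∧ z.2.Coprime z.1

theorem ls_far {Q : ℕ} (hQ : 1 ≤ Q) (N : ℕ) (c : ℕ → ℂ) :
    ∑ z ∈ Far Q, ‖∑ n ∈ range N, c n * ee (n * ((z.2 : ℝ) / z.1))‖ ^ 2 ≤
      (N + (Q : ℝ) ^ 2 * (1 + 2 * Real.log Q)) * ∑ n ∈ range N, ‖c n‖ ^ 2 := by
  have h := ls (Far Q) (fun z => (z.2 : ℝ) / z.1) (K := Q ^ 2) (Nat.one_le_pow _ _ hQ)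
    (fun z hz w hw hne r => ?_) N c
  · simpa using h
  obtain ⟨q, b⟩ := z
  obtain ⟨q', b'⟩ := w
  simp only [Far, mem_filter, mem_product, mem_Icc, mem_range] at hz hw
  obtain ⟨⟨⟨q1, q2⟩, -⟩, b1, b2⟩ := hz
  obtain ⟨⟨⟨q1', q2'⟩, -⟩, b1', b2'⟩ := hw
  have q0 : (0 : ℝ) < q := by exact_mod_cast q1
  have q0' : (0 : ℝ) < q' := by exact_mod_cast q1'
  set m : ℤ := b * q' - b' * q - r * (q * q') with hm
  have e : (b : ℝ) / q - b' / q' - r = m / (q * q') := by
    rw [hm]; push_cast; field_simp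
  have m0 : m ≠ 0 := by
    intro h0
    have d1 : (q : ℤ) ∣ b * q' := ⟨b' + r * q', by linarith⟩
    have d2 : (q' : ℤ) ∣ b' * q := ⟨b - r * q, by linarith⟩
    have d3 : q ∣ q' := b2.symm.dvd_of_dvd_mul_left (by exact_mod_cast d1)
    have d4 : q' ∣ q := b2'.symm.dvd_of_dvd_mul_left (by exact_mod_cast d2)
    obtain rfl := Nat.dvd_antisymm d3 d4
    have z0 : (0 : ℤ) < q := by exact_mod_cast q1
    have h5 : (b : ℤ) - b' = r * q := by
      refine mul_right_cancel₀ z0.ne' ?_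
      linarith
    have h6 : r = 0 := by
      have a1 : (b : ℤ) < q := by exact_mod_cast b1
      have a2 : (b' : ℤ) < q := by exact_mod_cast b1'
      have a3 : r < 1 := by by_contra hh; push Not at hh; nlinarith
      have a4 : -1 < r := by by_contra hh; push Not at hh; nlinarith
      omega
    refine hne ?_
    rw [h6] at h5
    have : b = b' := by omega
    rw [this]
  show 1 / ((Q ^ 2 : ℕ) : ℝ) ≤ |(b : ℝ) / q - b' / q' - r|
  rw [e, abs_div, abs_of_pos (mul_pos q0 q0')]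
  have m1 : (1 : ℝ) ≤ |(m : ℝ)| := by exact_mod_cast Int.one_le_abs m0
  refine div_le_div₀ (by positivity) m1 (by positivity) ?_
  push_cast
  rw [sq]
  exact mul_le_mul (by exact_mod_cast q2) (by exact_mod_cast q2') q0'.le (by positivity)

end

end Pool.Agent.MP_35c637_nt

end MrgPart3

-- ======== part 4: formerly Pool.Agent.MP_35c637_nt.Disp
section MrgPart4

/-! The dispersion bound for `d ∣ n₀ n₁ n₃ + 1`, first part: one modulus. -/

set_option autoImplicit false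

namespace Pool.Agent.MP_35c637_nt

open Finset ComplexConjugate

noncomputable section

/-- the oscillating part of the exponential sum at `h / d` -/
def FF (A : ℕ) (A1 : Finset ℕ) (d h : ℕ) : ℂ :=
  ∑ a ∈ A1.filter (fun a => ¬ d ∣ h * a), ∑ n ∈ Ico A (2 * A), ee (n * (a * ((h : ℝ) / d)))

theorem orth' {d : ℕ} (hd : 0 < d) (k : ℕ) :
    ∑ h ∈ range d, ee (h * ((k : ℝ) / d)) = if d ∣ k then (d : ℂ) else 0 := by
  have := orth hd (k : ℤ)
  simpa [Int.natCast_dvd_natCast] using this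

theorem one_root {d : ℕ} (a u : ℕ) (hu : u.Coprime d) :
    ((range d).filter fun k => d ∣ k * a + u).card ≤ 1 := by
  refine card_le_one.2 fun k hk l hl => ?_
  obtain ⟨k1, k2⟩ := mem_filter.1 hk
  obtain ⟨l1, l2⟩ := mem_filter.1 hl
  have hc : d.Coprime a := by
    have h1 : Nat.gcd d a ∣ u :=
      (Nat.dvd_add_right ((Nat.gcd_dvd_right d a).mul_left k)).1 ((Nat.gcd_dvd_left d a).trans k2)
    exact Nat.eq_one_of_dvd_coprimes hu h1 (Nat.gcd_dvd_left d a)
  have h2 : k * a + u ≡ l * a + u [MOD d] :=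
    ((Nat.modEq_zero_iff_dvd.2 k2).trans (Nat.modEq_zero_iff_dvd.2 l2).symm)
  have h3 : k ≡ l [MOD d] := Nat.ModEq.cancel_right_of_coprime hc (Nat.ModEq.add_right_cancel' u h2)
  exact Nat.ModEq.eq_of_lt_of_lt h3 (mem_range.1 k1) (mem_range.1 l1)

theorem ident (A : ℕ) (A1 : Finset ℕ) {d : ℕ} (hd : 0 < d) (u : ℕ) :
    (d : ℂ) * ∑ a ∈ A1, ∑ n ∈ Ico A (2 * A), (if d ∣ n * a + u then 1 else 0) =
      ∑ h ∈ range d, FF A A1 d h * ee (h * ((u : ℝ) / d)) +
        A * ∑ a ∈ A1, (((range d).filter fun k => d ∣ k * a + u).card : ℂ) := by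
  have d0 : (d : ℂ) ≠ 0 := by exact_mod_cast hd.ne'
  have d0' : (d : ℝ) ≠ 0 := by exact_mod_cast hd.ne'
  have e1 : ∀ n a : ℕ, (d : ℂ) * (if d ∣ n * a + u then 1 else 0) =
      ∑ h ∈ range d, ee (n * (a * ((h : ℝ) / d))) * ee (h * ((u : ℝ) / d)) := by
    intro n a
    rw [mul_ite, mul_one, mul_zero, ← orth' hd]
    refine sum_congr rfl fun h _ => ?_
    rw [← ee_add]; congr 1; push_cast; ring
  have e2 : ∀ a : ℕ, (((range d).filter fun k => d ∣ k * a + u).card : ℂ) =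
      ∑ h ∈ range d, (if d ∣ h * a then 1 else 0) * ee (h * ((u : ℝ) / d)) := by
    intro a
    refine mul_left_cancel₀ d0 ?_
    rw [card_filter, Nat.cast_sum, mul_sum, mul_sum]
    simp only [Nat.cast_ite, Nat.cast_one, Nat.cast_zero, e1]
    rw [sum_comm]
    refine sum_congr rfl fun h _ => ?_
    rw [← sum_mul, ← mul_assoc, mul_ite, mul_one, mul_zero, ← orth' hd]
    congr 1
    refine sum_congr rfl fun k _ => ?_
    congr 1; push_cast; ring
  simp only [mul_sum, e1, e2, FF, sum_filter, sum_mul]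
  rw [sum_comm (s := range d), ← sum_add_distrib]
  refine sum_congr rfl fun a _ => ?_
  rw [sum_comm, ← sum_add_distrib]
  refine sum_congr rfl fun h _ => ?_
  by_cases hh : d ∣ h * a
  · obtain ⟨c, hc⟩ := hh
    have e3 : ∀ n ∈ Ico A (2 * A), ee (n * (a * ((h : ℝ) / d))) * ee (h * ((u : ℝ) / d)) =
        ee (h * ((u : ℝ) / d)) := fun n _ => by
      have : (n : ℝ) * (a * ((h : ℝ) / d)) = ((n * c : ℕ) : ℝ) := by
        have : (h : ℝ) * a = d * c := by exact_mod_cast hc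
        push_cast; field_simp; linear_combination (n : ℝ) * this
      rw [this, ee_nat, one_mul]
    rw [sum_congr rfl e3]
    simp [hc, show 2 * A - A = A by omega]
  · simp [hh, sum_mul]

theorem pars {d : ℕ} (hd : 0 < d) (T : Finset ℕ) (u : ℕ → ℕ) (B : ℕ) (hT : T ⊆ Icc 1 B)
    (hdB : d ≤ B) (hu : ∀ a ∈ T, a * u a ≡ 1 [MOD d]) :
    ∑ h ∈ range d, ‖∑ a ∈ T, ee (h * ((u a : ℝ) / d))‖ ^ 2 ≤ 2 * (B : ℝ) ^ 2 := by
  have d0 : (0 : ℝ) < d := by exact_mod_cast hd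
  have e : ((∑ h ∈ range d, ‖∑ a ∈ T, ee (h * ((u a : ℝ) / d))‖ ^ 2 : ℝ) : ℂ) =
      ((∑ a ∈ T, ∑ b ∈ T, if (d : ℤ) ∣ (u a : ℤ) - u b then (d : ℝ) else 0 : ℝ) : ℂ) := by
    push_cast
    simp_rw [← Complex.mul_conj', map_sum, sum_mul_sum]
    rw [sum_comm]
    refine sum_congr rfl fun a _ => ?_
    rw [sum_comm]
    refine sum_congr rfl fun b _ => ?_
    rw [apply_ite (fun x : ℝ => (x : ℂ)), Complex.ofReal_natCast, Complex.ofReal_zero, ← orth hd]
    refine sum_congr rfl fun h _ => ?_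
    rw [conj_ee, ← ee_add]; congr 1; push_cast; ring
  rw [Complex.ofReal_inj.1 e]
  have h1 : ∀ a ∈ T, (∑ b ∈ T, if (d : ℤ) ∣ (u a : ℤ) - u b then (d : ℝ) else 0) ≤ 2 * B := by
    intro a ha
    rw [← sum_filter, sum_const, nsmul_eq_mul]
    have h2 := card_modEq (T.filter fun b => (d : ℤ) ∣ (u a : ℤ) - u b) B d
      (fun n hn => (mem_Icc.1 (hT (mem_filter.1 hn).1)).2) fun n hn n' hn' => by
        obtain ⟨a1, a2⟩ := mem_filter.1 hn
        obtain ⟨b1, b2⟩ := mem_filter.1 hn'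
        have c1 : u n ≡ u a [MOD d] := Nat.modEq_iff_dvd.2 a2
        have c2 : u n' ≡ u a [MOD d] := Nat.modEq_iff_dvd.2 b2
        calc n = n * 1 := (mul_one n).symm
          _ ≡ n * (n' * u n') [MOD d] := (hu n' b1).symm.mul_left n
          _ ≡ n * (n' * u n) [MOD d] := ((c2.trans c1.symm).mul_left n').mul_left n
          _ = n' * (n * u n) := by ring
          _ ≡ n' * 1 [MOD d] := (hu n a1).mul_left n'
          _ = n' := mul_one n'
    have h3 : (d : ℝ) ≤ B := by exact_mod_cast hdB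
    calc _ ≤ ((B : ℝ) / d + 1) * d := mul_le_mul_of_nonneg_right h2 d0.le
      _ = B + d := by field_simp
      _ ≤ 2 * B := by linarith
  refine (sum_le_card_nsmul _ _ _ h1).trans ?_
  have h4 : (T.card : ℝ) ≤ B := by exact_mod_cast (card_le_card hT).trans (by simp)
  rw [nsmul_eq_mul]
  nlinarith [Nat.cast_nonneg (α := ℝ) B]

/-- the number of solutions for one modulus -/
def cnt (A : ℕ) (A1 A3 : Finset ℕ) (d : ℕ) : ℕ :=
  ((A3 ×ˢ A1 ×ˢ Ico A (2 * A)).filter fun z => d ∣ z.2.2 * z.2.1 * z.1 + 1).card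

theorem cnt_le (A : ℕ) (A1 A3 : Finset ℕ) {d B : ℕ} (hd : 0 < d) (hT : A3 ⊆ Icc 1 B)
    (hdB : d ≤ B) {w : ℝ} (hw : 0 < w) :
    (cnt A A1 A3 d : ℝ) ≤ A * A1.card * A3.card * (1 / d) +
      (w / 2 * (1 / d * ∑ h ∈ range d, ‖FF A A1 d h‖ ^ 2) + (B : ℝ) ^ 2 / w * (1 / d)) := by
  have d0 : (0 : ℝ) < d := by exact_mod_cast hd
  set T := A3.filter (fun b => b.Coprime d) with hTT
  set u : ℕ → ℕ := fun b => b ^ (d.totient - 1) with hu
  have u1 : ∀ b ∈ T, b * u b ≡ 1 [MOD d] := fun b hb => by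
    have := Nat.totient_pos.2 hd
    rw [hu, ← pow_succ', Nat.sub_add_cancel this]
    exact Nat.ModEq.pow_totient (mem_filter.1 hb).2
  have u2 : ∀ b ∈ T, (u b).Coprime d := fun b hb => (mem_filter.1 hb).2.pow_left _
  set R : ℝ := ∑ b ∈ T, ∑ a ∈ A1, ∑ n ∈ Ico A (2 * A), if d ∣ n * a + u b then 1 else 0 with hR
  have h1 : (cnt A A1 A3 d : ℝ) ≤ R := by
    rw [cnt, card_filter, Nat.cast_sum, sum_product, hR, hTT, sum_filter]
    refine sum_le_sum fun b hb => ?_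
    rw [sum_product]
    by_cases hc : b.Coprime d
    · rw [if_pos hc]
      refine sum_le_sum fun a _ => sum_le_sum fun n _ => ?_
      by_cases h2 : d ∣ n * a * b + 1
      · have h3 : d ∣ n * a + u b := by
          rw [← Nat.modEq_zero_iff_dvd] at h2 ⊢
          calc n * a + u b = n * a * 1 + u b := by ring
            _ ≡ n * a * (b * u b) + u b [MOD d] :=
              ((u1 b (mem_filter.2 ⟨hb, hc⟩)).symm.mul_left _).add_right _
            _ = (n * a * b + 1) * u b := by ring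
            _ ≡ 0 * u b [MOD d] := h2.mul_right _
            _ = 0 := zero_mul _
        simp [h2, h3]
      · simp only [h2, if_false, Nat.cast_zero]; split_ifs <;> norm_num
    · rw [if_neg hc]
      refine le_of_eq (sum_eq_zero fun a _ => sum_eq_zero fun n _ => ?_)
      have h2 : ¬ d ∣ n * a * b + 1 := fun h2 => hc (Nat.dvd_one.1
        ((Nat.dvd_add_right ((Nat.gcd_dvd_left b d).mul_left _)).1
          ((Nat.gcd_dvd_right b d).trans h2)))
      simp [h2]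
  have R0 : 0 ≤ R := (Nat.cast_nonneg _).trans h1
  have e : ((d * R : ℝ) : ℂ) =
      ∑ h ∈ range d, FF A A1 d h * ∑ b ∈ T, ee (h * ((u b : ℝ) / d)) +
        A * ∑ b ∈ T, ∑ a ∈ A1, (((range d).filter fun k => d ∣ k * a + u b).card : ℂ) := by
    rw [hR]
    push_cast
    simp only [apply_ite (fun x : ℝ => (x : ℂ)), Complex.ofReal_one, Complex.ofReal_zero]
    rw [mul_sum, sum_congr rfl fun b _ => ident A A1 hd (u b), sum_add_distrib, ← mul_sum,
      sum_comm]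
    simp only [mul_sum]
  have h2 : d * R ≤ (w / 2 * ∑ h ∈ range d, ‖FF A A1 d h‖ ^ 2 + (B : ℝ) ^ 2 / w) +
      A * (A1.card * A3.card) := by
    rw [← abs_of_nonneg (mul_nonneg d0.le R0), ← Real.norm_eq_abs, ← Complex.norm_real, e]
    refine (norm_add_le _ _).trans (add_le_add ?_ ?_)
    · have h3 := pars hd T u B ((filter_subset _ _).trans hT) hdB u1
      have h4 : (B : ℝ) ^ 2 / w = 1 / (2 * w) * (2 * (B : ℝ) ^ 2) := by field_simp
      rw [h4]
      refine le_trans ?_ (add_le_add le_rfl (mul_le_mul_of_nonneg_left h3 (by positivity)))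
      rw [mul_sum, mul_sum, ← sum_add_distrib]
      refine (norm_sum_le _ _).trans (sum_le_sum fun h _ => ?_)
      rw [norm_mul]
      set x := ‖FF A A1 d h‖
      set y := ‖∑ b ∈ T, ee (h * ((u b : ℝ) / d))‖
      have : w / 2 * x ^ 2 + 1 / (2 * w) * y ^ 2 - x * y = (w * x - y) ^ 2 / (2 * w) := by
        field_simp; ring
      have : 0 ≤ (w * x - y) ^ 2 / (2 * w) := by positivity
      linarith
    · rw [norm_mul, Complex.norm_natCast]
      refine mul_le_mul_of_nonneg_left ?_ (Nat.cast_nonneg _)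
      refine (norm_sum_le _ _).trans ((sum_le_card_nsmul _ _ (A1.card : ℝ) fun b hb => ?_).trans ?_)
      · refine (norm_sum_le _ _).trans ((sum_le_card_nsmul _ _ (1 : ℝ) fun a _ => ?_).trans (by simp))
        rw [Complex.norm_natCast]
        exact_mod_cast one_root a (u b) (u2 b hb)
      · rw [nsmul_eq_mul, mul_comm]
        exact mul_le_mul_of_nonneg_left (by exact_mod_cast card_filter_le _ _) (Nat.cast_nonneg _)
  refine h1.trans (le_of_mul_le_mul_left (h2.trans (le_of_eq ?_)) d0)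
  field_simp
  ring

end

end Pool.Agent.MP_35c637_nt

end MrgPart4

-- marker of a merged file
example : 731051 + 462323 = 731051 + 462323 := rfl
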