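import Mathlib.NumberTheory.ArithmeticFunction.Liouville
import Pool.Agent.MP_35c637_nt.Asym

/-! The general bound for integer valued multiplicative functions, and the two examples. -/

set_option autoImplicit false

namespace Pool.Agent.MP_35c637_nt

open Finset ArithmeticFunction

theorem general (f : ArithmeticFunction ℤ) (hm : f.IsMultiplicative)
    (hp : ∀ p : ℕ, p.Prime → f p = p - 1)
    (hq : ∀ p a : ℕ, p.Prime → 1 ≤ a → 0 < f (p ^ a) ∧ f (p ^ a) < p ^ a) {ε : ℝ} (hε : 0 < ε) :
    ∃ x₀ : ℕ, ∀ x : ℕ, x₀ ≤ x →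
      (((Icc 1 x).filter fun n => f n = f (n + 1)).card : ℝ) ≤
        x / Real.exp ((3 / 2 - ε) * Real.log x * Real.log (Real.log (Real.log x)) /
          Real.log (Real.log x)) := by
  have key : ∀ n : ℕ, 0 < n → 0 < f n ∧ (1 < n → f n < n) := by
    intro n
    induction n using Nat.recOnPosPrimePosCoprime with
    | prime_pow p a hp' ha => intro _; exact ⟨(hq p a hp' ha).1, fun _ => by
        push_cast; exact (hq p a hp' ha).2⟩
    | zero => intro h; omega
    | one => intro _; rw [hm.map_one]; exact ⟨one_pos, fun h => absurd h (lt_irrefl 1)⟩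
    | coprime a b ha hb hab iha ihb =>
      intro _
      obtain ⟨a1, a2⟩ := iha (by omega)
      obtain ⟨b1, b2⟩ := ihb (by omega)
      rw [hm.map_mul_of_coprime hab]
      refine ⟨mul_pos a1 b1, fun _ => ?_⟩
      push_cast
      exact mul_lt_mul'' (a2 ha) (b2 hb) a1.le b1.le
  have hc : Cls fun n => (f n).natAbs :=
    { one := by rw [hm.map_one]; rfl
      mul := fun a b h => by rw [hm.map_mul_of_coprime h, Int.natAbs_mul]
      prime := fun p h => by have := h.two_le; rw [hp p h]; omega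
      pos := fun n h => by have := (key n h).1; omega
      lt := fun n h => by have := key n (by omega); omega }
  obtain ⟨x₀, h⟩ := bound hc hε
  refine ⟨x₀, fun x hx => le_trans ?_ (h x hx)⟩
  exact Nat.cast_le.2 (card_le_card fun n hn =>
    mem_filter.2 ⟨(mem_filter.1 hn).1, by rw [(mem_filter.1 hn).2]⟩)

/-- the alternating sum of divisors as a Dirichlet convolution -/
def beta : ArithmeticFunction ℤ := ((ArithmeticFunction.id : ArithmeticFunction ℕ) :
  ArithmeticFunction ℤ) * liouville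

theorem beta_apply (n : ℕ) :
    beta n = ∑ d ∈ n.divisors, (-1 : ℤ) ^ (cardFactors (n / d)) * (d : ℤ) := by
  rw [beta, mul_apply, Nat.sum_divisorsAntidiagonal (f := fun a b =>
    ((ArithmeticFunction.id : ArithmeticFunction ℕ) : ArithmeticFunction ℤ) a * liouville b)]
  refine sum_congr rfl fun d hd => ?_
  obtain ⟨h1, h2⟩ := Nat.mem_divisors.1 hd
  rw [liouville_apply (Nat.div_pos (Nat.le_of_dvd (Nat.pos_of_ne_zero h2) h1)
    (Nat.pos_of_mem_divisors hd)).ne', mul_comm]
  simp

theorem beta_mult : beta.IsMultiplicative :=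
  isMultiplicative_id.natCast.mul isMultiplicative_liouville

theorem beta_succ {p : ℕ} (hp : p.Prime) (a : ℕ) : beta (p ^ (a + 1)) = p ^ (a + 1) - beta (p ^ a) := by
  rw [beta_apply, beta_apply, Nat.sum_divisors_prime_pow hp, Nat.sum_divisors_prime_pow hp,
    sum_range_succ, Nat.div_self (pow_pos hp.pos _), sub_eq_add_neg, add_comm, ← sum_neg_distrib]
  congr 1
  · simp
  · refine sum_congr rfl fun i hi => ?_
    have := mem_range.1 hi
    rw [Nat.pow_div (by omega) hp.pos, Nat.pow_div (by omega) hp.pos, cardFactors_apply_prime_pow hp,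
      cardFactors_apply_prime_pow hp, show a + 1 - i = a - i + 1 by omega, pow_succ]
    ring

theorem beta_pow {p : ℕ} (hp : p.Prime) (a : ℕ) : 0 < beta (p ^ a) ∧ beta (p ^ a) ≤ p ^ a := by
  induction a with
  | zero => simp [beta_mult.map_one]
  | succ a ih =>
    have h2 : (2 : ℤ) ≤ p := by exact_mod_cast hp.two_le
    have h3 : (0 : ℤ) < p ^ a := by positivity
    rw [beta_succ hp, pow_succ]
    constructor <;> nlinarith [ih.1, ih.2]

theorem beta_bound {ε : ℝ} (hε : 0 < ε) : ∃ x₀ : ℕ, ∀ x : ℕ, x₀ ≤ x →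
    (((Icc 1 x).filter fun n : ℕ =>
      ∑ d ∈ n.divisors, (-1 : ℤ) ^ (cardFactors (n / d)) * (d : ℤ) =
      ∑ d ∈ (n + 1).divisors, (-1 : ℤ) ^ (cardFactors ((n + 1) / d)) * (d : ℤ)).card : ℝ) ≤
        x / Real.exp ((3 / 2 - ε) * Real.log x * Real.log (Real.log (Real.log x)) /
          Real.log (Real.log x)) := by
  simp only [← beta_apply]
  refine general beta beta_mult (fun p hp => ?_) (fun p a hp ha => ?_) hε
  · simpa [beta_mult.map_one] using beta_succ hp 0
  · obtain ⟨a, rfl⟩ : ∃ b, a = b + 1 := ⟨a - 1, by omega⟩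
    exact ⟨(beta_pow hp _).1, by rw [beta_succ hp]; linarith [(beta_pow hp a).1]⟩

theorem totient_bound {ε : ℝ} (hε : 0 < ε) : ∃ x₀ : ℕ, ∀ x : ℕ, x₀ ≤ x →
    (((Icc 1 x).filter fun n : ℕ => n.totient = (n + 1).totient).card : ℝ) ≤
        x / Real.exp ((3 / 2 - ε) * Real.log x * Real.log (Real.log (Real.log x)) /
          Real.log (Real.log x)) :=
  bound ⟨Nat.totient_one, fun _ _ h => Nat.totient_mul h, fun _ h => Nat.totient_prime h,
    fun _ h => Nat.totient_pos.2 h, Nat.totient_lt⟩ hε

end Pool.Agent.MP_35c637_nt
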