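import Pool.Agent.MP_35c637_nt.Disp

-- ======== part 0: formerly Pool.Agent.MP_35c637_nt.Disp2
section MrgPart0

/-! The dispersion bound, second part: average over the moduli. -/

set_option autoImplicit false

namespace Pool.Agent.MP_35c637_nt

open Finset

noncomputable section

/-- the oscillating part at a reduced fraction -/
def GG (A : ℕ) (A1 : Finset ℕ) (q b : ℕ) : ℂ :=
  ∑ a ∈ A1.filter (fun a => ¬ q ∣ a), ∑ n ∈ Ico A (2 * A), ee (n * (a * ((b : ℝ) / q)))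

/-- the full exponential sum -/
def SS (A : ℕ) (A1 : Finset ℕ) (θ : ℝ) : ℂ :=
  ∑ a ∈ A1, ∑ n ∈ Ico A (2 * A), ee (n * (a * θ))

theorem reduce (A : ℕ) (A1 : Finset ℕ) (D : ℕ) (DD : Finset ℕ) (hD : DD ⊆ Icc 1 D) :
    ∑ d ∈ DD, 1 / (d : ℝ) * ∑ h ∈ range d, ‖FF A A1 d h‖ ^ 2 ≤
      (1 + Real.log D) * ∑ z ∈ Far D, 1 / (z.1 : ℝ) * ‖GG A A1 z.1 z.2‖ ^ 2 := by
  simp_rw [mul_sum]
  rw [sum_sigma']
  have h1 : ∑ x ∈ DD.sigma (fun d => range d), 1 / (x.1 : ℝ) * ‖FF A A1 x.1 x.2‖ ^ 2 ≤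
      ∑ w ∈ Icc 1 D ×ˢ Far D, 1 / (w.1 : ℝ) * (1 / (w.2.1 : ℝ) * ‖GG A A1 w.2.1 w.2.2‖ ^ 2) := by
    refine sum_inj (fun x => (x.2.gcd x.1, x.1 / x.2.gcd x.1, x.2 / x.2.gcd x.1))
      (fun x _ x' _ e => ?_) (fun x hx => ?_) (fun x hx => ?_) fun _ _ => by positivity
    · obtain ⟨d, h⟩ := x
      obtain ⟨d', h'⟩ := x'
      simp only [Prod.mk.injEq] at e
      obtain ⟨e1, e2, e3⟩ := e
      have a1 : d = d' := by
        rw [← Nat.mul_div_cancel' (Nat.gcd_dvd_right h d),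
          ← Nat.mul_div_cancel' (Nat.gcd_dvd_right h' d'), e2, e1]
      have a2 : h = h' := by
        rw [← Nat.mul_div_cancel' (Nat.gcd_dvd_left h d),
          ← Nat.mul_div_cancel' (Nat.gcd_dvd_left h' d'), e3, e1]
      subst a1 a2; rfl
    · obtain ⟨d, h⟩ := x
      obtain ⟨x1, x2⟩ := mem_sigma.1 hx
      obtain ⟨d1, d2⟩ := mem_Icc.1 (hD x1)
      have x3 := mem_range.1 x2
      dsimp only at d1 d2 x3 ⊢
      have g0 : 0 < h.gcd d := Nat.gcd_pos_of_pos_right _ d1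
      have g1 : h.gcd d ≤ d := Nat.gcd_le_right _ d1
      have q1 := Nat.div_le_self d (h.gcd d)
      have q2 : h / h.gcd d < d / h.gcd d := Nat.div_lt_div_of_lt_of_dvd (Nat.gcd_dvd_right h d) x3
      simp only [Far, mem_product, mem_filter, mem_Icc, mem_range]
      exact ⟨⟨g0, by omega⟩, ⟨⟨Nat.div_pos g1 g0, by omega⟩, by omega⟩, q2,
        Nat.coprime_div_gcd_div_gcd g0⟩
    · obtain ⟨d, h⟩ := x
      obtain ⟨x1, -⟩ := mem_sigma.1 hx
      obtain ⟨d1, -⟩ := mem_Icc.1 (hD x1)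
      dsimp only at d1 ⊢
      have g0 : 0 < h.gcd d := Nat.gcd_pos_of_pos_right _ d1
      have hc := Nat.coprime_div_gcd_div_gcd g0
      have e1 := Nat.mul_div_cancel' (Nat.gcd_dvd_right h d)
      have e2 := Nat.mul_div_cancel' (Nat.gcd_dvd_left h d)
      set g := h.gcd d
      set q := d / g
      set b := h / g
      have g0' : (g : ℝ) ≠ 0 := by positivity
      have e3 : FF A A1 d h = GG A A1 q b := by
        unfold FF GG
        have e4 : (h : ℝ) / d = b / q := by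
          rw [← e1, ← e2]; push_cast; rw [mul_div_mul_left _ _ g0']
        rw [e4]
        refine sum_congr (filter_congr fun a _ => not_congr ?_) fun _ _ => rfl
        rw [← e1, ← e2, mul_assoc, Nat.mul_dvd_mul_iff_left g0]
        exact ⟨fun hh => hc.symm.dvd_of_dvd_mul_left hh, fun hh => hh.mul_left _⟩
      rw [e3, ← mul_assoc, ← e1]
      push_cast
      rw [one_div_mul_one_div]
  refine h1.trans ?_
  rw [sum_product' (f := fun (g : ℕ) (z : ℕ × ℕ) =>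
    1 / (g : ℝ) * (1 / (z.1 : ℝ) * ‖GG A A1 z.1 z.2‖ ^ 2)), ← sum_mul_sum, ← mul_sum]
  exact mul_le_mul_of_nonneg_right (harm D) (sum_nonneg fun _ _ => by positivity)

theorem GG_small (A C : ℕ) (A1 : Finset ℕ) (h1 : A1 ⊆ Icc 1 C) {q b : ℕ} (hq : 0 < q)
    (hb : b.Coprime q) : ‖GG A A1 q b‖ ≤ C * q := by
  have q0 : (0 : ℝ) < q := by exact_mod_cast hq
  refine (norm_sum_le _ _).trans ((sum_le_card_nsmul _ _ (q : ℝ) fun a ha => ?_).trans ?_)
  · set t : ℝ := a * ((b : ℝ) / q) with ht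
    set m : ℤ := a * b - round t * q with hm
    have e : t - round t = m / q := by rw [hm, ht]; push_cast; field_simp
    have m0 : m ≠ 0 := fun h0 => (mem_filter.1 ha).2 (by
      have : (q : ℤ) ∣ a * b := ⟨round t, by linarith⟩
      exact hb.symm.dvd_of_dvd_mul_right (by exact_mod_cast this))
    have m1 : (1 : ℝ) ≤ |(m : ℝ)| := by exact_mod_cast Int.one_le_abs m0
    have h2 : 1 / (q : ℝ) ≤ |t - round t| := by
      rw [e, abs_div, abs_of_pos q0]; exact div_le_div_of_nonneg_right m1 q0.le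
    have h3 : 0 < |t - round t| := lt_of_lt_of_le (by positivity) h2
    refine (geo_le A (2 * A) t (round t) (abs_pos.1 h3) (abs_sub_round t)).trans ?_
    rw [div_le_iff₀ q0] at h2
    rw [div_le_iff₀ (by positivity)]
    nlinarith
  · rw [nsmul_eq_mul]
    refine mul_le_mul_of_nonneg_right ?_ q0.le
    exact_mod_cast (card_filter_le _ _).trans ((card_le_card h1).trans (by simp))

theorem GG_large (A C : ℕ) (A1 : Finset ℕ) (h1 : A1 ⊆ Icc 1 C) (q b : ℕ) :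
    ‖GG A A1 q b‖ ^ 2 ≤ 2 * ‖SS A A1 ((b : ℝ) / q)‖ ^ 2 + 2 * ((C : ℝ) / q * A) ^ 2 := by
  set E := ∑ a ∈ A1.filter (fun a => q ∣ a), ∑ n ∈ Ico A (2 * A), ee (n * (a * ((b : ℝ) / q)))
    with hE
  have e : GG A A1 q b = SS A A1 ((b : ℝ) / q) - E := by
    rw [eq_sub_iff_add_eq, add_comm, hE, GG, sum_filter_add_sum_filter_not, SS]
  have h2 : ‖E‖ ≤ (C : ℝ) / q * A := by
    refine (norm_sum_le _ _).trans ((sum_le_card_nsmul _ _ (A : ℝ) fun a _ => ?_).trans ?_)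
    · refine (norm_sum_le _ _).trans (le_of_eq ?_)
      simp [norm_ee, show 2 * A - A = A by omega]
    · rw [nsmul_eq_mul]
      refine mul_le_mul_of_nonneg_right (card_dvd _ C q fun n hn => ?_) (Nat.cast_nonneg _)
      obtain ⟨a1, a2⟩ := mem_filter.1 hn
      exact ⟨(mem_Icc.1 (h1 a1)).1, (mem_Icc.1 (h1 a1)).2, a2⟩
  have h3 := norm_sub_le (SS A A1 ((b : ℝ) / q)) E
  rw [← e] at h3
  have h4 := norm_nonneg (GG A A1 q b)
  have h5 := norm_nonneg E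
  have h6 := pow_le_pow_left₀ h4 h3 2
  nlinarith [sq_nonneg (‖SS A A1 ((b : ℝ) / q)‖ - ‖E‖), pow_le_pow_left₀ h5 h2 2]

theorem gcd_pairs (A : ℕ) (hA : 0 < A) :
    ∑ n ∈ Ico A (2 * A), ∑ n' ∈ Ico A (2 * A), (Nat.gcd n n' : ℝ) ≤
      4 * (A : ℝ) ^ 2 * (1 + Real.log (2 * A)) := by
  have h1 : ∀ n ∈ Ico A (2 * A), ∀ n' ∈ Ico A (2 * A), (Nat.gcd n n' : ℝ) ≤
      ∑ g ∈ Icc 1 (2 * A), (g : ℝ) * ((if g ∣ n then 1 else 0) * if g ∣ n' then 1 else 0) := by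
    intro n hn n' _
    obtain ⟨a1, a2⟩ := mem_Ico.1 hn
    have h2 := single_le_sum
      (f := fun g : ℕ => (g : ℝ) * ((if g ∣ n then 1 else 0) * if g ∣ n' then 1 else 0))
      (fun _ _ => by positivity) (mem_Icc.2 ⟨Nat.gcd_pos_of_pos_left n' (show 0 < n by omega),
        (Nat.gcd_le_left n' (show 0 < n by omega)).trans a2.le⟩)
    simpa [Nat.gcd_dvd_left, Nat.gcd_dvd_right] using h2
  refine (sum_le_sum fun n hn => sum_le_sum fun n' hn' => h1 n hn n' hn').trans ?_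
  have h3 := harm (2 * A)
  push_cast at h3
  refine le_trans ?_ (mul_le_mul_of_nonneg_left h3 (by positivity))
  rw [sum_congr rfl fun n _ => sum_comm, sum_comm, mul_sum]
  refine sum_le_sum fun g hg => ?_
  simp_rw [← mul_sum]
  rw [← sum_mul, sum_boole]
  have g0 : (0 : ℝ) < g := by exact_mod_cast (mem_Icc.1 hg).1
  have h4 := card_dvd ((Ico A (2 * A)).filter (g ∣ ·)) (2 * A) g fun n hn => by
    obtain ⟨a1, a2⟩ := mem_filter.1 hn
    obtain ⟨a3, a4⟩ := mem_Ico.1 a1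
    exact ⟨by omega, a4.le, a2⟩
  push_cast at h4
  calc _ ≤ (g : ℝ) * ((2 * A / g) * (2 * A / g)) :=
        mul_le_mul_of_nonneg_left (mul_le_mul h4 h4 (by positivity) (by positivity)) g0.le
    _ = _ := by field_simp; ring

/-- number of representations -/
def rep (A : ℕ) (A1 : Finset ℕ) (k : ℕ) : ℕ :=
  ((A1 ×ˢ Ico A (2 * A)).filter fun z => z.2 * z.1 = k).card

theorem maps (A C : ℕ) (A1 : Finset ℕ) (h1 : A1 ⊆ Icc 1 C) :
    ∀ z ∈ A1 ×ˢ Ico A (2 * A), z.2 * z.1 ∈ range (2 * A * C) := by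
  intro z hz
  obtain ⟨a1, a2⟩ := mem_product.1 hz
  obtain ⟨a3, a4⟩ := mem_Icc.1 (h1 a1)
  exact mem_range.2 (Nat.mul_lt_mul_of_lt_of_le (mem_Ico.1 a2).2 a4 (by omega))

theorem SS_eq (A C : ℕ) (A1 : Finset ℕ) (h1 : A1 ⊆ Icc 1 C) (θ : ℝ) :
    SS A A1 θ = ∑ k ∈ range (2 * A * C), (rep A A1 k : ℂ) * ee (k * θ) := by
  rw [SS, ← sum_product' (f := fun (a n : ℕ) => ee (n * (a * θ))),
    ← sum_fiberwise_of_maps_to (maps A C A1 h1)]
  refine sum_congr rfl fun k _ => ?_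
  rw [rep, ← nsmul_eq_mul, ← sum_const]
  refine sum_congr rfl fun z hz => ?_
  rw [← (mem_filter.1 hz).2]; push_cast; rw [mul_assoc]

theorem energy (A C : ℕ) (hA : 0 < A) (A1 : Finset ℕ) (h1 : A1 ⊆ Icc 1 C) :
    ∑ k ∈ range (2 * A * C), ‖(rep A A1 k : ℂ)‖ ^ 2 ≤ 4 * A * C * (1 + Real.log (2 * A)) := by
  have A0 : (0 : ℝ) < A := by exact_mod_cast hA
  have e1 : ∑ k ∈ range (2 * A * C), ‖(rep A A1 k : ℂ)‖ ^ 2 =
      ∑ z ∈ A1 ×ˢ Ico A (2 * A), (rep A A1 (z.2 * z.1) : ℝ) := by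
    rw [← sum_fiberwise_of_maps_to (maps A C A1 h1)]
    refine sum_congr rfl fun k _ => ?_
    rw [Complex.norm_natCast, sq, sum_congr rfl fun z hz => by rw [(mem_filter.1 hz).2], sum_const,
      nsmul_eq_mul]
    rfl
  have h2 : ∀ a ∈ A1, ∀ n ∈ Ico A (2 * A), (rep A A1 (n * a) : ℝ) ≤
      ∑ n' ∈ Ico A (2 * A), if n' / Nat.gcd n n' ∣ a then 1 else 0 := by
    intro a _ n hn
    rw [sum_boole, rep]
    refine Nat.cast_le.2 (card_le_card_of_injOn (fun z => z.2) (fun z hz => ?_)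
      fun z hz z' hz' e => ?_)
    · obtain ⟨a1, a2⟩ := mem_filter.1 (mem_coe.1 hz)
      refine mem_coe.2 (mem_filter.2 ⟨(mem_product.1 a1).2, ?_⟩)
      have g0 : 0 < Nat.gcd n z.2 := Nat.gcd_pos_of_pos_left _ (by have := (mem_Ico.1 hn).1; omega)
      refine (Nat.coprime_div_gcd_div_gcd g0).symm.dvd_of_dvd_mul_left ⟨z.1, ?_⟩
      refine Nat.eq_of_mul_eq_mul_left g0 ?_
      rw [← mul_assoc, ← mul_assoc, Nat.mul_div_cancel' (Nat.gcd_dvd_left _ _),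
        Nat.mul_div_cancel' (Nat.gcd_dvd_right _ _), a2]
    · obtain ⟨a1, a2⟩ := mem_filter.1 (mem_coe.1 hz)
      obtain ⟨b1, b2⟩ := mem_filter.1 (mem_coe.1 hz')
      have e' : z.2 = z'.2 := e
      have z0 : 0 < z.2 := by have := (mem_Ico.1 (mem_product.1 a1).2).1; omega
      refine Prod.ext (Nat.eq_of_mul_eq_mul_left z0 ?_) e'
      rw [a2, e', b2]
  rw [e1, sum_product]
  refine (sum_le_sum fun a ha => sum_le_sum fun n hn => h2 a ha n hn).trans ?_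
  rw [sum_comm]
  have h3 : ∀ n ∈ Ico A (2 * A), ∑ a ∈ A1, (∑ n' ∈ Ico A (2 * A),
      if n' / Nat.gcd n n' ∣ a then (1 : ℝ) else 0) ≤
        ∑ n' ∈ Ico A (2 * A), (C : ℝ) / A * Nat.gcd n n' := by
    intro n hn
    rw [sum_comm]
    refine sum_le_sum fun n' hn' => ?_
    rw [sum_boole]
    refine (card_dvd _ C (n' / Nat.gcd n n') fun a ha => ?_).trans ?_
    · obtain ⟨a1, a2⟩ := mem_filter.1 ha
      exact ⟨(mem_Icc.1 (h1 a1)).1, (mem_Icc.1 (h1 a1)).2, a2⟩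
    · have g0 : 0 < Nat.gcd n n' := Nat.gcd_pos_of_pos_left _ (by have := (mem_Ico.1 hn).1; omega)
      have g0' : (0 : ℝ) < Nat.gcd n n' := by exact_mod_cast g0
      have a1 : (A : ℝ) ≤ n' := by exact_mod_cast (mem_Ico.1 hn').1
      rw [Nat.cast_div (Nat.gcd_dvd_right _ _) g0'.ne', div_div_eq_mul_div, div_mul_eq_mul_div]
      exact div_le_div_of_nonneg_left (by positivity) A0 a1
  refine (sum_le_sum h3).trans ?_
  simp_rw [← mul_sum]
  refine (mul_le_mul_of_nonneg_left (gcd_pairs A hA) (by positivity)).trans (le_of_eq ?_)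
  field_simp

theorem dyadic (D Q N : ℕ) (hQ : 0 < Q) (φ : ℕ × ℕ → ℝ) (φ0 : ∀ z, 0 ≤ φ z) {E : ℝ} (E0 : 0 ≤ E)
    (h : ∀ R : ℕ, 1 ≤ R → ∑ z ∈ Far R, φ z ≤ (N + (R : ℝ) ^ 2 * (1 + 2 * Real.log R)) * E) :
    ∑ z ∈ (Far D).filter (fun z => ¬ z.1 ≤ Q), 1 / (z.1 : ℝ) * φ z ≤
      (1 + 2 * Real.log D) * ((2 * N / Q + 4 * D * (1 + 2 * Real.log (2 * D))) * E) := by
  have Q0 : (0 : ℝ) < Q := by exact_mod_cast hQ
  have l0 : 0 ≤ Real.log (2 * D) := by exact_mod_cast Real.log_natCast_nonneg (2 * D)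
  rw [← sum_fiberwise_of_maps_to (t := range (Nat.log 2 D + 1)) (g := fun z => Nat.log 2 z.1)
    (fun z hz => ?_)]
  swap
  · have := (mem_Icc.1 (mem_product.1 (mem_filter.1 (mem_filter.1 hz).1).1).1).2
    exact mem_range.2 (Nat.lt_succ_of_le (Nat.log_mono_right this))
  refine (sum_le_card_nsmul _ _ ((2 * N / Q + 4 * D * (1 + 2 * Real.log (2 * D))) * E)
    fun j _ => ?_).trans ?_
  swap
  · rw [nsmul_eq_mul, card_range]
    refine mul_le_mul_of_nonneg_right ?_ (by positivity)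
    push_cast; linarith [natlog_le D]
  set S := ((Far D).filter (fun z => ¬ z.1 ≤ Q)).filter fun z => Nat.log 2 z.1 = j with hS
  have hm : ∀ z ∈ S, 2 ^ j ≤ z.1 ∧ z.1 < 2 ^ (j + 1) ∧ Q < z.1 ∧ z.1 ≤ D ∧ z ∈ Far (2 ^ (j + 1)) := by
    intro z hz
    obtain ⟨a1, a2⟩ := mem_filter.1 hz
    obtain ⟨a3, a4⟩ := mem_filter.1 a1
    simp only [Far, mem_filter, mem_product, mem_Icc, mem_range] at a3 ⊢
    have b1 := Nat.pow_log_le_self 2 (show z.1 ≠ 0 by omega)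
    have b2 := Nat.lt_pow_succ_log_self (show 1 < 2 by norm_num) z.1
    rw [a2] at b1 b2
    exact ⟨b1, b2, by omega, a3.1.1.2, ⟨⟨a3.1.1.1, b2.le⟩, a3.2.1.trans b2⟩, a3.2⟩
  rcases S.eq_empty_or_nonempty with h0 | ⟨z, hz⟩
  · rw [h0, sum_empty]; positivity
  obtain ⟨c1, c2, c3, c4, -⟩ := hm z hz
  set P : ℝ := 2 ^ j with hP
  have P0 : 0 < P := by positivity
  have c5 : P ≤ D := by rw [hP]; exact_mod_cast c1.trans c4
  have c6 : (Q : ℝ) ≤ 2 * P := by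
    have : Q ≤ 2 * 2 ^ j := by rw [← pow_succ']; omega
    rw [hP]; exact_mod_cast this
  have h1 : ∑ z ∈ S, 1 / (z.1 : ℝ) * φ z ≤ 1 / P * ∑ z ∈ Far (2 ^ (j + 1)), φ z := by
    rw [mul_sum]
    refine le_trans (sum_le_sum fun z hz => ?_) (sum_le_sum_of_subset_of_nonneg
      (fun z hz => (hm z hz).2.2.2.2) fun z _ _ => mul_nonneg (by positivity) (φ0 z))
    exact mul_le_mul_of_nonneg_right
      (one_div_le_one_div_of_le P0 (by rw [hP]; exact_mod_cast (hm z hz).1)) (φ0 z)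
  have h2 := h (2 ^ (j + 1)) Nat.one_le_two_pow
  have e : ((2 ^ (j + 1) : ℕ) : ℝ) = 2 * P := by push_cast; rw [pow_succ']
  rw [e] at h2
  refine h1.trans ((mul_le_mul_of_nonneg_left h2 (by positivity)).trans ?_)
  rw [← mul_assoc]
  refine mul_le_mul_of_nonneg_right ?_ E0
  have h3 : Real.log (2 * P) ≤ Real.log (2 * D) := Real.log_le_log (by positivity) (by linarith)
  have h4 : 1 / P * N ≤ 2 * N / Q := by
    rw [one_div_mul_eq_div, div_le_div_iff₀ P0 Q0]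
    nlinarith [Nat.cast_nonneg (α := ℝ) N]
  have h5 : 1 / P * ((2 * P) ^ 2 * (1 + 2 * Real.log (2 * P))) = 4 * P * (1 + 2 * Real.log (2 * P)) := by
    field_simp; ring
  have h6 : 0 ≤ Real.log (2 * P) :=
    Real.log_nonneg (by have : (1 : ℝ) ≤ P := one_le_pow₀ (by norm_num); linarith)
  have h7 : 4 * P * (1 + 2 * Real.log (2 * P)) ≤ 4 * D * (1 + 2 * Real.log (2 * D)) :=
    mul_le_mul (by linarith) (by linarith) (by linarith) (by positivity)
  rw [mul_add]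
  linarith

theorem far_sum (A C D Q : ℕ) (hA : 0 < A) (hQ : 0 < Q) (A1 : Finset ℕ) (h1 : A1 ⊆ Icc 1 C) :
    ∑ z ∈ Far D, 1 / (z.1 : ℝ) * ‖GG A A1 z.1 z.2‖ ^ 2 ≤
      (C : ℝ) ^ 2 * Q ^ 3 + (2 * ((1 + 2 * Real.log D) *
        ((2 * (2 * A * C) / Q + 4 * D * (1 + 2 * Real.log (2 * D))) *
          (4 * A * C * (1 + Real.log (2 * A))))) + 2 * ((C : ℝ) * A) ^ 2 / Q) := by
  have Q0 : (0 : ℝ) < Q := by exact_mod_cast hQ
  rw [← sum_filter_add_sum_filter_not _ (fun z => z.1 ≤ Q)]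
  refine add_le_add ?_ ?_
  · refine (sum_le_card_nsmul _ _ ((C : ℝ) ^ 2 * Q) fun z hz => ?_).trans ?_
    · obtain ⟨a1, a2⟩ := mem_filter.1 hz
      simp only [Far, mem_filter, mem_product, mem_Icc, mem_range] at a1
      have q0 : (0 : ℝ) < z.1 := by exact_mod_cast a1.1.1.1
      have h2 := pow_le_pow_left₀ (norm_nonneg _) (GG_small A C A1 h1 a1.1.1.1 a1.2.2) 2
      calc _ ≤ 1 / (z.1 : ℝ) * ((C : ℝ) * z.1) ^ 2 := mul_le_mul_of_nonneg_left h2 (by positivity)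
        _ = (C : ℝ) ^ 2 * z.1 := by field_simp
        _ ≤ _ := mul_le_mul_of_nonneg_left (by exact_mod_cast a2) (by positivity)
    · have h2 : ((Far D).filter fun z => z.1 ≤ Q).card ≤ (Icc 1 Q ×ˢ range Q).card := by
        refine card_le_card fun z hz => ?_
        obtain ⟨a1, a2⟩ := mem_filter.1 hz
        simp only [Far, mem_filter, mem_product, mem_Icc, mem_range] at a1 ⊢
        exact ⟨⟨a1.1.1.1, a2⟩, by omega⟩
      simp only [card_product, Nat.card_Icc, add_tsub_cancel_right, card_range] at h2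
      have h3 : (((Far D).filter fun z => z.1 ≤ Q).card : ℝ) ≤ Q * Q := by exact_mod_cast h2
      rw [nsmul_eq_mul]
      calc _ ≤ ((Q : ℝ) * Q) * ((C : ℝ) ^ 2 * Q) := mul_le_mul_of_nonneg_right h3 (by positivity)
        _ = _ := by ring
  have l0 : 0 ≤ Real.log (2 * A) := by exact_mod_cast Real.log_natCast_nonneg (2 * A)
  have h2 := dyadic D Q (2 * A * C) hQ (fun z => ‖SS A A1 ((z.2 : ℝ) / z.1)‖ ^ 2)
    (fun _ => sq_nonneg _) (E := 4 * A * C * (1 + Real.log (2 * A))) (by positivity) fun R hR => by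
      simp_rw [SS_eq A C A1 h1]
      refine (ls_far hR _ _).trans (mul_le_mul_of_nonneg_left (energy A C hA A1 h1) ?_)
      have := Real.log_natCast_nonneg R; positivity
  push_cast at h2
  refine (sum_le_sum fun z _ => mul_le_mul_of_nonneg_left (GG_large A C A1 h1 z.1 z.2)
    (by positivity)).trans ?_
  rw [sum_congr rfl fun z _ => mul_add _ _ _, sum_add_distrib]
  refine add_le_add ?_ ?_
  · rw [sum_congr rfl fun z _ => mul_left_comm _ (2 : ℝ) _, ← mul_sum]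
    linarith
  · have h3 : ∑ z ∈ (Far D).filter (fun z => ¬ z.1 ≤ Q),
        1 / (z.1 : ℝ) * (2 * ((C : ℝ) / z.1 * A) ^ 2) ≤
        ∑ x ∈ (Ioc Q D).sigma (fun q => range q), 1 / (x.1 : ℝ) * (2 * ((C : ℝ) / x.1 * A) ^ 2) := by
      refine sum_inj (fun z => (⟨z.1, z.2⟩ : Σ _ : ℕ, ℕ)) (fun z _ z' _ e => ?_) (fun z hz => ?_)
        (fun _ _ => le_rfl) fun _ _ => by positivity
      · simp only [Sigma.mk.injEq, heq_eq_eq] at e
        exact Prod.ext e.1 e.2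
      · obtain ⟨a1, a2⟩ := mem_filter.1 hz
        simp only [Far, mem_filter, mem_product, mem_Icc, mem_range] at a1
        simp only [mem_sigma, mem_Ioc, mem_range]
        exact ⟨⟨by omega, a1.1.1.2⟩, a1.2.1⟩
    refine h3.trans ?_
    rw [sum_sigma]
    have h4 : ∀ q ∈ Ioc Q D, ∑ _b ∈ range q, 1 / (q : ℝ) * (2 * ((C : ℝ) / q * A) ^ 2) =
        2 * ((C : ℝ) * A) ^ 2 * ((q : ℝ) ^ 2)⁻¹ := fun q hq => by
      have q0 : (0 : ℝ) < q := by exact_mod_cast hQ.trans (mem_Ioc.1 hq).1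
      rw [sum_const, card_range, nsmul_eq_mul]; field_simp
    rw [sum_congr rfl h4, ← mul_sum, div_eq_mul_inv]
    refine mul_le_mul_of_nonneg_left ?_ (by positivity)
    rcases le_or_gt Q D with hh | hh
    · refine (sum_Ioc_inv_sq_le_sub hQ.ne' hh).trans (sub_le_self _ (by positivity))
    · rw [Ioc_eq_empty_of_le hh.le, sum_empty]; positivity

end

end Pool.Agent.MP_35c637_nt

end MrgPart0

-- ======== part 1: formerly Pool.Agent.MP_35c637_nt.Box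
section MrgPart1

/-! The main case: three sparse variables. -/

set_option autoImplicit false

namespace Pool.Agent.MP_35c637_nt

open Finset

noncomputable section

/-- a common bound for all logarithmic factors -/
def lg (X : ℕ) : ℝ := 1 + 2 * Real.log (2 * X)

theorem one_le_lg (X : ℕ) : 1 ≤ lg X := by
  have : 0 ≤ Real.log (2 * X) := by exact_mod_cast Real.log_natCast_nonneg (2 * X)
  unfold lg; linarith

theorem log_le_lg {a X : ℕ} (h : a ≤ 2 * X) : 1 + 2 * Real.log a ≤ lg X := by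
  unfold lg
  rcases Nat.eq_zero_or_pos a with rfl | ha
  · have : 0 ≤ Real.log (2 * X) := by exact_mod_cast Real.log_natCast_nonneg (2 * X)
    simp only [Nat.cast_zero, Real.log_zero]; linarith
  · have := Real.log_le_log (show (0 : ℝ) < a by exact_mod_cast ha)
      (show (a : ℝ) ≤ 2 * X by exact_mod_cast h)
    linarith

theorem log_le_lg' {a X : ℕ} (h : a ≤ 2 * X) : 1 + Real.log a ≤ lg X := by
  linarith [log_le_lg h, Real.log_natCast_nonneg a]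

theorem box (A B C D Q X : ℕ) (hA : 0 < A) (hB : 0 < B) (hQ : 0 < Q) (A1 A3 DD : Finset ℕ)
    (h1 : A1 ⊆ Icc 1 C) (h3 : A3 ⊆ Icc 1 B) (hD : DD ⊆ Icc 1 D) (hDB : D ≤ B) (hDX : D ≤ X)
    (hAX : A ≤ X) {P κ : ℝ} (P0 : 0 < P) (k0 : 0 < κ) (hP : (A : ℝ) * C * B ≤ P)
    (c1 : (Q : ℝ) ^ 3 ≤ κ ^ 2 * A ^ 2) (c2 : 1 ≤ κ ^ 2 * Q) (c3 : (B : ℝ) * D ≤ κ ^ 2 * P) :
    ∑ d ∈ DD, (cnt A A1 A3 d : ℝ) ≤
      A * A1.card * A3.card * ∑ d ∈ DD, (1 : ℝ) / d + 35 * lg X ^ 4 * P * κ := by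
  have B0 : (0 : ℝ) < B := by exact_mod_cast hB
  have Q0 : (0 : ℝ) < Q := by exact_mod_cast hQ
  set w : ℝ := (B : ℝ) ^ 2 / (P * κ) with hw
  have w0 : 0 < w := by positivity
  refine (sum_le_sum fun d hd => cnt_le A A1 A3 (mem_Icc.1 (hD hd)).1 h3
    ((mem_Icc.1 (hD hd)).2.trans hDB) w0).trans ?_
  rw [sum_add_distrib, sum_add_distrib, ← mul_sum, ← mul_sum, ← mul_sum]
  refine add_le_add le_rfl ?_
  set l := lg X with hl
  have l1 : 1 ≤ l := one_le_lg X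
  have a1 : 1 + Real.log D ≤ l := log_le_lg' (by omega)
  have a2 : 1 + 2 * Real.log D ≤ l := log_le_lg (by omega)
  have a3 : 1 + 2 * Real.log (2 * D) ≤ l := by exact_mod_cast log_le_lg (a := 2 * D) (by omega)
  have a4 : 1 + Real.log (2 * A) ≤ l := by exact_mod_cast log_le_lg' (a := 2 * A) (by omega)
  have b2 := Real.log_natCast_nonneg D
  have b3 : 0 ≤ Real.log (2 * D) := by exact_mod_cast Real.log_natCast_nonneg (2 * D)
  have b4 : 0 ≤ Real.log (2 * A) := by exact_mod_cast Real.log_natCast_nonneg (2 * A)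
  set Φ : ℝ := (C : ℝ) ^ 2 * Q ^ 3 + (2 * (l * ((2 * (2 * A * C) / Q + 4 * D * l) *
    (4 * A * C * l))) + 2 * ((C : ℝ) * A) ^ 2 / Q) with hΦ
  have h4 : ∑ d ∈ DD, 1 / (d : ℝ) * ∑ h ∈ range d, ‖FF A A1 d h‖ ^ 2 ≤ l * Φ := by
    refine (reduce A A1 D DD hD).trans (mul_le_mul a1 ((far_sum A C D Q hA hQ A1 h1).trans ?_)
      (sum_nonneg fun _ _ => by positivity) (by linarith))
    rw [hΦ]
    gcongr
  have h5 : ∑ d ∈ DD, (1 : ℝ) / d ≤ l := (harm' DD D hD).trans a1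
  set T : ℝ := A * C * B with hT
  have T0 : 0 ≤ T := by positivity
  have T2 : T ^ 2 ≤ P ^ 2 := pow_le_pow_left₀ T0 hP 2
  have q1 : 1 / (Q : ℝ) ≤ κ ^ 2 := by rw [div_le_iff₀ Q0]; exact c2
  have h6 : (B : ℝ) ^ 2 * Φ ≤ 67 * l ^ 3 * (P ^ 2 * κ ^ 2) := by
    have e : (B : ℝ) ^ 2 * Φ = (C * B) ^ 2 * Q ^ 3 + (32 * l ^ 2 + 2) * (T ^ 2 * (1 / Q)) +
        32 * l ^ 3 * (T * (B * D)) := by rw [hΦ, hT]; field_simp; ring
    have d1 : ((C : ℝ) * B) ^ 2 * Q ^ 3 ≤ P ^ 2 * κ ^ 2 := by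
      calc ((C : ℝ) * B) ^ 2 * Q ^ 3 ≤ (C * B) ^ 2 * (κ ^ 2 * A ^ 2) :=
            mul_le_mul_of_nonneg_left c1 (by positivity)
        _ = T ^ 2 * κ ^ 2 := by rw [hT]; ring
        _ ≤ _ := mul_le_mul_of_nonneg_right T2 (by positivity)
    have d2 : T ^ 2 * (1 / Q) ≤ P ^ 2 * κ ^ 2 := mul_le_mul T2 q1 (by positivity) (by positivity)
    have d3 : T * (B * D) ≤ P ^ 2 * κ ^ 2 := by
      calc T * (B * D) ≤ P * (κ ^ 2 * P) := mul_le_mul hP c3 (by positivity) P0.le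
        _ = _ := by ring
    have l2 : l ^ 2 ≤ l ^ 3 := pow_le_pow_right₀ l1 (by norm_num)
    have l3 : 1 ≤ l ^ 3 := one_le_pow₀ l1
    have d4 := mul_le_mul (show 32 * l ^ 2 + 2 ≤ 34 * l ^ 3 by linarith) d2 (by positivity)
      (by positivity)
    have d5 := mul_le_mul_of_nonneg_left d3 (show 0 ≤ 32 * l ^ 3 by positivity)
    have d6 := mul_le_mul_of_nonneg_right l3 (show 0 ≤ P ^ 2 * κ ^ 2 by positivity)
    rw [e]; linarith
  have h7 : w / 2 * (l * Φ) ≤ 67 / 2 * l ^ 4 * P * κ := by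
    calc w / 2 * (l * Φ) = l / (2 * (P * κ)) * ((B : ℝ) ^ 2 * Φ) := by rw [hw]; field_simp
      _ ≤ l / (2 * (P * κ)) * (67 * l ^ 3 * (P ^ 2 * κ ^ 2)) :=
          mul_le_mul_of_nonneg_left h6 (by positivity)
      _ = _ := by field_simp
  have h8 : (B : ℝ) ^ 2 / w * l ≤ l ^ 4 * P * κ := by
    have : (B : ℝ) ^ 2 / w = P * κ := by rw [hw]; field_simp
    rw [this, mul_comm, mul_assoc]
    exact mul_le_mul_of_nonneg_right (le_self_pow₀ l1 (by norm_num)) (by positivity)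
  have h9 := mul_le_mul_of_nonneg_left h4 (show 0 ≤ w / 2 by positivity)
  have h10 := mul_le_mul_of_nonneg_left h5 (show 0 ≤ (B : ℝ) ^ 2 / w by positivity)
  have : 0 ≤ l ^ 4 * P * κ := by positivity
  linarith

theorem card_le_mul (S T : Finset ℕ) (C : ℕ) (h : S ⊆ Icc 1 C) (hT : S ⊆ T) :
    (S.card : ℝ) ≤ C * ∑ a ∈ T, (1 : ℝ) / a := by
  refine le_trans ?_ (mul_le_mul_of_nonneg_left
    (sum_le_sum_of_subset_of_nonneg hT fun _ _ _ => by positivity) (Nat.cast_nonneg _))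
  rw [mul_sum, card_eq_sum_ones, Nat.cast_sum]
  refine sum_le_sum fun a ha => ?_
  obtain ⟨a1, a2⟩ := mem_Icc.1 (h ha)
  rw [mul_one_div, Nat.cast_one, le_div_iff₀ (by exact_mod_cast a1), one_mul]
  exact_mod_cast a2

theorem main_case (x D Q : ℕ) (hx : 0 < x) (hQ : 0 < Q) (T1 T2 T3 : Finset ℕ) (hT3 : T3 ⊆ Icc 1 D)
    {M N κ : ℝ} (M0 : 0 ≤ M) (k0 : 0 < κ) (c1 : 4 * (Q : ℝ) ^ 3 ≤ κ ^ 2 * M ^ 2)
    (c2 : 1 ≤ κ ^ 2 * Q) (c3 : N * D ≤ κ ^ 2 * x) (S : Finset ℕ)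
    (hS : ∀ n ∈ S, 1 ≤ n ∧ n ≤ x ∧ ∃ d n0 n1 n3 : ℕ, n = n0 * n1 * n3 ∧ d ∣ n + 1 ∧ d ∈ T3 ∧
      M < n0 ∧ n1 ∈ T1 ∧ n3 ∈ T2 ∧ D ≤ n3 ∧ (n3 : ℝ) ≤ N) :
    (S.card : ℝ) ≤ lg x ^ 2 * (2 * x * ((∑ a ∈ T1, (1 : ℝ) / a) * (∑ a ∈ T2, (1 : ℝ) / a) *
      ∑ a ∈ T3, (1 : ℝ) / a) + 70 * lg x ^ 4 * x * κ) := by
  have x0 : (0 : ℝ) < x := by exact_mod_cast hx
  choose! s1 s2 d n0 n1 n3 e1 e2 e3 e4 e5 e6 e7 e8 using hS
  set J := Nat.log 2 x + 1 with hJ
  have p0 : ∀ n ∈ S, 0 < n0 n ∧ 0 < n1 n ∧ 0 < n3 n := fun n hn => by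
    have h1 : n0 n * n1 n * n3 n ≠ 0 := by rw [← e1 n hn]; have := s1 n hn; omega
    exact ⟨Nat.pos_of_ne_zero (left_ne_zero_of_mul (left_ne_zero_of_mul h1)),
      Nat.pos_of_ne_zero (right_ne_zero_of_mul (left_ne_zero_of_mul h1)),
      Nat.pos_of_ne_zero (right_ne_zero_of_mul h1)⟩
  have p1 : ∀ n ∈ S, n0 n ≤ x ∧ n3 n ≤ x := fun n hn =>
    ⟨(Nat.le_of_dvd (s1 n hn) ⟨n1 n * n3 n, by rw [← mul_assoc]; exact e1 n hn⟩).trans (s2 n hn),
      (Nat.le_of_dvd (s1 n hn) (Dvd.intro_left _ (e1 n hn).symm)).trans (s2 n hn)⟩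
  rw [card_eq_sum_card_fiberwise (t := range J ×ˢ range J)
    (f := fun n => (Nat.log 2 (n0 n), Nat.log 2 (n3 n))) fun n hn => by
      simp only [coe_product, coe_range, Set.mem_prod, Set.mem_Iio]
      exact ⟨Nat.lt_succ_of_le (Nat.log_mono_right (p1 n hn).1),
        Nat.lt_succ_of_le (Nat.log_mono_right (p1 n hn).2)⟩]
  set s1' := ∑ a ∈ T1, (1 : ℝ) / a
  set s2' := ∑ a ∈ T2, (1 : ℝ) / a
  set s3' := ∑ a ∈ T3, (1 : ℝ) / a
  have t1 : 0 ≤ s1' := sum_nonneg fun _ _ => by positivity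
  have t2 : 0 ≤ s2' := sum_nonneg fun _ _ => by positivity
  have t3 : 0 ≤ s3' := sum_nonneg fun _ _ => by positivity
  have l1 := one_le_lg x
  rw [Nat.cast_sum]
  refine (sum_le_card_nsmul _ _ (2 * x * (s1' * s2' * s3') + 70 * lg x ^ 4 * x * κ)
    fun z _ => ?_).trans ?_
  swap
  · rw [nsmul_eq_mul, card_product, card_range]
    refine mul_le_mul_of_nonneg_right ?_ (by positivity)
    have h1 : (J : ℝ) ≤ lg x := by
      have := log_le_lg (a := x) (X := x) (by omega)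
      rw [hJ]; push_cast; linarith [natlog_le x]
    push_cast
    rw [sq]
    exact mul_le_mul h1 h1 (by positivity) (by linarith)
  obtain ⟨i, j⟩ := z
  set S' := S.filter fun n => (Nat.log 2 (n0 n), Nat.log 2 (n3 n)) = (i, j) with hS'
  rcases S'.eq_empty_or_nonempty with h0 | ⟨m, hm⟩
  · rw [h0, card_empty, Nat.cast_zero]; positivity
  have hm' : ∀ n ∈ S', n ∈ S ∧ 2 ^ i ≤ n0 n ∧ n0 n < 2 * 2 ^ i ∧ 2 ^ j ≤ n3 n ∧
      n3 n < 2 * 2 ^ j := by
    intro n hn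
    obtain ⟨a1, a2⟩ := mem_filter.1 hn
    obtain ⟨a3, a4⟩ := Prod.mk.inj a2
    have b1 := Nat.pow_log_le_self 2 (p0 n a1).1.ne'
    have b2 := Nat.lt_pow_succ_log_self (show 1 < 2 by norm_num) (n0 n)
    have b3 := Nat.pow_log_le_self 2 (p0 n a1).2.2.ne'
    have b4 := Nat.lt_pow_succ_log_self (show 1 < 2 by norm_num) (n3 n)
    rw [a3] at b1 b2
    rw [a4] at b3 b4
    rw [pow_succ'] at b2 b4
    exact ⟨a1, b1, b2, b3, b4⟩
  set A := 2 ^ i with hA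
  set B := 2 ^ j with hB
  have A0 : 0 < A := by positivity
  have B0 : 0 < B := by positivity
  set C := x / (A * B) with hC
  set A1 := T1.filter (· ∈ Icc 1 C) with hA1
  set A3 := T2.filter (· ∈ Icc 1 (2 * B)) with hA3
  have g1 : A1 ⊆ Icc 1 C := fun a ha => (mem_filter.1 ha).2
  have g3 : A3 ⊆ Icc 1 (2 * B) := fun a ha => (mem_filter.1 ha).2
  have h1 : S'.card ≤ ∑ d ∈ T3, cnt A A1 A3 d := by
    unfold cnt
    rw [← card_sigma]
    refine card_le_card_of_injOn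
      (fun n => (⟨d n, n3 n, n1 n, n0 n⟩ : Σ _ : ℕ, ℕ × ℕ × ℕ)) (fun n hn => ?_)
      fun n hn n' hn' e => ?_
    · obtain ⟨a1, a2, a3, a4, a5⟩ := hm' n hn
      obtain ⟨b1, b2, b3⟩ := p0 n a1
      simp only [coe_sigma, Set.mem_sigma_iff, mem_coe, mem_filter, mem_product, hA1, hA3, mem_Icc,
        mem_Ico]
      refine ⟨e3 n a1, ⟨⟨e6 n a1, b3, a5.le⟩, ⟨e5 n a1, b2, ?_⟩, a2, a3⟩, e1 n a1 ▸ e2 n a1⟩
      refine (Nat.le_div_iff_mul_le (by positivity)).2 (le_trans ?_ (s2 n a1))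
      conv_rhs => rw [e1 n a1]
      calc n1 n * (A * B) ≤ n1 n * (n0 n * n3 n) := Nat.mul_le_mul_left _ (Nat.mul_le_mul a2 a4)
        _ = _ := by ring
    · simp only [Sigma.mk.injEq, heq_eq_eq, Prod.mk.injEq] at e
      rw [e1 n (hm' n hn).1, e1 n' (hm' n' hn').1, e.2.1, e.2.2.1, e.2.2.2]
  obtain ⟨a1, a2, a3, a4, a5⟩ := hm' m hm
  have hP : (A : ℝ) * C * (2 * B : ℕ) ≤ 2 * x := by
    have : A * C * (2 * B) ≤ 2 * x := by
      have : A * B * C ≤ x := Nat.mul_div_le x (A * B)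
      calc A * C * (2 * B) = 2 * (A * B * C) := by ring
        _ ≤ 2 * x := by omega
    exact_mod_cast this
  have h2 := box A (2 * B) C D Q x A0 (by omega) hQ A1 A3 T3 g1 g3 hT3 ((e7 m a1).trans a5.le)
    ((e7 m a1).trans (p1 m a1).2) (a2.trans (p1 m a1).1) (P := 2 * x) (by positivity) k0 hP
    (by
      have f1 : M ≤ 2 * A := (e4 m a1).le.trans (by exact_mod_cast a3.le)
      have f2 := mul_le_mul_of_nonneg_left (pow_le_pow_left₀ M0 f1 2) (sq_nonneg κ)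
      nlinarith) c2
    (by
      have f1 : (B : ℝ) ≤ N := le_trans (by exact_mod_cast a4) (e8 m a1)
      have f2 := mul_le_mul_of_nonneg_right f1 (Nat.cast_nonneg (α := ℝ) D)
      push_cast; nlinarith)
  have h3 := card_le_mul A1 T1 C g1 (filter_subset _ _)
  have h4 := card_le_mul A3 T2 (2 * B) g3 (filter_subset _ _)
  have h5 : (A : ℝ) * A1.card * A3.card * s3' ≤ 2 * x * (s1' * s2' * s3') := by
    calc (A : ℝ) * A1.card * A3.card * s3' ≤ A * (C * s1') * ((2 * B : ℕ) * s2') * s3' :=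
        mul_le_mul_of_nonneg_right (mul_le_mul (mul_le_mul_of_nonneg_left h3 (Nat.cast_nonneg _))
          h4 (Nat.cast_nonneg _) (by positivity)) t3
      _ = (A * C * (2 * B : ℕ)) * (s1' * s2' * s3') := by ring
      _ ≤ _ := mul_le_mul_of_nonneg_right hP (by positivity)
  have h6 : (S'.card : ℝ) ≤ ∑ d ∈ T3, (cnt A A1 A3 d : ℝ) := by exact_mod_cast h1
  linarith

end

end Pool.Agent.MP_35c637_nt

end MrgPart1

-- marker of a merged file
example : 731051 + 713238 = 731051 + 713238 := rfl
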