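import Pool.Agent.MP_35c637_nt.Disp
import Pool.Agent.MP_35c637_nt.Box

-- ======== part 0: formerly Pool.Agent.MP_35c637_nt.Decomp
section MrgPart0

/-! Every solution falls in one of ten classes. -/

set_option autoImplicit false

namespace Pool.Agent.MP_35c637_nt

open Finset

noncomputable section

theorem split {n : ℕ} (hn : 1 ≤ n) {a0 : ℝ} (h : ∀ a : ℕ, a ^ 2 ∣ n → (a : ℝ) ≤ a0) :
    ∃ w m : ℕ, n = w * m ∧ w.Coprime m ∧ Squarefree m ∧ 0 < w ∧ (w : ℝ) ≤ a0 ^ 3 := by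
  obtain ⟨a, b, e, hs⟩ := Nat.sq_mul_squarefree n
  have b0 : 0 < b := Nat.pos_of_ne_zero (by rintro rfl; simp at e; omega)
  obtain ⟨m, hm⟩ := Nat.gcd_dvd_left a b
  set g := Nat.gcd a b with hg
  have g0 : 0 < g := Nat.gcd_pos_of_pos_right _ b0
  have c1 : g.Coprime m := Nat.coprime_of_squarefree_mul (hm ▸ hs)
  have c2 : b.Coprime m := by
    refine Nat.eq_one_of_dvd_coprimes c1 ?_ (Nat.gcd_dvd_right b m)
    exact Nat.dvd_gcd ((Nat.gcd_dvd_right b m).trans (Dvd.intro_left _ hm.symm))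
      (Nat.gcd_dvd_left b m)
  refine ⟨b ^ 2 * g, m, by rw [mul_assoc, ← hm, e], Nat.Coprime.mul_left (c2.pow_left 2) c1,
    hs.squarefree_of_dvd (Dvd.intro_left _ hm.symm), by positivity, ?_⟩
  have h1 := h b (Dvd.intro _ e)
  have h2 : (g : ℝ) ≤ b := by exact_mod_cast Nat.gcd_le_right a b0
  push_cast
  calc (b : ℝ) ^ 2 * g ≤ b ^ 2 * b := mul_le_mul_of_nonneg_left h2 (by positivity)
    _ = b ^ 3 := by ring
    _ ≤ _ := pow_le_pow_left₀ (by positivity) h1 3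

theorem unit_div {n w m d : ℕ} (e : n = w * m) (hc : w.Coprime m) (hs : Squarefree m)
    (hd : d ∣ m) : ∃ t, n = d * t ∧ d.Coprime t := by
  obtain ⟨c, rfl⟩ := hd
  exact ⟨w * c, by rw [e]; ring, Nat.Coprime.mul_right (hc.of_dvd_right (dvd_mul_right _ _)).symm
    (Nat.coprime_of_squarefree_mul hs)⟩

theorem max_prime {m : ℕ} (hm : 1 < m) :
    ∃ P : ℕ, P.Prime ∧ P ∣ m ∧ ∀ p : ℕ, p.Prime → p ∣ m → p ≤ P := by
  obtain ⟨P, h1, h2⟩ := exists_max_image m.primeFactors id (Nat.nonempty_primeFactors.2 hm)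
  exact ⟨P, Nat.prime_of_mem_primeFactors h1, Nat.dvd_of_mem_primeFactors h1,
    fun p hp hd => h2 p (Nat.mem_primeFactors.2 ⟨hp, hd, by omega⟩)⟩

theorem ro_ph_le (y : ℕ) {d m : ℕ} (hm : m ≠ 0) (h : d ∣ m) : ro y (ph d) ≤ ro y (ph m) :=
  Nat.le_of_dvd (ro_pos _ _) (ro_dvd_ro y (ph_pos m).ne' (ph_dvd hm h))

theorem pair_pigeon (y : ℕ) {m m' : ℕ} (hm : Squarefree m) (hm' : Squarefree m') {U U' G : ℝ}
    (hU : 1 ≤ U) (hU' : 1 ≤ U') (hG : 1 ≤ G) (hV : ∀ p : ℕ, p.Prime → p ∣ m → (p : ℝ) ≤ U)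
    (hV' : ∀ p : ℕ, p.Prime → p ∣ m' → (p : ℝ) ≤ U') (h1 : (m : ℝ) ≤ U ^ 21)
    (h2 : (m' : ℝ) ≤ U' ^ 21) (h : G ^ 1849 < Nat.gcd (ro y (ph m)) (ph m')) :
    ∃ d d' : ℕ, d ∣ m ∧ d' ∣ m' ∧ (d : ℝ) ≤ U ∧ (d' : ℝ) ≤ U' ∧
      G ≤ Nat.gcd (ro y (ph d)) (ph d') := by
  by_contra hh
  push Not at hh
  have h3 : ∀ d : ℕ, d ∣ m → (d : ℝ) ≤ U → (Nat.gcd (ro y (ph d)) (ph m') : ℝ) ≤ G ^ 43 :=
    fun d hd hdU => pigeon hm' hU' hG (fun e => (Nat.gcd (ro y (ph d)) (ph e) : ℝ))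
      (fun _ => Nat.cast_nonneg _) (fun a b hab _ => by
        rw [ph_mul hab]
        exact_mod_cast Nat.le_of_dvd (Nat.mul_pos (Nat.gcd_pos_of_pos_left _ (ro_pos _ _))
          (Nat.gcd_pos_of_pos_left _ (ro_pos _ _))) (Nat.gcd_mul_right_dvd_mul_gcd _ _ _))
      hV' (fun e he heU => (hh d e hd he hdU heU).le) 21 m' dvd_rfl h2
  have h4 := pigeon hm hU (one_le_pow₀ hG) (fun d => (Nat.gcd (ro y (ph d)) (ph m') : ℝ))
    (fun _ => Nat.cast_nonneg _) (fun a b hab _ => by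
      rw [ph_mul hab, ro_mul y (ph_pos a).ne' (ph_pos b).ne']
      exact_mod_cast Nat.le_of_dvd (Nat.mul_pos (Nat.gcd_pos_of_pos_left _ (ro_pos _ _))
        (Nat.gcd_pos_of_pos_left _ (ro_pos _ _))) (Nat.gcd_mul_left_dvd_mul_gcd _ _ _))
    hV h3 21 m dvd_rfl h1
  rw [← pow_mul] at h4
  exact absurd h (not_lt.2 h4)

/-- the parameters of the proof -/
structure Par where
  (Z0 a0 T1 T2 T3 G R V DB N0 M0 D0 : ℝ)

/-- the conditions on the parameters used by the classification -/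
structure Par.Ok (π : Par) (x : ℕ) : Prop where
  a0 : 1 ≤ π.a0
  R : 1 ≤ π.R
  V : 1 ≤ π.V
  DB : 1 ≤ π.DB
  N0 : 1 ≤ π.N0
  M0 : 1 ≤ π.M0
  D0 : 1 ≤ π.D0
  T3 : 1 ≤ π.T3
  G : 1 ≤ π.G
  b1 : π.DB * π.a0 ^ 3 ≤ π.Z0
  b2 : π.M0 * (π.N0 * π.V) * π.a0 ^ 3 ≤ π.Z0
  c1 : π.T3 * π.T2 ≤ π.T1
  c2 : π.T3 ≤ π.T2
  c3 : ((x + 1 : ℕ) : ℝ) ≤ π.T3 ^ 21
  c4 : π.a0 ^ 3 * π.G ^ 1849 ≤ π.R
  d1 : π.D0 * π.V ≤ π.N0

/-- large square divisor -/
def PS (π : Par) (x N : ℕ) : Prop := 1 ≤ N ∧ N ≤ x + 1 ∧ ∃ a : ℕ, π.a0 < a ∧ a ^ 2 ∣ N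

/-- two large primes -/
def PA (f : ℕ → ℕ) (π : Par) (x n : ℕ) : Prop :=
  1 ≤ n ∧ n + 1 ≤ x + 1 ∧ f n = f (n + 1) ∧ ∃ k k' P P' : ℕ, P.Prime ∧ P'.Prime ∧
    n = k * P ∧ n + 1 = k' * P' ∧ k.Coprime P ∧ k'.Coprime P' ∧
    (k : ℝ) * k' ≤ ((x + 1 : ℕ) : ℝ) ^ 2 / π.T1

/-- one very large prime -/
def PB (f : ℕ → ℕ) (π : Par) (x : ℕ) (c : ℤ) (N : ℕ) : Prop :=
  2 ≤ N ∧ N ≤ x + 1 ∧ ∃ k d P t : ℕ, P.Prime ∧ k.Coprime P ∧ (N : ℤ) = k * P + c ∧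
    f (k * P) = f N ∧ 0 < k ∧ (k : ℝ) ≤ (x + 1 : ℕ) / π.T2 ∧ N = d * t ∧ d.Coprime t ∧
    Squarefree d ∧ π.DB < d ∧ (d : ℝ) ≤ π.DB * (π.T1 / π.T2)

/-- a large common rough divisor -/
def PC (y : ℕ) (π : Par) (x n : ℕ) : Prop :=
  1 ≤ n ∧ n ≤ x ∧ ∃ d d' : ℕ, Squarefree d ∧ Squarefree d' ∧ d ∣ n ∧ d' ∣ n + 1 ∧
    (d : ℝ) * d' ≤ π.T1 ∧ π.G ≤ Nat.gcd (ro y (ph d)) (ph d')

/-- a large prime with a nearly smooth shift -/
def PP (y : ℕ) (π : Par) (x N : ℕ) : Prop :=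
  1 ≤ N ∧ N ≤ x + 1 ∧ ∃ p : ℕ, p.Prime ∧ p ∣ N ∧ π.V < p ∧ (ro y (p - 1) : ℝ) ≤ π.R * π.a0 ^ 3

/-- the main case -/
def PM (y : ℕ) (π : Par) (x n : ℕ) : Prop :=
  1 ≤ n ∧ n ≤ x ∧ ∃ d n0 n1 n3 : ℕ, n = n0 * n1 * n3 ∧ d ∣ n + 1 ∧
    d ∈ (AA y (x + 1) (π.R * π.a0 ^ 3) π.D0).filter (· ≤ ⌊π.D0 * π.V⌋₊) ∧ π.M0 < n0 ∧
    n1 ∈ AA y (x + 1) (π.R * π.a0 ^ 3) (π.Z0 / (π.a0 ^ 3 * (π.M0 * π.V) * (π.N0 * π.V))) ∧
    n3 ∈ AA y (x + 1) (π.R * π.a0 ^ 3) π.N0 ∧ ⌊π.D0 * π.V⌋₊ ≤ n3 ∧ (n3 : ℝ) ≤ π.N0 * π.V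

theorem lt_of_split {n w m : ℕ} (e : n = w * m) {W Z D : ℝ} (hw : (w : ℝ) ≤ W) (hZ : Z < n)
    (W0 : 0 < W) (h : D * W ≤ Z) : D < m := by
  have : (n : ℝ) ≤ m * W := by
    rw [e]; push_cast; rw [mul_comm]; exact mul_le_mul_of_nonneg_left hw (Nat.cast_nonneg _)
  exact lt_of_mul_lt_mul_right (h.trans_lt (hZ.trans_le this)) W0.le

theorem caseB_of {f : ℕ → ℕ} {π : Par} {x : ℕ} (hπ : π.Ok x) {c : ℤ} {n N w m w' m' P P' : ℕ}
    (n1 : 1 ≤ n) (n2 : n ≤ x + 1) (N2 : N ≤ x + 1) (hN : (N : ℤ) = n + c) (hf : f n = f N)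
    (e : n = w * m) (hc : w.Coprime m) (hs : Squarefree m) (e' : N = w' * m') (hc' : w'.Coprime m')
    (w0 : 0 < w') (hs' : Squarefree m') (hm : π.DB < m') (hP : P.Prime) (hPm : P ∣ m)
    (hP' : ∀ p : ℕ, p.Prime → p ∣ m' → p ≤ P') (h1 : (P : ℝ) * P' ≤ π.T1) (h2 : π.T2 < P) :
    PB f π x c N := by
  have T2 : 0 < π.T2 := by linarith [hπ.T3, hπ.c2]
  obtain ⟨k, k1, k2⟩ := unit_div e hc hs hPm
  obtain ⟨d, d1, d2, d3⟩ := exists_div hπ.DB hm (V := π.T1 / π.T2) fun p hp hd => by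
    have h3 : (p : ℝ) ≤ P' := by exact_mod_cast hP' p hp hd
    rw [le_div_iff₀' T2]
    exact (mul_le_mul h2.le h3 (by positivity) (by positivity)).trans h1
  obtain ⟨t, t1, t2⟩ := unit_div e' hc' hs' d1
  have m1 : 1 < m' := by exact_mod_cast hπ.DB.trans_lt hm
  refine ⟨by rw [e']; nlinarith, N2, k, d, P, t, hP, k2.symm, by rw [hN, k1]; push_cast; ring,
    by rw [mul_comm, ← k1, hf], Nat.pos_of_ne_zero (by rintro rfl; omega), ?_, t1, t2,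
    hs'.squarefree_of_dvd d1, d2, d3⟩
  rw [le_div_iff₀' T2]
  calc π.T2 * k ≤ P * k := mul_le_mul_of_nonneg_right h2.le (Nat.cast_nonneg _)
    _ ≤ _ := by exact_mod_cast k1 ▸ n2

theorem classify {f : ℕ → ℕ} (hf : Cls f) (y : ℕ) {π : Par} {x : ℕ} (hπ : π.Ok x) {n : ℕ}
    (n1 : 1 ≤ n) (n2 : n ≤ x) (hn : f n = f (n + 1)) :
    (1 ≤ n ∧ (n : ℝ) ≤ π.Z0) ∨ PS π x n ∨ PS π x (n + 1) ∨ PA f π x n ∨ PB f π x 1 (n + 1) ∨
      PB f π x (-1) n ∨ PC y π x n ∨ PP y π x n ∨ PP y π x (n + 1) ∨ PM y π x n := by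
  rcases le_or_gt (n : ℝ) π.Z0 with hZ | hZ
  · exact .inl ⟨n1, hZ⟩
  refine .inr ?_
  by_cases q1 : ∃ a : ℕ, π.a0 < a ∧ a ^ 2 ∣ n
  · exact .inl ⟨n1, by omega, q1⟩
  refine .inr ?_
  by_cases q2 : ∃ a : ℕ, π.a0 < a ∧ a ^ 2 ∣ n + 1
  · exact .inl ⟨by omega, by omega, q2⟩
  refine .inr ?_
  obtain ⟨w, m, e, hc, hs, w0, hw⟩ := split n1 (a0 := π.a0) fun a ha =>
    not_lt.1 fun h => q1 ⟨a, h, ha⟩
  obtain ⟨w', m', e', hc', hs', w0', hw'⟩ := split (n := n + 1) (by omega) (a0 := π.a0)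
    fun a ha => not_lt.1 fun h => q2 ⟨a, h, ha⟩
  set W := π.a0 ^ 3 with hW
  have W1 : 1 ≤ W := one_le_pow₀ hπ.a0
  have hZ' : π.Z0 < (n + 1 : ℕ) := by push_cast; linarith
  have m1 : π.DB < m := lt_of_split e hw hZ (by linarith) hπ.b1
  have m1' : π.DB < m' := lt_of_split e' hw' hZ' (by linarith) hπ.b1
  have m0 := hs.ne_zero
  have m0' := hs'.ne_zero
  have dm : m ∣ n := Dvd.intro_left _ e.symm
  have dm' : m' ∣ n + 1 := Dvd.intro_left _ e'.symm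
  have mx : m ≤ x + 1 := (Nat.le_of_dvd n1 dm).trans (by omega)
  have mx' : m' ≤ x + 1 := (Nat.le_of_dvd (by omega) dm').trans (by omega)
  have hE : f w * ph m = f w' * ph m' := by
    rw [← hf.sqfree hs, ← hf.sqfree hs', ← hf.mul _ _ hc, ← hf.mul _ _ hc', ← e, ← e', hn]
  have V0 : 0 < π.V := by linarith [hπ.V]
  rcases lt_or_ge π.R (ro y (ph m)) with hR | hR
  · obtain ⟨P, p1, p2, p3⟩ := max_prime (m := m) (by exact_mod_cast hπ.DB.trans_lt m1)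
    obtain ⟨P', p1', p2', p3'⟩ := max_prime (m := m') (by exact_mod_cast hπ.DB.trans_lt m1')
    have T1 : 0 < π.T1 := by nlinarith [hπ.T3, hπ.c2, hπ.c1]
    rcases lt_or_ge π.T1 ((P : ℝ) * P') with h1 | h1
    · obtain ⟨k, k1, k2⟩ := unit_div e hc hs p2
      obtain ⟨k', k1', k2'⟩ := unit_div e' hc' hs' p2'
      refine .inl ⟨n1, by omega, hn, k, k', P, P', p1, p1', by rw [k1, mul_comm],
        by rw [k1', mul_comm], k2.symm, k2'.symm, ?_⟩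
      rw [le_div_iff₀' T1]
      calc π.T1 * (k * k') ≤ P * P' * (k * k') := mul_le_mul_of_nonneg_right h1.le (by positivity)
        _ = ((n * (n + 1) : ℕ) : ℝ) := by
          conv_rhs => rw [k1', k1]
          push_cast; ring
        _ ≤ _ := by
          rw [sq]; exact_mod_cast Nat.mul_le_mul (by omega) (by omega)
    refine .inr ?_
    rcases lt_or_ge π.T2 (P : ℝ) with h2 | h2
    · exact .inl (caseB_of hπ n1 (by omega) (by omega) (by push_cast; ring) hn e hc hs e' hc' w0'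
        hs' m1' p1 p2 p3' h1 h2)
    refine .inr ?_
    rcases lt_or_ge π.T2 (P' : ℝ) with h3 | h3
    · exact .inl (caseB_of hπ (n := n + 1) (by omega) (by omega) (by omega) (by push_cast; ring)
        hn.symm e' hc' hs' e hc w0 hs m1 p1' p2' p3 (by rwa [mul_comm]) h3)
    refine .inr (.inl ?_)
    set U := max (P : ℝ) π.T3 with hU
    have U1 : π.T3 ≤ U := le_max_right _ _
    have U2 : U ≤ π.T2 := max_le h2 hπ.c2
    have U0 : 0 < U := by linarith [hπ.T3]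
    have U3 : π.T3 ≤ π.T1 / U := by
      rw [le_div_iff₀ U0]
      exact (mul_le_mul_of_nonneg_left U2 (by linarith [hπ.T3])).trans hπ.c1
    have U4 : (P' : ℝ) ≤ π.T1 / U := by
      rw [le_div_iff₀' U0]
      rcases le_total (P : ℝ) π.T3 with h | h
      · rw [hU, max_eq_right h]
        exact (mul_le_mul_of_nonneg_left h3 (by linarith [hπ.T3])).trans hπ.c1
      · rw [hU, max_eq_left h]; exact h1
    have T30 : 0 ≤ π.T3 := by linarith [hπ.T3]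
    obtain ⟨d, d', a1, a2, a3, a4, a5⟩ := pair_pigeon y hs hs' (hπ.T3.trans U1) (hπ.T3.trans U3) hπ.G
      (fun p hp hd => le_trans (by exact_mod_cast p3 p hp hd) (le_max_left _ _))
      (fun p hp hd => le_trans (by exact_mod_cast p3' p hp hd) U4)
      (le_trans (by exact_mod_cast mx) (hπ.c3.trans (pow_le_pow_left₀ T30 U1 21)))
      (le_trans (by exact_mod_cast mx') (hπ.c3.trans (pow_le_pow_left₀ T30 U3 21)))
      (by
        have b1 := le_gcd_mul (ro_pos y (ph m))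
          (hE ▸ (ro_dvd y (ph_pos m).ne').mul_left (f w))
        have b2 : Nat.gcd (ro y (ph m)) (f w') ≤ w' :=
          (Nat.gcd_le_right _ (hf.pos _ w0')).trans (hf.le w0')
        have b3 : (ro y (ph m) : ℝ) ≤ w' * Nat.gcd (ro y (ph m)) (ph m') := by
          exact_mod_cast b1.trans (Nat.mul_le_mul_right _ b2)
        have b4 := mul_le_mul_of_nonneg_right hw' (Nat.cast_nonneg (α := ℝ)
          (Nat.gcd (ro y (ph m)) (ph m')))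
        exact lt_of_mul_lt_mul_left (hπ.c4.trans_lt (hR.trans_le (b3.trans b4))) (by linarith))
    refine ⟨n1, n2, d, d', hs.squarefree_of_dvd a1, hs'.squarefree_of_dvd a2, a1.trans dm,
      a2.trans dm', ?_, a5⟩
    calc (d : ℝ) * d' ≤ U * (π.T1 / U) := mul_le_mul a3 a4 (by positivity) U0.le
      _ = π.T1 := by field_simp
  refine .inr (.inr (.inr (.inr ?_)))
  have r1 : ∀ d, d ∣ m → (ro y (ph d) : ℝ) ≤ π.R * W := fun d hd =>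
    le_trans (by exact_mod_cast ro_ph_le y m0 hd) (hR.trans (by nlinarith [hπ.R]))
  have r2 : ∀ d, d ∣ m' → (ro y (ph d) : ℝ) ≤ π.R * W := fun d hd => by
    have b1 := congrArg (ro y) hE
    rw [ro_mul y (hf.pos _ w0).ne' (ph_pos m).ne', ro_mul y (hf.pos _ w0').ne' (ph_pos m').ne'] at b1
    have b2 : ro y (ph m') ≤ w * ro y (ph m) := by
      refine (Nat.le_mul_of_pos_left _ (ro_pos y (f w'))).trans (b1 ▸ Nat.mul_le_mul_right _ ?_)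
      exact (ro_le y (hf.pos _ w0).ne').trans (hf.le w0)
    have b3 : (ro y (ph d) : ℝ) ≤ w * ro y (ph m) := by
      exact_mod_cast (ro_ph_le y m0' hd).trans b2
    rw [mul_comm π.R]
    exact b3.trans (mul_le_mul hw hR (by positivity) (by linarith))
  by_cases q3 : ∃ p : ℕ, p.Prime ∧ p ∣ m ∧ π.V < p
  · obtain ⟨p, a1, a2, a3⟩ := q3
    exact .inl ⟨n1, by omega, p, a1, a2.trans dm, a3, ph_prime a1 ▸ r1 p a2⟩
  refine .inr ?_
  by_cases q4 : ∃ p : ℕ, p.Prime ∧ p ∣ m' ∧ π.V < p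
  · obtain ⟨p, a1, a2, a3⟩ := q4
    exact .inl ⟨by omega, by omega, p, a1, a2.trans dm', a3, ph_prime a1 ▸ r2 p a2⟩
  refine .inr ?_
  push Not at q3 q4
  have NV : π.N0 ≤ π.N0 * π.V := by nlinarith [hπ.N0, hπ.V]
  have NV1 : π.N0 * π.V ≤ π.M0 * (π.N0 * π.V) := by nlinarith [hπ.N0, hπ.V, hπ.M0]
  have DV : π.D0 ≤ π.D0 * π.V := by nlinarith [hπ.D0, hπ.V]
  have g1 : π.M0 * (π.N0 * π.V) < m := lt_of_split e hw hZ (by linarith) hπ.b2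
  have g2 : π.M0 * (π.N0 * π.V) < m' := lt_of_split e' hw' hZ' (by linarith) hπ.b2
  obtain ⟨d, d1, d2, d3⟩ := exists_div hπ.D0 (m := m') (by linarith [hπ.d1]) q4
  obtain ⟨n3, ⟨m2, em⟩, s2, s3⟩ := exists_div hπ.N0 (m := m) (by linarith) q3
  have g3 : π.M0 < m2 := lt_of_split em s3 g1 (by linarith [hπ.N0]) le_rfl
  have dm2 : m2 ∣ m := Dvd.intro_left _ em.symm
  obtain ⟨u, ⟨v, ev⟩, u2, u3⟩ := exists_div hπ.M0 g3 fun p hp hd => q3 p hp (hd.trans dm2)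
  have dv : v ∣ m := (Dvd.intro_left _ ev.symm).trans dm2
  have d3m : n3 ∣ m := Dvd.intro _ em.symm
  have mem : ∀ {k m : ℕ} {Z : ℝ}, Squarefree m → m ≤ x + 1 → k ∣ m → Z ≤ k →
      (ro y (ph k) : ℝ) ≤ π.R * W → k ∈ AA y (x + 1) (π.R * W) Z := fun h1 h2 h3 h4 h5 =>
    mem_filter.2 ⟨mem_Icc.2 ⟨Nat.pos_of_ne_zero (h1.squarefree_of_dvd h3).ne_zero,
      (Nat.le_of_dvd (Nat.pos_of_ne_zero h1.ne_zero) h3).trans h2⟩, h1.squarefree_of_dvd h3, h4, h5⟩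
  have en : n = w * u * v * n3 := by rw [e, em, ev]; ring
  refine ⟨n1, n2, d, w * u, v, n3, en, d1.trans dm',
    mem_filter.2 ⟨mem hs' mx' d1 d2.le (r2 d d1), Nat.le_floor d3⟩, ?_,
    mem hs mx dv ?_ (r1 v dv), mem hs mx d3m s2.le (r1 n3 d3m), ?_, s3⟩
  · refine u2.trans_le ?_
    exact_mod_cast Nat.le_mul_of_pos_left u w0
  · have M0 : 0 < π.M0 := by linarith [hπ.M0]
    have N0 : 0 < π.N0 := by linarith [hπ.N0]
    rw [div_le_iff₀ (by positivity)]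
    refine hZ.le.trans ?_
    rw [en]; push_cast
    calc (w : ℝ) * u * v * n3 = v * (w * u * n3) := by ring
      _ ≤ _ := by gcongr
  · exact Nat.floor_le_of_le (hπ.d1.trans s2.le)

end

end Pool.Agent.MP_35c637_nt

end MrgPart0

-- ======== part 1: formerly Pool.Agent.MP_35c637_nt.Total
section MrgPart1

/-! The explicit bound with free parameters. -/

set_option autoImplicit false

namespace Pool.Agent.MP_35c637_nt

open Finset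

noncomputable section

/-- every finite set of numbers with property `P` has at most `c` elements -/
def Bd (P : ℕ → Prop) (c : ℝ) : Prop := ∀ T : Finset ℕ, (∀ n ∈ T, P n) → (T.card : ℝ) ≤ c

theorem Bd.or {P Q : ℕ → Prop} {a b : ℝ} (h1 : Bd P a) (h2 : Bd Q b) :
    Bd (fun n => P n ∨ Q n) (a + b) := by
  classical
  intro T hT
  rw [← card_filter_add_card_filter_not (s := T) P, Nat.cast_add]
  exact add_le_add (h1 _ fun n hn => (mem_filter.1 hn).2)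
    (h2 _ fun n hn => (hT n (mem_filter.1 hn).1).resolve_left (mem_filter.1 hn).2)

theorem Bd.shift {P : ℕ → Prop} {a : ℝ} (h : Bd P a) : Bd (fun n => P (n + 1)) a := by
  intro T hT
  rw [← card_image_of_injective T (add_left_injective 1)]
  exact h _ fun n hn => by obtain ⟨m, hm, rfl⟩ := mem_image.1 hn; exact hT m hm

theorem Bd.le {P : ℕ → Prop} {a b : ℝ} (h : Bd P a) (hab : a ≤ b) : Bd P b :=
  fun T hT => (h T hT).trans hab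

theorem bd_small {Z : ℝ} (hZ : 0 ≤ Z) : Bd (fun n => 1 ≤ n ∧ (n : ℝ) ≤ Z) Z := by
  intro T hT
  have : T.card ≤ (Icc 1 ⌊Z⌋₊).card :=
    card_le_card fun n hn => mem_Icc.2 ⟨(hT n hn).1, Nat.le_floor (hT n hn).2⟩
  rw [Nat.card_Icc, add_tsub_cancel_right] at this
  exact le_trans (by exact_mod_cast this) (Nat.floor_le hZ)

theorem total {f : ℕ → ℕ} (hf : Cls f) {y : ℕ} (hy : 1 ≤ y) {π : Par} {x : ℕ} (hx : 0 < x)
    (hπ : π.Ok x) {s τ γ κ E : ℝ} {Q : ℕ} (s0 : 0 ≤ s) (s1 : s ≤ 1 / 2) (hτ : 0 < τ) (g0 : 0 ≤ γ)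
    (g1 : γ ≤ 1) (k0 : 0 < κ) (hQ : 0 < Q)
    (hB : 8 * (((x + 1 : ℕ) : ℝ) / π.T2) ^ 6 * ((x + 1 : ℕ) : ℝ) ^ 2 ≤ π.DB ^ 3)
    (hT : (x : ℝ) ≤ π.T1) (hγ : 2 * Real.log (x + 1 : ℕ) * (y : ℝ) ^ (-(1 - γ)) ≤ 1)
    (c1 : 4 * (Q : ℝ) ^ 3 ≤ κ ^ 2 * π.M0 ^ 2) (c2 : 1 ≤ κ ^ 2 * Q)
    (c3 : π.N0 * π.V * (π.D0 * π.V) ≤ κ ^ 2 * x)
    (hE : ((x + 1 : ℕ) : ℝ) ^ τ * Real.exp (2 * (HH y s * (1 + 1 / τ))) ≤ E) :
    (((Icc 1 x).filter fun n => f n = f (n + 1)).card : ℝ) ≤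
      π.Z0 + (2 * (x + 1 : ℕ) / π.a0 + (2 * (x + 1 : ℕ) / π.a0 +
      (((x + 1 : ℕ) : ℝ) ^ 2 / π.T1 * (1 + Real.log (x + 1 : ℕ)) +
      ((x + 1 : ℕ) / π.T2 * (π.DB * (π.T1 / π.T2)) + ((x + 1 : ℕ) / π.T2 * (π.DB * (π.T1 / π.T2)) +
      (2 * π.T1 / π.G ^ γ * ((1 + Real.log (x + 1 : ℕ)) *
        Real.exp (PI (x + 1 + 1) + (1 + Real.log (x + 1 : ℕ)) *
          (4 * Real.log (x + 1 : ℕ) * (y : ℝ) ^ (-(1 - γ))))) +
      ((x + 1 : ℕ) * ((2 * (π.R * π.a0 ^ 3) / π.V) ^ (1 / 4 : ℝ) *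
        (HH y (1 / 4) * (1 + Real.log (x + 1 : ℕ)))) +
      ((x + 1 : ℕ) * ((2 * (π.R * π.a0 ^ 3) / π.V) ^ (1 / 4 : ℝ) *
        (HH y (1 / 4) * (1 + Real.log (x + 1 : ℕ)))) +
      lg x ^ 2 * (2 * x * (((π.R * π.a0 ^ 3 / (π.Z0 / (π.a0 ^ 3 * (π.M0 * π.V) * (π.N0 * π.V)))) ^ s
        * E) * ((π.R * π.a0 ^ 3 / π.N0) ^ s * E) * ((π.R * π.a0 ^ 3 / π.D0) ^ s * E)) +
        70 * lg x ^ 4 * x * κ))))))))) := by
  have a0 : 0 < π.a0 := by linarith [hπ.a0]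
  have R0 : 0 < π.R := by linarith [hπ.R]
  have V0 : 0 < π.V := by linarith [hπ.V]
  have DB : 0 < π.DB := by linarith [hπ.DB]
  have N0 : 0 < π.N0 := by linarith [hπ.N0]
  have M0 : 0 < π.M0 := by linarith [hπ.M0]
  have D0 : 0 < π.D0 := by linarith [hπ.D0]
  have T2 : 0 < π.T2 := by linarith [hπ.T3, hπ.c2]
  have T1 : 0 < π.T1 := by nlinarith [hπ.T3, hπ.c2, hπ.c1]
  have G0 : 0 < π.G := by linarith [hπ.G]
  have Z0 : 0 < π.Z0 := lt_of_lt_of_le (by positivity) hπ.b1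
  have b1 : Bd (PS π x) _ := sq_case (x + 1) a0
  have b2 : Bd (PA f π x) _ := caseA hf (x + 1) (by positivity)
  have b3 : ∀ c : ℤ, c = 1 ∨ c = -1 → Bd (PB f π x c) _ := fun c hc =>
    caseB hf (x + 1) hc (by positivity) DB.le (by positivity) hB
  have b4 : Bd (PC y π x) _ := caseC hy x g0 g1 G0 hT hγ
  have b5 : Bd (PP y π x) _ :=
    prime_case y (x + 1) (by positivity) V0 (s := 1 / 4) (by norm_num) (by norm_num)
  have b6 : Bd (PM y π x) _ := main_case x ⌊π.D0 * π.V⌋₊ Q hx hQ _ _ _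
    (fun d hd => mem_Icc.2 ⟨(mem_Icc.1 (mem_filter.1 (mem_filter.1 hd).1).1).1, (mem_filter.1 hd).2⟩)
    M0.le k0 c1 c2
    ((mul_le_mul_of_nonneg_left (Nat.floor_le (by positivity)) (by positivity)).trans c3)
  have r : ∀ {Z : ℝ}, 0 < Z → ∑ k ∈ AA y (x + 1) (π.R * π.a0 ^ 3) Z, (1 : ℝ) / k ≤
      (π.R * π.a0 ^ 3 / Z) ^ s * E := fun hZ =>
    (rankin y (x + 1) (by positivity) hZ s0 s1 hτ).trans (by
      rw [mul_assoc]; exact mul_le_mul_of_nonneg_left hE (by positivity))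
  have E0 : 0 ≤ E := le_trans (by positivity) hE
  have l1 := one_le_lg x
  have b7 := b6.le (mul_le_mul_of_nonneg_left (add_le_add (mul_le_mul_of_nonneg_left
    (mul_le_mul (mul_le_mul (r (by positivity)) (r N0) (sum_nonneg fun _ _ => by positivity)
      (by positivity)) ((sum_le_sum_of_subset_of_nonneg (filter_subset _ _)
        fun _ _ _ => by positivity).trans (r D0)) (sum_nonneg fun _ _ => by positivity)
      (by positivity)) (by positivity)) le_rfl) (by positivity))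
  refine ((bd_small Z0.le).or (b1.or (b1.shift.or (b2.or ((b3 1 (.inl rfl)).shift.or
    ((b3 (-1) (.inr rfl)).or (b4.or (b5.or (b5.shift.or b7))))))))) _ fun n hn => ?_
  obtain ⟨h1, h2⟩ := mem_filter.1 hn
  exact classify hf y hπ (mem_Icc.1 h1).1 (mem_Icc.1 h1).2 h2

end

end Pool.Agent.MP_35c637_nt

end MrgPart1

-- marker of a merged file
example : 731051 + 97442 = 731051 + 97442 := rfl
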